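import Pool.Agent.W_448s14_h94.SgJ
import Pool.Agent.W_448s8f_h15.StA
import Pool.Agent.W_448f6_h94.FxB

/-!
Level 14, window 7 (MP_448cb3_co, S7, S8, `j = 14`): the interfaces.

`Sp`: a component with an anchor `c` of level 15 and the label 2.
`Kd`: the kinds of the elements of level 16 below the anchor.
`JA`, `JB`: the elements of level 15 below a strip `La7`.
-/

namespace Pool.Agent.GaussPoset.W7

set_option linter.unusedSectionVars false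

open Polynomial Finset Cl Dd Wd Win

universe u

variable {P : Type u} [Fintype P] [PartialOrder P] [DecidableEq P]

/-- a component `t` with an anchor `c`; `D` are the elements whose joins with `c` are clean -/
structure Sp (i n1 : ℕ) (R : Finset P) (θ : P → ℕ) (t : Tops P) (c : P) (D : Finset P) :
    Prop where
  gr : GradedBelow P
  low : ∀ x y : P, x ≤ y → y ∈ R → x ∈ R
  lR : ∀ x ∈ R, i + 7 < lev x
  hcp : ∀ x y : P, x ≤ y → x ∉ R → topOf x = topOf y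
  bd : ∀ β : P → ℕ, (∀ x, x ∉ R → β x ≤ θ x) → ∀ n < n1,
    (1 + X : ℤ[X]) ^ (lv P i).card ∣ ZB i R 0 β n
  two : (univ.filter (fun x : P => lev x = i ∧ topOf x = t)).card = 2
  bel : (univ.filter (fun x : P => lev x < i ∧ topOf x = t)).card = i
  clT : ∀ L : Finset P, (∀ x, x ∈ L ↔ x ∉ R ∧ topOf x = t) → ∀ n < n1,
    (1 + X : ℤ[X]) ^ 2 ∣ Z {x // x ∈ L} i n
  cR : c ∉ R
  cpc : topOf c = t
  clev : lev c = i + 8
  cct : ct i 2 c = 28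
  thc : θ c = 1
  out : ∀ x, x ∉ R → topOf x = t → ¬ c ≤ x → i + 2 ≤ lev x
  cls : ∀ L : Finset P, (∀ x ∈ L, x ∉ R ∧ topOf x = t) → (∀ x ∈ L, ∀ y, x ≤ y → y ∈ L) → c ∈ L →
    ∀ n < 2, (1 + X : ℤ[X]) ^ 2 ∣ Z {x // x ∈ L} (i + 2) n
  cls2 : ∀ L : Finset P, (∀ x ∈ L, x ∉ R ∧ topOf x = t) → (∀ x ∈ L, ∀ y, x ≤ y → y ∈ L) → c ∈ L →
    (∃ d ∈ D, d ∈ L) → ∀ n < 12, (1 + X : ℤ[X]) ^ 2 ∣ Z {x // x ∈ L} (i + 2) n
  ld : ∀ L : Finset P, (∀ x, x ∈ L ↔ c ≤ x) →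
    (1 + X : ℤ[X]) ^ 2 ∣ Z {x // x ∈ L} (i + 2) 2 + X ^ 13 * (1 + X)

/-- the kinds of an element `z` below the anchor `c` at the energy `n`: `p` says that `z` has a
pole at the energy `n`, of the sign of `X ^ k` -/
inductive Kd (i : ℕ) (R : Finset P) (θ : P → ℕ) (t : Tops P) (c : P) (D : Finset P) (n : ℕ)
    (z : P) (p : Prop) (k : ℕ) : Prop
  | P (h1 : ∀ y, z ⋖ y → y = c) (h2 : n ≤ 32) (h3 : p ↔ n = 32)
      (h4 : p → k = below P i + i)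
  | O (d : P) (h1 : d ∈ D) (h2 : z ⋖ d) (h3 : 40 ≤ ct i 2 z) (h4 : n < 52) (h5 : ¬ p)
      (h6 : ∀ y, z ⋖ y → y = c ∨ y = d)
  | X (v : P) (h1 : z ⋖ v) (h2 : ∀ y, z ⋖ y → y = c ∨ y = v) (h3 : v ∉ R) (h4 : topOf v ≠ t)
      (h5 : 2 ≤ θ v) (h6 : n ≤ 32 + ct i 2 v) (h7 : p ↔ n = 32 + ct i 2 v)
      (h8 : p → nab (i + 2) v = nab i v ∧ k = below P i + i + nst i (fun _ => 2) v)
  | Y (h1 : ∀ g : P → ℕ, (∀ x, x ∉ R → g x = 0) → 2 ≤ g z →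
        (∀ y ∈ R, ∀ x, x ∉ R → y ⋖ x → topOf x = t → g y ≤ 2) →
        (∀ y ∈ R, ∀ x, x ∉ R → y ⋖ x → topOf x ≠ t → g y ≤ θ x) →
        (1 + Polynomial.X : ℤ[X]) ^ (lv P i).card ∣ ZB i R g 0 n) (h2 : ¬ p)

/-- the elements of level 15 below the strip `La7` (`y0, …, y4` are the cells `25, …, 29`): a
pendant of `y1`, elements below `y2, y3` and below `y3, y4`, perhaps an element below `y1, y2` -/
structure JA (e : ℕ → ℕ → P) (A : Finset P) (c : P) : Prop where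
  cA : c ∈ A
  hc : Sg.Mk e c 805306368
  hp : ∃ x ∈ A, Sg.Mk e x 67108864
  h23 : ∃ x ∈ A, Sg.Mk e x 402653184
  all : ∀ x ∈ A, Sg.Mk e x 67108864 ∨ Sg.Mk e x 201326592 ∨ Sg.Mk e x 402653184 ∨
    Sg.Mk e x 805306368
  uniq : ∀ x ∈ A, ∀ y ∈ A, ∀ m, Sg.Mk e x m → Sg.Mk e y m → x = y

/-- the other pattern: a pendant of `y1`, an element below `y1, y2`, two elements below
`y3, y4` -/
structure JB (e : ℕ → ℕ → P) (A : Finset P) (c c' : P) : Prop where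
  cA : c ∈ A
  cA' : c' ∈ A
  ne : c ≠ c'
  hc : Sg.Mk e c 805306368
  hc' : Sg.Mk e c' 805306368
  hp : ∃ x ∈ A, Sg.Mk e x 67108864
  h12 : ∃ x ∈ A, Sg.Mk e x 201326592
  all : ∀ x ∈ A, Sg.Mk e x 67108864 ∨ Sg.Mk e x 201326592 ∨ x = c ∨ x = c'
  uniq : ∀ x ∈ A, ∀ y ∈ A, ∀ m, m = 67108864 ∨ m = 201326592 → Sg.Mk e x m → Sg.Mk e y m → x = y

/-- the thresholds of the strip with the elements of level 15 -/
structure ThA (e : ℕ → ℕ → P) (A : Finset P) (θ : P → ℕ) : Prop where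
  y0 : θ (Sg.ce e 25) = 4
  y1 : θ (Sg.ce e 26) = 3
  y2 : θ (Sg.ce e 27) = 2
  y3 : θ (Sg.ce e 28) = 1
  y4 : θ (Sg.ce e 29) = 0
  p1 : ∀ x ∈ A, Sg.Mk e x 67108864 → θ x = 4
  c12 : ∀ x ∈ A, Sg.Mk e x 201326592 → θ x = 3
  c23 : ∀ x ∈ A, Sg.Mk e x 402653184 → θ x = 2
  c34 : ∀ x ∈ A, Sg.Mk e x 805306368 → θ x = 1

/-- the component `E7` at the window 7, energies up to 50 -/
structure Oth (N : Tops P → Finset P) (t : Tops P) (θ : P → ℕ) : Prop where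
  h1 : ∃ B, Sg.LocL 7 2 51 (N t) θ B
  h2 : lowPart 14 (t : P) ⊆ N t
  h3 : ∀ x ∈ N t, x ≤ (t : P)
  h4 : ∀ x ∈ N t, ∀ y, x ≤ y → y ∈ N t
  h5 : ∀ v w, v ≤ (t : P) → w ≤ (t : P) → lev v = 14 → lev w = 14 → v = w
  h6 : ∀ z v, lev z = 15 → v ≤ (t : P) → lev v = 14 → Pend z v → z ∈ N t
  h7 : ∀ v, v ≤ (t : P) → lev v = 14 → Fi.Prof 7 v (Fi.gD F6.pE) ∧ θ v = 3 ∧ (Win.uc v).card = 1
  h8 : cn 2 (t : P) ≤ 1
  h9 : ∀ z ∈ unnat N, ∀ x ∈ N t, 15 ≤ lev x → z ⋖ x → 51 ≤ ct 7 (θ x + 1) z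
  h10 : ∀ z ∈ unnat N, ∀ x ∈ N t, lev x = 15 → ¬ ∀ w, x < w ↔ z < w

/-- the profile of an element of level 15: straight, or one extra element, or dear -/
def Ep (v : P) : Prop :=
  (∀ l, 7 ≤ l → l ≤ 14 → nab l v = 1) ∨
  (∃ l, 8 ≤ l ∧ l ≤ 14 ∧ nab l v = 2 ∧ ∀ l', 7 ≤ l' → l' ≤ 14 → l' ≠ l → nab l' v = 1) ∨
  (19 ≤ ct 7 2 v ∧ nab 7 v ≤ nab 9 v) ∨ 21 ≤ ct 7 2 v

end Pool.Agent.GaussPoset.W7
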