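import Pool.Agent.W_448w7_h94.WiA

/-!
The natural system at window 7, level 14, with the elements of level 15 below the strips `La7`
(MP_448cb3_co, S7, `j = 14`; after `FxB`).
-/

namespace Pool.Agent.GaussPoset.W7

set_option linter.unusedSectionVars false

open Polynomial Finset Fi Cp Cl

universe u

variable {P : Type u} [Fintype P] [PartialOrder P] [DecidableEq P] {r n0 : ℕ}
  {N : Tops P → Finset P} {b : Tops P → ℕ} {θ : Tops P → P → ℕ}

/-- the elements of level 15 of a strip `La7` -/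
structure LaT (n0 : ℕ) (e : ℕ → ℕ → P) (t : P) (A : Finset P) (θ : P → ℕ) : Prop where
  loc : Sg.LocL 7 2 n0 (lowPart (2 * 7) t ∪ A) θ (fun x => x = Sg.ce e 29)
  th : ThA e A θ
  typ : ∀ x ∈ A, Sg.Mk e x 67108864 ∨ Sg.Mk e x 201326592 ∨ Sg.Mk e x 402653184 ∨
    Sg.Mk e x 805306368
  full : ∀ z, lev z = 15 → (∀ y, z ⋖ y → y ≤ t) → z ∈ A ∨ Sg.Mk e z 33554432
  pat : (∃ c, JA e A c) ∨ (n0 ≤ 31 ∧ ∃ c c', JB e A c c')

/-- a component `La7` -/
structure LaD (n0 : ℕ) (N : Tops P → Finset P) (θ : P → ℕ) (t : Tops P) (lo hi : ℕ → ℕ)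
    (e : ℕ → ℕ → P) (A : Finset P) : Prop where
  comp : Comp (2 * 7) (t : P) lo hi e
  word : WordD (2 * 7) 7 wa7 lo hi
  nat : N t = lowPart (2 * 7) (t : P) ∪ A
  dat : LaT n0 e (t : P) A θ

/-- the types of the components -/
inductive TyL (n0 : ℕ) (N : Tops P → Finset P) (t : Tops P) (b : ℕ) (θ : P → ℕ) : Prop
  | light (h1 : N t = onlyB t) (h2 : θ = fun x => lev x - 7) (h3 : b = 1)
      (h5 : ∀ x, x ≤ (t : P) → lev x ≤ 2 * 7 → x ∈ onlyB t) (h6 : ∃ x ≤ (t : P), lev x = 7)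
      (h8 : cn 2 (t : P) ≤ 1) (h9 : cn 7 (t : P) = 1)
  | rect (Nc : Finset P) (co : P → ℕ × ℕ) (h0 : RectNat (2 * 7) 7 t b Nc co)
      (h1 : N t = natR Nc co) (h2 : θ = thR 7 b Nc co) (h3 : NopT 7 t)
  | stair (Nc : Finset P) (co : P → ℕ × ℕ) (h0 : StairNat (2 * 7) 7 t Nc co)
      (h1 : N t = natS Nc co) (h2 : θ = thS 7 Nc co) (h3 : b = 7 / 2 + 1) (h4 : NopT 7 t)
  | oth (h : Oth N t θ) (hb : b = 2)
  | la (lo hi : ℕ → ℕ) (e : ℕ → ℕ → P) (A : Finset P) (h : LaD n0 N θ t lo hi e A) (hb : b = 2)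
  | bare (h1 : N t = lowPart (2 * 7) (t : P)) (h2 : ∃ B, NatTop 7 t b (N t) θ B)
      (h3 : ∀ z, lev z = 15 → ¬ z ≤ (t : P)) (h4 : cn 2 (t : P) ≤ 1)

/-- the context: the joins of level 15 are joins of a fold end and the first end of a strip
`La7` -/
structure WL (r n0 : ℕ) (N : Tops P → Finset P) (b : Tops P → ℕ) (θ : Tops P → P → ℕ) :
    Prop where
  gt : Win.GoodTo P r (2 * 7)
  hr : 2 * 7 + 1 ≤ r
  hn0 : n0 ≤ 51
  tc : ∀ t, TyL n0 N t (b t) (θ t)
  sum_b : ∑ t, b t = (lv P 7).card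

lemma WL.lowUp (W : WL r n0 N b θ) (t : Tops P) :
    ∀ x ∈ lowPart (2 * 7) (t : P), ∀ y, x ≤ y → y ∈ lowPart (2 * 7) (t : P) := by
  intro x hx y hxy
  rw [mem_lowPart] at hx ⊢
  refine ⟨Cp.up_le W.gt.H W.gt.good t.2 hx.1 hx.2 hxy, ?_⟩
  rcases eq_or_lt_of_le hxy with h | h
  · rw [← h]; exact hx.2
  · have := lev_strictAnti h; omega

/-- the covers of the elements of level 15 are cells -/
lemma LaD.cov {t : Tops P} {lo hi : ℕ → ℕ} {e : ℕ → ℕ → P} {A : Finset P} {θ : P → ℕ}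
    (L : LaD n0 N θ t lo hi e A) {x : P} (hx : x ∈ A) :
    lev x = 15 ∧ ∀ y, x ⋖ y → y ∈ lowPart (2 * 7) (t : P) ∧ lev y = 14 := by
  obtain ⟨m, hm, hmk⟩ : ∃ m, (m = 67108864 ∨ m = 201326592 ∨ m = 402653184 ∨ m = 805306368) ∧
      Sg.Mk e x m := by
    rcases L.dat.typ x hx with h | h | h | h
    · exact ⟨_, Or.inl rfl, h⟩
    · exact ⟨_, Or.inr (Or.inl rfl), h⟩
    · exact ⟨_, Or.inr (Or.inr (Or.inl rfl)), h⟩
    · exact ⟨_, Or.inr (Or.inr (Or.inr rfl)), h⟩
  refine ⟨hmk.1, fun y hy => ?_⟩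
  obtain ⟨a, ha, hbit, rfl⟩ := (hmk.2 y).mp hy
  have key : ∀ m ∈ [67108864, 201326592, 402653184, 805306368], ∀ a < 30,
      Nat.testBit m a = true → La7lv.getD a 0 = 14 := by decide +kernel
  have h1 := key m (by simpa using hm) a ha hbit
  have h2 := Sg.La7_le L.word L.comp ha
  exact ⟨mem_lowPart.mpr ⟨h2.1, by rw [h2.2, h1]⟩, by rw [h2.2, h1]⟩

lemma LaD.up (W : WL r n0 N b θ) {t : Tops P} {lo hi : ℕ → ℕ} {e : ℕ → ℕ → P} {A : Finset P}
    {θ : P → ℕ} (L : LaD n0 N θ t lo hi e A) : ∀ x ∈ N t, ∀ y, x ≤ y → y ∈ N t := by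
  intro x hx y hxy
  rw [L.nat, mem_union] at hx ⊢
  rcases hx with hx | hx
  · exact Or.inl (W.lowUp t x hx y hxy)
  · rcases eq_or_lt_of_le hxy with h | h
    · rw [← h]; exact Or.inr hx
    · obtain ⟨v, hv, hvy⟩ := Hul.exists_cov h
      exact Or.inl (W.lowUp t v ((L.cov hx).2 v hv).1 y hvy)

lemma LaD.le_t {t : Tops P} {lo hi : ℕ → ℕ} {e : ℕ → ℕ → P} {A : Finset P} {θ : P → ℕ}
    (L : LaD n0 N θ t lo hi e A) : ∀ x ∈ N t, x ≤ (t : P) := by
  intro x hx
  rw [L.nat, mem_union] at hx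
  rcases hx with hx | hx
  · exact (mem_lowPart.mp hx).1
  · have h1 := (L.cov hx).1
    have h2 : x < (topOf x : P) := lt_of_le_of_ne (le_topOf x) (by
      intro h
      have := (topOf x).2
      rw [← h] at this
      omega)
    obtain ⟨v, hv, -⟩ := Hul.exists_cov h2
    exact hv.1.le.trans (mem_lowPart.mp ((L.cov hx).2 v hv).1).1

/-- natural sets -/
lemma WL.natTop (W : WL r n0 N b θ) (t : Tops P) :
    (∃ B, NatTop 7 t (b t) (N t) (θ t) B) ∨ ((∃ B, Sg.LocL 7 (b t) n0 (N t) (θ t) B) ∧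
      (∀ x ∈ N t, x ≤ (t : P)) ∧ ∀ x ∈ N t, ∀ y, x ≤ y → y ∈ N t) := by
  have hgr := W.gt.H.gradedBelow
  rcases W.tc t with ⟨h1, h2, h3, h5, h6, h8, h9⟩ | ⟨Nc, co, h0, h1, h2, h3⟩ |
    ⟨Nc, co, h0, h1, h2, h3, h4⟩ | ⟨h, hb⟩ | ⟨lo, hi, e, A, h, hb⟩ | ⟨h1, h2, h3, h4⟩
  · left
    rw [h1, h2, h3]
    exact ⟨_, natTop_light hgr (fun x hx hxi => h5 x hx (by omega)) h6⟩
  · left
    rw [h1, h2]
    exact ⟨_, h0.natTop hgr (by omega)⟩
  · left
    rw [h1, h2, h3]
    exact ⟨_, h0.natTop hgr (by omega) (by omega)⟩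
  · right
    rw [hb]
    obtain ⟨B, hB⟩ := h.h1
    exact ⟨⟨B, ⟨fun U h1 h2 h3 h4 n hn => hB.clean U h1 h2 h3 h4 n (by have := W.hn0; omega),
      hB.lev, hB.base, hB.step, hB.le⟩⟩, h.h3, h.h4⟩
  · right
    rw [hb]
    refine ⟨⟨fun x => x = Sg.ce e 29, ?_⟩, h.le_t, h.up W⟩
    rw [h.nat]
    exact h.dat.loc
  · exact Or.inl h2

lemma WL.natSys (W : WL r n0 N b θ) : NatSys N where
  up := by
    intro t
    rcases W.natTop t with ⟨B, h⟩ | h
    · exact h.up
    · exact h.2.2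
  le_t := by
    intro t
    rcases W.natTop t with ⟨B, h⟩ | h
    · exact h.le_t
    · exact h.2.1

lemma WL.low (W : WL r n0 N b θ) {x : P} (hx : lev x ≤ 2 * 7) : x ∉ unnat N := by
  intro h
  refine mem_unnat.mp h (topOf x) ?_
  rcases W.tc (topOf x) with ⟨h1, h2, h3, h5, h6, h8, h9⟩ | ⟨Nc, co, h0, h1, h2, h3⟩ |
    ⟨Nc, co, h0, h1, h2, h3, h4⟩ | ⟨h, hb⟩ | ⟨lo, hi, e, A, h, hb⟩ | ⟨h1, h2, h3, h4⟩
  · rw [h1]; exact h5 x (le_topOf x) hx
  · rw [h1]; exact mem_natR.mpr (Or.inl (h0.strip (mem_lowPart.mpr ⟨le_topOf x, hx⟩)))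
  · rw [h1]; exact mem_natS.mpr (Or.inl (h0.strip (mem_lowPart.mpr ⟨le_topOf x, hx⟩)))
  · exact h.h2 (mem_lowPart.mpr ⟨le_topOf x, hx⟩)
  · rw [h.nat]; exact mem_union_left _ (mem_lowPart.mpr ⟨le_topOf x, hx⟩)
  · rw [h1]; exact mem_lowPart.mpr ⟨le_topOf x, hx⟩

lemma WL.lt_lev (W : WL r n0 N b θ) {x : P} (hx : x ∈ unnat N) : 2 * 7 < lev x := by
  by_contra hcon
  exact W.low (not_lt.mp hcon) hx

/-- the kinds of natural elements of light components -/
theorem WL.light_case (W : WL r n0 N b θ) {x : P} (hx : x ∉ unnat N)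
    (h1 : N (topOf x) = onlyB (topOf x)) (h2 : θ (topOf x) = fun x => lev x - 7) :
    Fi.Full 7 7 N θ x := by
  have H := W.gt.H
  have HN := W.natSys
  have hxt : x ∈ N (topOf x) := HN.mem_iff.mpr ⟨hx, rfl⟩
  generalize ht : topOf x = t at hxt h1 h2
  have hs : ∀ z ∈ unnat N, ∃ s : P, lev s = 0 ∧ z ≤ s ∧ s ≠ t := by
    intro z hz
    have h7 : z ∉ onlyB t := by
      rw [← h1]
      exact mem_unnat.mp hz t
    rw [mem_onlyB] at h7
    push Not at h7
    exact h7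
  refine ⟨by rw [ht, h2], ?_, ?_⟩
  · intro z hz hzx k _ hk
    obtain ⟨s, hs1, hs2, hs3⟩ := hs z hz
    exact two_le_nab_join HN H.gradedBelow hxt hzx hs1 hs3 hs2 hk
  · intro z hz h
    obtain ⟨s, hs1, hs2, hs3⟩ := hs z hz
    have h7 := W.lt_lev hz
    have h8 : z < s := lt_of_le_of_ne hs2 (by rintro rfl; omega)
    exact hs3 (HN.top_eq hxt hs1 ((h s).mpr h8).le)

/-- the kinds of natural elements of rectangles -/
theorem WL.rect_case (W : WL r n0 N b θ) {x : P} (hx : x ∉ unnat N) {Nc : Finset P}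
    {co : P → ℕ × ℕ} (h0 : RectNat (2 * 7) 7 (topOf x) (b (topOf x)) Nc co)
    (h1 : N (topOf x) = natR Nc co) (h2 : θ (topOf x) = thR 7 (b (topOf x)) Nc co)
    (h3 : NopT 7 (topOf x)) : Fi.Full 7 7 N θ x ∨ ∃ Nc co, InR 7 7 N b θ x Nc co := by
  have H := W.gt.H
  have HN := W.natSys
  have hxt : x ∈ N (topOf x) := HN.mem_iff.mpr ⟨hx, rfl⟩
  generalize ht : topOf x = t at hxt h0 h1 h2 h3
  -- rectangles
  by_cases hJ : x ∈ junk (fun _ => True) Nc co ∨ x ∈ junk (fun _ => True) Nc (swp co)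
  · left
    refine ⟨?_, ?_, ?_⟩
    · rw [ht, h2]
      unfold thR
      rw [if_pos hJ]
    · intro z hz hzx k hk hkx
      refine rect_two_le_nab H h0 h1 hz hzx ?_ (by omega) hkx
      rcases hJ with h | h
      · exact Or.inl h
      · exact Or.inr (Or.inl h)
    · intro z hz h
      refine mem_unnat.mp hz t ?_
      rw [h1, mem_natR]
      rcases hJ with h' | h'
      · exact Or.inr (Or.inl (junk_twin h' h))
      · exact Or.inr (Or.inr (junk_twin h' h))
  · have hxN : x ∈ Nc := by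
      rw [h1, mem_natR] at hxt
      rcases hxt with h | h | h
      · exact h
      · exact absurd (Or.inl h) hJ
      · exact absurd (Or.inr h) hJ
    have hl := h0.chart.lev x hxN
    have hb1 := h0.b_two
    have hb2 := h0.b_le
    have hrow : b t = 7 + 1 ∨ (co x).1 ≤ b t - 1 := by
      rcases h0.rows with h | h
      · exact Or.inl h
      · exact Or.inr (h x hxN)
    by_cases h7 : (co x).1 = 0 ∨ (co x).2 = 0
    · left
      refine ⟨?_, ?_, ?_⟩
      · rw [ht, h2]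
        unfold thR
        rw [if_neg hJ]
        omega
      · intro z hz hzx k hk hkx
        exact rect_two_le_nab H h0 h1 hz hzx (Or.inr (Or.inr ⟨hxN, h7⟩)) (by omega) hkx
      · intro z hz h
        have h8 := W.lt_lev hz
        rw [← lev_eq_of_up h] at h8
        rcases h7 with h7 | h7
        · obtain ⟨u, hu, hcu⟩ := h0.chart.low x hxN (0, (co x).2 - 1)
            ⟨Nat.zero_le _, Nat.sub_le _ _⟩ trivial
          refine straight_twin H h0 h1 hxN hu ?_ ?_ ?_ hz h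
          · rw [hcu]
            exact Or.inr ⟨by simp only; omega, by simp only; omega⟩
          · intro y hy hp
            rw [hcu]
            rcases hp with hp | hp
            · omega
            · exact Prod.ext (by simp only; omega) (by simp only; omega)
          · rw [hcu]
            exact Or.inl rfl
        · obtain ⟨u, hu, hcu⟩ := h0.chart.low x hxN ((co x).1 - 1, 0)
            ⟨Nat.sub_le _ _, Nat.zero_le _⟩ trivial
          refine straight_twin H h0 h1 hxN hu ?_ ?_ ?_ hz h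
          · rw [hcu]
            exact Or.inl ⟨by simp only; omega, by simp only; omega⟩
          · intro y hy hp
            rw [hcu]
            rcases hp with hp | hp
            · exact Prod.ext (by simp only; omega) (by simp only; omega)
            · omega
          · rw [hcu]
            exact Or.inr rfl
    · right
      refine ⟨Nc, co, ?_, ?_, hxN, by omega, by omega, ?_, ?_⟩
      · rw [ht]; exact h0
      · rw [ht]; exact h1
      · rw [ht, h2]
        unfold thR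
        rw [if_neg hJ]
        omega
      · rw [ht]; exact h3

/-- the kinds of natural elements of stairs -/
theorem WL.stair_case (W : WL r n0 N b θ) {x : P} (hx : x ∉ unnat N) {Nc : Finset P}
    {co : P → ℕ × ℕ} (h0 : StairNat (2 * 7) 7 (topOf x) Nc co)
    (h1 : N (topOf x) = natS Nc co) (h2 : θ (topOf x) = thS 7 Nc co)
    (h3 : b (topOf x) = 7 / 2 + 1) (h4 : NopT 7 (topOf x)) :
    Fi.Full 7 7 N θ x ∨ ∃ Nc co, InS 7 7 N b θ x Nc co := by
  have H := W.gt.H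
  have HN := W.natSys
  have hxt : x ∈ N (topOf x) := HN.mem_iff.mpr ⟨hx, rfl⟩
  generalize ht : topOf x = t at hxt h0 h1 h2 h3 h4
  -- stairs
  by_cases hJ : x ∈ junk (fun c => c.1 ≤ c.2) Nc co
  · left
    refine ⟨?_, ?_, ?_⟩
    · rw [ht, h2]
      unfold thS
      rw [if_pos hJ]
    · intro z hz hzx k hk hkx
      exact stair_two_le_nab H h0 h1 hz hzx (Or.inl hJ) hk hkx
    · intro z hz h
      refine mem_unnat.mp hz t ?_
      rw [h1, mem_natS]
      exact Or.inr (junk_twin hJ h)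
  · have hxN : x ∈ Nc := by
      rw [h1, mem_natS] at hxt
      rcases hxt with h | h
      · exact h
      · exact absurd h hJ
    have hl := h0.chart.lev x hxN
    by_cases h7 : (co x).1 = 0
    · left
      refine ⟨?_, ?_, ?_⟩
      · rw [ht, h2]
        unfold thS
        rw [if_neg hJ]
        omega
      · intro z hz hzx k hk hkx
        exact stair_two_le_nab H h0 h1 hz hzx (Or.inr ⟨hxN, h7⟩) hk hkx
      · intro z hz h
        have h8 := W.lt_lev hz
        rw [← lev_eq_of_up h] at h8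
        obtain ⟨u, hu, hcu⟩ := h0.chart.low x hxN (0, (co x).2 - 1)
          ⟨Nat.zero_le _, Nat.sub_le _ _⟩ (Nat.zero_le _)
        refine straight_twinS H h0 (by omega) h1 hxN hu ?_ ?_ ?_ hz h
        · rw [hcu]
          exact Or.inr ⟨by simp only; omega, by simp only; omega⟩
        · intro y hy hp
          rw [hcu]
          rcases hp with hp | hp
          · omega
          · exact Prod.ext (by simp only; omega) (by simp only; omega)
        · rw [hcu]
    · right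
      refine ⟨Nc, co, ?_, ?_, ?_, ?_, hxN, by omega, ?_, ?_⟩
      · rw [ht]; exact h0
      · rw [ht]; exact h1
      · rw [ht]; exact h2
      · rw [ht]; exact h3
      · rw [ht, h2]
        unfold thS
        rw [if_neg hJ]
      · rw [ht]; exact h4

/-- elements of E7 -/
structure Ot (N : Tops P → Finset P) (θ : Tops P → P → ℕ) (x : P) : Prop where
  mem : x ∈ N (topOf x)
  oth : Oth N (topOf x) (θ (topOf x))

/-- elements of a strip `La7` -/
structure Lx (n0 : ℕ) (N : Tops P → Finset P) (θ : Tops P → P → ℕ) (x : P) : Prop where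
  mem : x ∈ N (topOf x)
  ex : ∃ lo hi e A, LaD n0 N (θ (topOf x)) (topOf x) lo hi e A

/-- elements of a component without elements of level 15 -/
structure Bx (x : P) : Prop where
  lev : lev x ≤ 2 * 7
  no : ∀ z, Pool.Agent.GaussPoset.lev z = 15 → ¬ z ≤ (topOf x : P)
  cn2 : cn 2 (topOf x : P) ≤ 1

/-- the kinds of natural elements -/
theorem WL.cases (W : WL r n0 N b θ) {x : P} (hx : x ∉ unnat N) : Fi.Full 7 7 N θ x ∨
    (∃ Nc co, InR 7 7 N b θ x Nc co) ∨ (∃ Nc co, InS 7 7 N b θ x Nc co) ∨ Ot N θ x ∨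
      Lx n0 N θ x ∨ Bx x := by
  have hxt : x ∈ N (topOf x) := W.natSys.mem_iff.mpr ⟨hx, rfl⟩
  rcases W.tc (topOf x) with ⟨h1, h2, h3, h5, h6, h8, h9⟩ | ⟨Nc, co, h0, h1, h2, h3⟩ |
    ⟨Nc, co, h0, h1, h2, h3, h4⟩ | ⟨h, hb⟩ | ⟨lo, hi, e, A, h, hb⟩ | ⟨h1, h2, h3, h4⟩
  · exact Or.inl (W.light_case hx h1 h2)
  · rcases W.rect_case hx h0 h1 h2 h3 with h | h
    · exact Or.inl h
    · exact Or.inr (Or.inl h)
  · rcases W.stair_case hx h0 h1 h2 h3 h4 with h | h
    · exact Or.inl h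
    · exact Or.inr (Or.inr (Or.inl h))
  · exact Or.inr (Or.inr (Or.inr (Or.inl ⟨hxt, h⟩)))
  · exact Or.inr (Or.inr (Or.inr (Or.inr (Or.inl ⟨hxt, lo, hi, e, A, h⟩))))
  · refine Or.inr (Or.inr (Or.inr (Or.inr (Or.inr ⟨?_, h3, h4⟩))))
    rw [h1] at hxt
    exact (mem_lowPart.mp hxt).2

end Pool.Agent.GaussPoset.W7
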