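import Pool.Agent.W_448w7_h94.WiB
import Pool.Agent.W_448cc7_h94.CsB

/-!
Twins, the truncated data, the boundary elements of level at least 16 (MP_448cb3_co, S7,
`j = 14`, window 7; after `FxC`).
-/

namespace Pool.Agent.GaussPoset.W7

set_option linter.unusedSectionVars false

open Polynomial Finset Fi Cl

universe u

variable {P : Type u} [Fintype P] [PartialOrder P] [DecidableEq P] {r n0 : ℕ}
  {N : Tops P → Finset P} {b : Tops P → ℕ} {θ : Tops P → P → ℕ}

lemma kapR_77 : Fi.KapR 7 7 52 := by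
  unfold Fi.KapR
  decide +kernel

lemma kapS_77 : Fi.KapS 7 7 52 := by
  unfold Fi.KapS
  decide +kernel

/-- natural elements of level at least 15 -/
theorem WL.kap (W : WL r n0 N b θ) {x : P} (hx : x ∉ unnat N) (hl : 2 * 7 + 1 ≤ lev x) :
    Fi.Full 7 7 N θ x ∨ 52 ≤ ct 7 (θ (topOf x) x + 1) x + (θ (topOf x) x + 1) ∨
      Ot N θ x ∨ Lx n0 N θ x := by
  rcases W.cases hx with h | ⟨Nc, co, h⟩ | ⟨Nc, co, h⟩ | h | h | h
  · exact Or.inl h
  · right; left
    refine Fi.kap_chart kapR_77 (by omega) h.rect.chart h.mem h.fst h.snd hl ?_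
    rw [h.th]
  · right; left
    refine Fi.kap_chartS kapS_77 (by omega) h.stair.chart h.mem h.fst hl ?_
    rw [h.th]
  · exact Or.inr (Or.inr (Or.inl h))
  · exact Or.inr (Or.inr (Or.inr h))
  · have := h.lev
    omega

/-- the four masks -/
def ms4 : List ℕ := [67108864, 201326592, 402653184, 805306368]

lemma LaT.msk {e : ℕ → ℕ → P} {t : P} {A : Finset P} {θ : P → ℕ} (L : LaT n0 e t A θ) {x : P}
    (hx : x ∈ A) : ∃ m ∈ ms4, Sg.Mk e x m := by
  rcases L.typ x hx with h | h | h | h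
  · exact ⟨_, by decide, h⟩
  · exact ⟨_, by decide, h⟩
  · exact ⟨_, by decide, h⟩
  · exact ⟨_, by decide, h⟩

/-- no twins of the elements of level 15 of the strips `La7` -/
lemma Lx.tw (W : WL r n0 N b θ) {x z : P} (h : Lx n0 N θ x) (hl : lev x = 15)
    (hz : z ∈ unnat N) : ¬ ∀ w, x < w ↔ z < w := by
  intro hup
  obtain ⟨lo, hi, e, A, L⟩ := h.ex
  have hx := h.mem
  rw [L.nat, mem_union, mem_lowPart] at hx
  have hxA : x ∈ A := by
    rcases hx with hx | hx
    · omega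
    · exact hx
  have hlz : lev z = 15 := by rw [← lev_eq_of_up hup]; exact hl
  have hcov : ∀ y, x ⋖ y ↔ z ⋖ y := fun y => cov_of_up hup
  obtain ⟨m, hm, hmk⟩ := L.dat.msk hxA
  rcases L.dat.full z hlz (fun y hy => by
    have := ((L.cov hxA).2 y ((hcov y).mpr hy)).1
    exact (mem_lowPart.mp this).1) with h1 | h1
  · refine mem_unnat.mp hz (topOf x) ?_
    rw [L.nat]
    exact mem_union_right _ h1
  · have hcod := Sg.La7_cod L.word L.comp W.gt.H W.gt.good (topOf x).2
    have e1 : z ⋖ Sg.ce e 25 := (h1.2 _).mpr ⟨25, by norm_num, by decide +kernel, rfl⟩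
    have e2 := (hcov _).mpr e1
    obtain ⟨b, hb, hbit, hbe⟩ := (hmk.2 _).mp e2
    have e3 : b = 25 := hcod.inj b hb 25 (by norm_num) hbe
    have key : ∀ m ∈ ms4, Nat.testBit m 25 = false := by decide +kernel
    rw [e3, key m hm] at hbit
    exact absurd hbit (by simp)

theorem WL.twSys (W : WL r n0 N b θ) : TwSys (unnat N) (twY (2 * 7) N) topOf (twT N) :=
  twSys_of W.gt.H W.natSys

lemma WL.tw_inner (W : WL r n0 N b θ) {x : P} (hx : x ∈ twY (2 * 7) N) :
    (∃ Nc co, InR 7 7 N b θ (twT N x) Nc co) ∨ ∃ Nc co, InS 7 7 N b θ (twT N x) Nc co := by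
  have h1 := mem_twY.mp hx
  have h3 := twT_spec h1.2.2
  have h5 := W.twSys.lev hx
  have hl : lev (twT N x) = 15 := by rw [h5]; exact h1.2.1
  rcases W.cases h3.1 with h | h | h | h | h | h
  · exact absurd h3.2 (h.tw x h1.1)
  · exact Or.inl h
  · exact Or.inr h
  · exact absurd h3.2 (h.oth.h10 x h1.1 _ h.mem hl)
  · exact absurd h3.2 (h.tw W hl h1.1)
  · have := h.lev
    omega

lemma WL.tw_kap (W : WL r n0 N b θ) {x : P} (hx : x ∈ twY (2 * 7) N) :
    52 ≤ ct 7 (θ (topOf (twT N x)) (twT N x) + 1) (twT N x) +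
      (θ (topOf (twT N x)) (twT N x) + 1) := by
  have h1 := mem_twY.mp hx
  have h3 := twT_spec h1.2.2
  have h5 := W.twSys.lev hx
  have hl : lev (twT N x) = 15 := by rw [h5]; exact h1.2.1
  rcases W.kap h3.1 (by omega) with h | h | h | h
  · exact absurd h3.2 (h.tw x h1.1)
  · exact h
  · exact absurd h3.2 (h.oth.h10 x h1.1 _ h.mem hl)
  · exact absurd h3.2 (h.tw W hl h1.1)

lemma WL.tw_th (W : WL r n0 N b θ) {x : P} (hx : x ∈ twY (2 * 7) N) :
    1 ≤ θ (topOf (twT N x)) (twT N x) ∧ θ (topOf (twT N x)) (twT N x) ≤ 2 * 7 - 7 := by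
  have h1 := mem_twY.mp hx
  have h5 := W.twSys.lev hx
  rcases W.tw_inner hx with ⟨Nc, co, h⟩ | ⟨Nc, co, h⟩
  · have h6 := h.rect.chart.lev _ h.mem
    have h7 := h.fst
    have h8 := h.snd
    have h9 := h.th
    omega
  · have h6 := h.stair.chart.lev _ h.mem
    have h7 := h.fst
    have h8 : (co (twT N x)).1 ≤ (co (twT N x)).2 := h.stair.chart.mem _ h.mem
    have h9 := h.th
    omega

/-- the twins are harmless below the energy 51 -/
theorem WL.twinPair51 (W : WL r n0 N b θ) {x : P} (hx : x ∈ twY (2 * 7) N) :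
    TwinPair 7 (thX (twY (2 * 7) N) (twT N) (fun x => θ (topOf x) x)) 51 (twT N x) x := by
  classical
  have T := W.twSys
  have h1 := mem_twY.mp hx
  have hlev : lev (twT N x) = 2 * 7 + 1 := by rw [T.lev hx]; exact h1.2.1
  have hnY : twT N x ∉ twY (2 * 7) N := fun h => T.nat x hx (mem_twY.mp h).1
  obtain ⟨h3, h4⟩ := W.tw_th hx
  have h5 := W.tw_kap hx
  have hth : thX (twY (2 * 7) N) (twT N) (fun x => θ (topOf x) x) (twT N x) =
      θ (topOf (twT N x)) (twT N x) := thX_not hnY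
  have hth' : thX (twY (2 * 7) N) (twT N) (fun x => θ (topOf x) x) x =
      θ (topOf (twT N x)) (twT N x) := thX_of hx
  refine ⟨?_, T.up x hx, ?_, ?_, ?_, ?_, ?_⟩
  · intro h
    exact T.nat x hx (h.symm ▸ h1.1)
  · rw [hth]; exact h3
  · rw [hth, hth']
  · rw [hth, hlev]; omega
  · rw [hth]
    have h6 : ct 7 (θ (topOf (twT N x)) (twT N x) + 1) (twT N x) ≤
        ∑ y, (if twT N x ≤ y then lev y - 7 else 0) := by
      rw [ct_eq_sum]
      refine Finset.sum_le_sum fun y _ => ?_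
      split_ifs
      · exact Nat.min_le_right _ _
      · exact le_rfl
    omega
  · rw [hth]
    have h6 := ct_succ 7 (θ (topOf (twT N x)) (twT N x) + 1) (twT N x)
    rw [hlev, Nat.min_eq_left (by omega)] at h6
    omega

theorem WL.twinPair (W : WL r n0 N b θ) {x : P} (hx : x ∈ twY (2 * 7) N) :
    TwinPair 7 (thX (twY (2 * 7) N) (twT N) (fun x => θ (topOf x) x)) n0 (twT N x) x :=
  ⟨(W.twinPair51 hx).ne, (W.twinPair51 hx).up, (W.twinPair51 hx).one_le, (W.twinPair51 hx).eq,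
    (W.twinPair51 hx).le, W.hn0.trans (W.twinPair51 hx).costF, W.hn0.trans (W.twinPair51 hx).costT⟩

/-- the data of all tops -/
lemma WL.compL (W : WL r n0 N b θ) : ∃ B : Tops P → P → Prop, ∀ t,
    Dd.CompDataL (unnat N) topOf t 7 (b t) n0 (fun x => θ (topOf x) x)
      (fun x => x ∉ unnat N ∧ B (topOf x) x) := by
  have h : ∀ t, ∃ Bt : P → Prop, NatTop 7 t (b t) (N t) (θ t) Bt ∨
      Sg.LocL 7 (b t) n0 (N t) (θ t) Bt := by
    intro t
    rcases W.natTop t with ⟨B, h⟩ | ⟨⟨B, h⟩, -⟩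
    · exact ⟨B, Or.inl h⟩
    · exact ⟨B, Or.inr h⟩
  choose B hB using h
  refine ⟨B, fun t => ?_⟩
  rcases hB t with h | h
  · exact F6.compL_of_natTop h W.natSys _ fun _ _ => Iff.rfl
  · exact F6.compL_of_locL h W.natSys fun _ _ => Iff.rfl

/-- truncated data at window 7 -/
theorem WL.farT (W : WL r n0 N b θ) : FarT P 7 (r2 (2 * 7) N) (lv P 7).card
    (h2 (2 * 7) N θ) n0 := by
  obtain ⟨B, hB⟩ := W.compL
  have h := F6.farT_of_topsL W.gt.H.gradedBelow W.natSys (fun x hx => by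
    have := W.lt_lev hx
    omega) hB W.twSys (fun x hx => W.twinPair hx)
  rw [W.sum_b] at h
  exact h

/-- the anchors: the elements of level 15 below `y3, y4` -/
def Ank (n0 : ℕ) (N : Tops P → Finset P) (θ : Tops P → P → ℕ) (c : P) : Prop :=
  ∃ lo hi e A, LaD n0 N (θ (topOf c)) (topOf c) lo hi e A ∧ c ∈ A ∧ Sg.Mk e c 805306368

end Pool.Agent.GaussPoset.W7
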