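import Pool.Agent.W_448w7_h94.WiC

/-!
The elements of level at least 16 at the boundary; fold ends (MP_448cb3_co, S7, `j = 14`,
window 7; after `FxC`, `FxD`).
-/

namespace Pool.Agent.GaussPoset.W7

set_option linter.unusedSectionVars false

open Polynomial Finset Fi Cl

universe u

variable {P : Type u} [Fintype P] [PartialOrder P] [DecidableEq P] {r n0 : ℕ}
  {N : Tops P → Finset P} {b : Tops P → ℕ} {θ : Tops P → P → ℕ}

/-- the costs below the elements of level 15 -/
lemma cost_chk : ∀ p ∈ [(67108864, 5), (201326592, 4), (402653184, 3)], 51 ≤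
    min p.2 9 + (min p.2 8 +
      ∑ b ∈ (range 30).filter (fun b => (orM (fun a => La7um.getD a 0) 30 p.1).testBit b = true),
        min p.2 (La7lv.getD b 0 - 7)) := by decide +kernel

/-- the elements below the other elements of level 15 cost at least 51 -/
lemma LaD.cost (W : WL r n0 N b θ) {t : Tops P} {lo hi : ℕ → ℕ} {e : ℕ → ℕ → P} {A : Finset P}
    (L : LaD n0 N (θ t) t lo hi e A) {x z : P} (hx : x ∈ A) (hzx : z ⋖ x) :
    51 ≤ ct 7 (θ t x + 1) z ∨ Sg.Mk e x 805306368 := by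
  have key : ∀ p ∈ [((67108864 : ℕ), (5 : ℕ)), (201326592, 4), (402653184, 3)], Sg.Mk e x p.1 →
      51 ≤ ct 7 p.2 z := by
    intro p hp hmk
    have h3 := cost_chk p hp
    have h4 := Sg.La7_ct L.word L.comp W.gt t.2 hmk.1 hmk.2 p.2
    rw [← h4] at h3
    have hlz := (W.gt.H.covBy_iff.mp hzx).2
    have h5 := ct_cov (i := 7) (k := p.2) hzx.1
    rw [hlz, hmk.1] at h5
    exact h3.trans (le_trans (by norm_num) h5)
  rcases L.dat.typ x hx with h | h | h | h
  · left
    rw [L.dat.th.p1 x hx h]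
    exact key (67108864, 5) (by simp) h
  · left
    rw [L.dat.th.c12 x hx h]
    exact key (201326592, 4) (by simp) h
  · left
    rw [L.dat.th.c23 x hx h]
    exact key (402653184, 3) (by simp) h
  · exact Or.inr h

lemma LaD.mem15 {t : Tops P} {lo hi : ℕ → ℕ} {e : ℕ → ℕ → P} {A : Finset P} {θ : P → ℕ}
    (L : LaD n0 N θ t lo hi e A) {x : P} (hx : x ∈ N t) (hl : 15 ≤ lev x) : x ∈ A ∧ lev x = 15 := by
  rw [L.nat, mem_union, mem_lowPart] at hx
  rcases hx with hx | hx
  · omega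
  · exact ⟨hx, (L.cov hx).1⟩

/-- the boundary: level 15, large cost, or an element below an anchor -/
theorem WL.bd (W : WL r n0 N b θ) {z : P} (hz : z ∈ bdR (r2 (2 * 7) N)) :
    lev z = 2 * 7 + 1 ∨ 51 ≤ cst 7 (h2 (2 * 7) N θ) z ∨
      (lev z = 16 ∧ h2 (2 * 7) N θ z = 2 ∧ ∃ c, Ank n0 N θ c ∧ z ⋖ c) := by
  classical
  have H := W.gt.H
  have T := W.twSys
  have hzR : z ∈ unnat N := (mem_sdiff.mp (mem_filter.mp hz).1).1
  have hlz := W.lt_lev hzR
  by_cases hl : lev z = 2 * 7 + 1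
  · exact Or.inl hl
  right
  obtain ⟨u, hu, hzu, hh⟩ := hcan_spec
    (θ := thX (twY (2 * 7) N) (twT N) (fun x => θ (topOf x) x)) hz
  have hlu := (H.covBy_iff.mp hzu).2
  have hc : ∀ k, h2 (2 * 7) N θ z = k → cst 7 (h2 (2 * 7) N θ) z = ct 7 k z := by
    intro k hk
    unfold ct cst ez
    rw [hk]
  have key : ∀ (u' : P) (k : ℕ), ct 7 k u = ct 7 k u' → 52 ≤ ct 7 k u' + k → k ≤ lev z - 7 →
      h2 (2 * 7) N θ z = k → 51 ≤ cst 7 (h2 (2 * 7) N θ) z := by
    intro u' k h3 h4 h5 h6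
    have h7 := ct_cov (i := 7) (k := k) hzu.1
    rw [Nat.min_eq_left h5] at h7
    rw [hc k h6]
    omega
  by_cases huY : u ∈ twY (2 * 7) N
  · left
    rw [thX_of huY] at hh
    have h3 := W.tw_th huY
    exact key (twT N u) _ (ct_congr_up fun w => (T.up u huY w).symm) (W.tw_kap huY) (by omega) hh
  · have huR : u ∉ unnat N := fun h => hu (mem_sdiff.mpr ⟨h, huY⟩)
    rw [thX_not huY] at hh
    rcases W.kap huR (by omega) with hF | hI | hO | hO
    · left
      rw [hF.th] at hh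
      have h3 := sq_le_cst (i := 7) (h := h2 (2 * 7) N θ) (z := z) (by omega)
        (by show h2 (2 * 7) N θ z = _; rw [show h2 (2 * 7) N θ z = _ from hh]; omega) (by
          intro k hk hk2
          exact hF.two z hzR hzu.le k (by omega) (by omega))
      have h4 : 9 ^ 2 ≤ (lev z - 7) ^ 2 := Nat.pow_le_pow_left (by omega) 2
      omega
    · left
      have h5 := W.farT.le_lev z hz
      exact key u _ rfl hI (by rw [show h2 (2 * 7) N θ z = _ from hh] at h5; exact h5) hh
    · left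
      rw [hc _ hh]
      exact hO.oth.h9 z hzR u hO.mem (by omega) hzu
    · obtain ⟨lo, hi, e, A, L⟩ := hO.ex
      obtain ⟨huA, hu15⟩ := L.mem15 hO.mem (by omega)
      rcases L.cost W huA hzu with h3 | h3
      · left
        rw [hc _ hh]
        exact h3
      · right
        have h4 := L.dat.th.c34 u huA h3
        refine ⟨by omega, ?_, u, ⟨lo, hi, e, A, L, huA, h3⟩, hzu⟩
        show hcan _ _ z = 2
        rw [hh, h4]

/-- the number of the elements of level 2 above a strip `La7` -/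
lemma LaD.cn2 {t : Tops P} {lo hi : ℕ → ℕ} {e : ℕ → ℕ → P} {A : Finset P} {θ : P → ℕ}
    (L : LaD n0 N θ t lo hi e A) : cn 2 (t : P) ≤ 1 := by
  have h0 : cn 2 (t : P) = hi 2 + 1 - lo 2 := by
    classical
    unfold cn
    exact L.comp.card_row (by omega)
  rw [h0]
  have := L.word.trunk 2 (by omega)
  omega

lemma WL.nab_le_cn (W : WL r n0 N b θ) {v : P} (hl : lev v ≤ 2 * 7) (l : ℕ) :
    nab l v ≤ cn l (topOf v : P) := by
  classical
  unfold nab cn
  refine Finset.card_le_card fun x hx => ?_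
  rw [mem_filter] at hx ⊢
  refine ⟨hx.1, ?_⟩
  rw [W.natSys.cp v x hx.2 (W.low hl)]
  exact le_topOf x

theorem WL.fold_typ (W : WL r n0 N b θ) {x : P} (hx : Fd 7 x) :
    ∃ Nc co, Fi.FI 7 7 N b θ x Nc co := by
  have H := W.gt.H
  obtain ⟨hl, hu, h2⟩ := hx
  have hc := W.nab_le_cn hl.le 2
  have hxl : x ∈ lowPart (2 * 7) (topOf x : P) := mem_lowPart.mpr ⟨le_topOf x, hl.le⟩
  rcases W.tc (topOf x) with ⟨g1, g2, g3, g5, g6, g8, g9⟩ | ⟨Nc, co, g0, g1, g2, g3⟩ |
    ⟨Nc, co, g0, g1, g2, g3, g4⟩ | ⟨g, hb⟩ | ⟨lo, hi, e, A, g, hb⟩ | ⟨g1, g2, g3, g4⟩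
  · omega
  · exfalso
    have hxN := g0.strip hxl
    have hcl := g0.chart.lev x hxN
    have h0 : (co x).1 = 0 ∨ (co x).2 = 0 := by
      by_contra hcon
      have := chart_inner_uc g0.chart H hxN (by omega) (by omega)
      omega
    rw [nab_chart g0.chart hxN] at h2
    have := card_cellsAt_true (l := 2) (p := co x) (by omega)
    omega
  · have hxN := g0.strip hxl
    have hcl := g0.chart.lev x hxN
    have hS : (co x).1 ≤ (co x).2 := g0.chart.mem x hxN
    have h5 : (co x).1 ≠ 0 := by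
      intro h5
      rw [nab_chart g0.chart hxN] at h2
      have := card_cellsAt_shift (l := 2) (p := co x) hS (by omega)
      omega
    have h6 : (co x).1 = (co x).2 := by
      by_contra hcon
      have := chartS_inner_uc g0.chart H hxN (by omega) (by omega)
      omega
    exact ⟨Nc, co, g0, g1, g2, g3, hxN, Prod.ext (by simp only; omega) (by simp only; omega), g4⟩
  · have := g.h8
    omega
  · have := g.cn2
    omega
  · omega

lemma WL.fold_th (W : WL r n0 N b θ) {x : P} (hx : Fd 7 x) :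
    θ (topOf x) x = 1 := by
  obtain ⟨Nc, co, h⟩ := W.fold_typ hx
  rw [h.th]
  unfold thS
  rw [if_neg (fold_not_junk h.stair.chart h.mem (by rw [h.cell]; show 1 ≤ 7; omega)), h.cell]
  norm_num

lemma WL.fold_prof (W : WL r n0 N b θ) {x : P} (hx : Fd 7 x) : Prof 7 x (pF 7) := by
  obtain ⟨Nc, co, h⟩ := W.fold_typ hx
  intro d hd
  rw [nab_chart h.stair.chart h.mem, h.cell]
  have := card_cellsAt_shift (l := 2 * 7 - d) (p := (7, 7)) le_rfl (by simp only; omega)
  simp only at this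
  unfold pF
  omega

/-- one fold end per top -/
lemma WL.fold_unique (W : WL r n0 N b θ) {x x' : P} (hx : Fd 7 x) (hx' : Fd 7 x')
    (ht : topOf x = topOf x') : x = x' := by
  have H := W.gt.H
  obtain ⟨Nc, co, h⟩ := W.fold_typ hx
  have h2 : x' ∈ Nc := h.stair.strip (mem_lowPart.mpr ⟨by rw [ht]; exact le_topOf x', hx'.1.le⟩)
  have h3 := h.stair.chart.lev x' h2
  have hS : (co x').1 ≤ (co x').2 := h.stair.chart.mem x' h2
  have h5 : (co x').1 ≠ 0 := by
    intro h5
    have h6 := hx'.2.2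
    rw [nab_chart h.stair.chart h2] at h6
    have := card_cellsAt_shift (l := 2) (p := co x') hS (by have := hx'.1; omega)
    omega
  have h6 : (co x').1 = (co x').2 := by
    by_contra hcon
    have := chartS_inner_uc h.stair.chart H h2 (by omega) (by omega)
    have := hx'.2.1
    omega
  have h7 := hx'.1
  refine h.stair.chart.inj x h.mem x' h2 ?_
  rw [h.cell]
  exact Prod.ext (by simp only; omega) (by simp only; omega)

/-- natural elements below a fold end -/
lemma WL.nat_child (W : WL r n0 N b θ) {f : P} {Nc : Finset P} {co : P → ℕ × ℕ}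
    (T : Fi.FI 7 7 N b θ f Nc co) {y : P} (hy : y ∉ unnat N) (hyf : y ⋖ f) :
    ∃ x' ∈ Nc, co x' = (6, 8) ∧ y ⋖ x' := by
  have H := W.gt.H
  have HN := W.natSys
  have h1 : y ∈ N (topOf y) := HN.mem_iff.mpr ⟨hy, rfl⟩
  rw [HN.cp y f hyf.1.le hy, T.nat, mem_natS] at h1
  have hyN : y ∈ Nc := by
    rcases h1 with h | h
    · exact h
    · exfalso
      obtain ⟨x1, hE, hj⟩ := mem_junk.mp h
      have hj2 := (mem_jset.mp hj).2
      have e3 := hE.lt f T.mem (by rw [T.cell]; show 1 ≤ 7; omega)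
      rw [T.cell] at e3
      simp only at e3
      rcases hj2 f hyf.1.le with h3 | h3
      · have e1 := (T.stair.chart.le_iff f T.mem x1 hE.mem).mp h3
        rw [T.cell] at e1
        have e2 := e1.2
        simp only at e2
        omega
      · have e1 := (T.stair.chart.le_iff x1 hE.mem f T.mem).mp h3
        rw [T.cell] at e1
        have e2 := e1.1
        have h0 := hE.fst
        simp only at e2
        omega
  have hS : (co y).1 ≤ (co y).2 := T.stair.chart.mem y hyN
  have hp := (chart_cov T.stair.chart H hyN T.mem).mp hyf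
  rw [T.cell] at hp
  have hcy : co y = (7, 8) := by
    rcases hp with ⟨p1, p2⟩ | ⟨p1, p2⟩
    · simp only at p1 p2
      omega
    · simp only at p1 p2
      exact Prod.ext (by simp only; omega) (by simp only; omega)
  obtain ⟨x', hx', hcx'⟩ := T.stair.chart.low y hyN (6, 8) (by
    rw [hcy]
    exact ⟨by norm_num, le_rfl⟩) (show 6 ≤ 8 by omega)
  refine ⟨x', hx', hcx', ?_⟩
  rw [chart_cov T.stair.chart H hyN hx', hcx', hcy]
  exact Or.inl ⟨rfl, rfl⟩

/-- natural elements and twins below a fold end -/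
theorem WL.fold_child (W : WL r n0 N b θ) {z f : P} (hf : Fd 7 f) (hzf : z ⋖ f)
    (hz : z ∉ r2 (2 * 7) N) : ∃ Nc co x', Fi.FI 7 7 N b θ f Nc co ∧ x' ∈ Nc ∧
      co x' = (6, 8) ∧ z ⋖ x' := by
  obtain ⟨Nc, co, T⟩ := W.fold_typ hf
  by_cases hY : z ∈ twY (2 * 7) N
  · obtain ⟨x', h2, h3, h4⟩ := W.nat_child T (W.twSys.nat z hY) ((W.twSys.cov hY).mpr hzf)
    exact ⟨Nc, co, x', T, h2, h3, (W.twSys.cov hY).mp h4⟩
  · obtain ⟨x', h2, h3, h4⟩ := W.nat_child T (fun h => hz (mem_sdiff.mpr ⟨h, hY⟩)) hzf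
    exact ⟨Nc, co, x', T, h2, h3, h4⟩

/-- pendants below a fold end are in `r2` -/
theorem WL.pend_r2 (W : WL r n0 N b θ) {z f : P} (hf : Fd 7 f) (hp : Pend z f) :
    z ∈ r2 (2 * 7) N := by
  by_contra hz
  obtain ⟨Nc, co, x', T, h1, h2, h3⟩ := W.fold_child hf hp.1 hz
  have h5 := hp.2 x' h3
  rw [h5, T.cell] at h2
  simp only [Prod.mk.injEq] at h2
  omega

/-- joins below different tops are in `r2` -/
theorem WL.join_r2 (W : WL r n0 N b θ) {z x x' : P} (ht : topOf x ≠ topOf x') (hzx : z ⋖ x)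
    (hzx' : z ⋖ x') : z ∈ r2 (2 * 7) N := by
  have HN := W.natSys
  refine mem_sdiff.mpr ⟨?_, fun hY => ?_⟩
  · by_contra h
    exact ht ((HN.cp z x hzx.1.le h).symm.trans (HN.cp z x' hzx'.1.le h))
  · have h := W.twSys.nat z hY
    exact ht ((HN.cp _ x ((W.twSys.cov hY).mpr hzx).1.le h).symm.trans
      (HN.cp _ x' ((W.twSys.cov hY).mpr hzx').1.le h))

/-- joins of a fold end with a single-up end of the same component are in `r2` -/
theorem WL.cc_r2 (W : WL r n0 N b θ) {z f x' : P} (hf : Fd 7 f) (hu : (Win.uc x').card = 1)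
    (hne : f ≠ x') (hzx : z ⋖ f) (hzx' : z ⋖ x') : z ∈ r2 (2 * 7) N := by
  have H := W.gt.H
  by_contra hz
  obtain ⟨Nc, co, y, T, h1, h2, h3⟩ := W.fold_child hf hzx hz
  have hyf : y ≠ f := by
    rintro rfl
    rw [T.cell] at h2
    simp only [Prod.mk.injEq] at h2
    omega
  have hyx : y = x' := (uc_pair H hzx hzx' hne h3).resolve_left hyf
  subst hyx
  have := chartS_inner_uc T.stair.chart H h1 (by rw [h2]; show 1 ≤ 6; omega)
    (by rw [h2]; show 6 < 8; omega)
  omega

end Pool.Agent.GaussPoset.W7
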