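import Pool.Agent.W_448w7_h94.WiD

/-!
The elements of level 14, two neighbours, labels (MP_448cb3_co, S7, `j = 14`, window 7; after
`FxE`).
-/

namespace Pool.Agent.GaussPoset.W7

set_option linter.unusedSectionVars false

open Polynomial Finset Fi Cl

universe u

variable {P : Type u} [Fintype P] [PartialOrder P] [DecidableEq P] {r n0 : ℕ}
  {N : Tops P → Finset P} {b : Tops P → ℕ} {θ : Tops P → P → ℕ}

/-- the kinds of elements of level `2 m` -/
theorem WL.kind (W : WL r n0 N b θ) {x : P} (hl : lev x = 2 * 7) :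
    Fi.Full 7 7 N θ x ∨ Fd 7 x ∨ Ot N θ x ∨ ((Win.uc x).card = 2 ∧ NopT 7 (topOf x)) ∨
      Lx n0 N θ x ∨ Bx x := by
  have H := W.gt.H
  have hlow := W.low hl.le
  have hxt : x ∈ N (topOf x) := W.natSys.mem_iff.mpr ⟨hlow, rfl⟩
  rcases W.tc (topOf x) with ⟨g1, g2, g3, g5, g6, g8, g9⟩ | ⟨Nc, co, g0, g1, g2, g3⟩ |
    ⟨Nc, co, g0, g1, g2, g3, g4⟩ | ⟨g, hb⟩ | ⟨lo, hi, e, A, g, hb⟩ | ⟨g1, g2, g3, g4⟩
  · exact Or.inl (W.light_case hlow g1 g2)
  · rcases W.rect_case hlow g0 g1 g2 g3 with h | ⟨Nc', co', h⟩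
    · exact Or.inl h
    · exact Or.inr (Or.inr (Or.inr (Or.inl ⟨chart_inner_uc h.rect.chart H h.mem h.fst h.snd,
        h.nop⟩)))
  · rcases W.stair_case hlow g0 g1 g2 g3 g4 with h | ⟨Nc', co', h⟩
    · exact Or.inl h
    · have h1 := h.stair.chart.lev x h.mem
      have h2 : (co' x).1 ≤ (co' x).2 := h.stair.chart.mem x h.mem
      have h0 := h.fst
      by_cases h3 : (co' x).1 = (co' x).2
      · refine Or.inr (Or.inl ⟨hl, ?_, ?_⟩)
        · rw [Wd.uc_card_nab H (by omega), nab_chart h.stair.chart h.mem]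
          have := card_cellsAt_shift (l := lev x - 1) (p := co' x) h2 (by omega)
          omega
        · rw [nab_chart h.stair.chart h.mem]
          have := card_cellsAt_shift (l := 2) (p := co' x) h2 (by omega)
          omega
      · exact Or.inr (Or.inr (Or.inr (Or.inl ⟨chartS_inner_uc h.stair.chart H h.mem h.fst
          (by omega), h.nop⟩)))
  · exact Or.inr (Or.inr (Or.inl ⟨hxt, g⟩))
  · exact Or.inr (Or.inr (Or.inr (Or.inr (Or.inl ⟨hxt, lo, hi, e, A, g⟩))))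
  · exact Or.inr (Or.inr (Or.inr (Or.inr (Or.inr ⟨hl.le, g3, g4⟩))))

/-- two neighbours of the level `2 m`: the element is natural or a twin -/
theorem WL.near (W : WL r n0 N b θ) {z x x' : P} (hz : z ∈ r2 (2 * 7) N)
    (hl : lev z = 2 * 7 + 1) (hzx : z ⋖ x) (hzx' : z ⋖ x') (hne : x ≠ x')
    (h1 : ucv x x' = 1) : False := by
  classical
  have H := W.gt.H
  have HN := W.natSys
  have hlx : lev x = 2 * 7 := by
    have := (H.covBy_iff.mp hzx).2
    omega
  have hlx' : lev x' = 2 * 7 := by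
    have := (H.covBy_iff.mp hzx').2
    omega
  rw [mem_sdiff] at hz
  have hzU := hz.1
  obtain ⟨p, hp⟩ := Finset.card_eq_one.mp h1
  have hp2 : x ⋖ p ∧ x' ⋖ p := by
    have : p ∈ (univ.filter (fun y : P => x ⋖ y ∧ x' ⋖ y)) := by rw [hp]; simp
    simpa using this
  have hxt : topOf x = topOf p := HN.cp x p hp2.1.le (W.low hlx.le)
  have hxt' : topOf x' = topOf p := HN.cp x' p hp2.2.le (W.low hlx'.le)
  have hxle : x ≤ (topOf p : P) := by rw [← hxt]; exact le_topOf x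
  have hxle' : x' ≤ (topOf p : P) := by rw [← hxt']; exact le_topOf x'
  have hxN : x ∈ N (topOf p) := HN.mem_iff.mpr ⟨W.low hlx.le, hxt⟩
  have hxN' : x' ∈ N (topOf p) := HN.mem_iff.mpr ⟨W.low hlx'.le, hxt'⟩
  have twin : ∀ y : P, y ∉ unnat N → y ⋖ x → y ⋖ x' → False := fun y hy hyx hyx' =>
    hz.2 (mem_twY.mpr ⟨hzU, hl, y, hy, up_of_pair H hzx hzx' hyx hyx' hne⟩)
  rcases W.tc (topOf p) with ⟨g1, g2, g3, g5, g6, g8, g9⟩ | ⟨Nc, co, g0, g1, g2, g3⟩ |
    ⟨Nc, co, g0, g1, g2, g3, g4⟩ | ⟨g, hb⟩ | ⟨lo, hi, e, A, g, hb⟩ | ⟨g1, g2, g3, g4⟩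
  · refine mem_unnat.mp hzU (topOf p) ?_
    rw [g1, mem_onlyB]
    intro s hs hzs
    have hne2 : z ≠ s := by rintro rfl; omega
    obtain ⟨v, hv, hvs⟩ := Hul.exists_cov (lt_of_le_of_ne hzs hne2)
    rcases uc_pair H hzx hzx' hne hv with h | h
    · rw [h] at hvs
      exact HN.top_eq hxN hs hvs
    · rw [h] at hvs
      exact HN.top_eq hxN' hs hvs
  · have hx : x ∈ Nc := g0.strip (mem_lowPart.mpr ⟨hxle, hlx.le⟩)
    have hx' : x' ∈ Nc := g0.strip (mem_lowPart.mpr ⟨hxle', hlx'.le⟩)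
    have hpN := g0.chart.up x hx p hp2.1.le
    have e1 := (chart_cov g0.chart H hx hpN).mp hp2.1
    have e2 := (chart_cov g0.chart H hx' hpN).mp hp2.2
    have hcne : co x ≠ co x' := fun h => hne (g0.chart.inj x hx x' hx' h)
    have hzN : z ∉ Nc := fun h => mem_unnat.mp hzU (topOf p) (by
      rw [g1]
      exact mem_natR.mpr (Or.inl h))
    have key : ∀ x x' : P, x ∈ Nc → x' ∈ Nc → z ⋖ x → z ⋖ x' →
        co x = ((co p).1 + 1, (co p).2) → co x' = ((co p).1, (co p).2 + 1) →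
        ∃ y, y ∉ unnat N ∧ y ⋖ x ∧ y ⋖ x' := by
      intro x x' hx hx' hzx hzx' hcx hcx'
      obtain ⟨y, hy, -, hyx, hyx', hyz⟩ := max_pair g0.chart g0.max H hzN hx hx' hzx hzx' hcx
        hcx' trivial
      refine ⟨y, (HN.mem_iff (t := topOf p).mp ?_).1, hyx, hyx'⟩
      rw [g1]
      exact mem_natR.mpr (Or.inl hy)
    rcases e1 with e1 | e1
    · rcases e2 with e2 | e2
      · exact hcne (Prod.ext (by omega) (by omega))
      · obtain ⟨y, h3, h4, h5⟩ := key x x' hx hx' hzx hzx' (Prod.ext e1.1 e1.2)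
          (Prod.ext e2.1 e2.2)
        exact twin y h3 h4 h5
    · rcases e2 with e2 | e2
      · obtain ⟨y, h3, h4, h5⟩ := key x' x hx' hx hzx' hzx (Prod.ext e2.1 e2.2)
          (Prod.ext e1.1 e1.2)
        exact twin y h3 h5 h4
      · exact hcne (Prod.ext (by omega) (by omega))
  · have hx : x ∈ Nc := g0.strip (mem_lowPart.mpr ⟨hxle, hlx.le⟩)
    have hx' : x' ∈ Nc := g0.strip (mem_lowPart.mpr ⟨hxle', hlx'.le⟩)
    have hpN := g0.chart.up x hx p hp2.1.le
    have e1 := (chart_cov g0.chart H hx hpN).mp hp2.1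
    have e2 := (chart_cov g0.chart H hx' hpN).mp hp2.2
    have hcne : co x ≠ co x' := fun h => hne (g0.chart.inj x hx x' hx' h)
    have hzN : z ∉ Nc := fun h => mem_unnat.mp hzU (topOf p) (by
      rw [g1]
      exact mem_natS.mpr (Or.inl h))
    have hSx : (co x).1 ≤ (co x).2 := g0.chart.mem x hx
    have hSx' : (co x').1 ≤ (co x').2 := g0.chart.mem x' hx'
    have key : ∀ x x' : P, x ∈ Nc → x' ∈ Nc → z ⋖ x → z ⋖ x' → (co x).1 ≤ (co x).2 →
        co x = ((co p).1 + 1, (co p).2) → co x' = ((co p).1, (co p).2 + 1) →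
        ∃ y, y ∉ unnat N ∧ y ⋖ x ∧ y ⋖ x' := by
      intro x x' hx hx' hzx hzx' hS hcx hcx'
      obtain ⟨y, hy, -, hyx, hyx', hyz⟩ := max_pair g0.chart g0.max H hzN hx hx' hzx hzx' hcx
        hcx' (by
          rw [hcx] at hS
          simp only at hS ⊢
          omega)
      refine ⟨y, (HN.mem_iff (t := topOf p).mp ?_).1, hyx, hyx'⟩
      rw [g1]
      exact mem_natS.mpr (Or.inl hy)
    rcases e1 with e1 | e1
    · rcases e2 with e2 | e2
      · exact hcne (Prod.ext (by omega) (by omega))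
      · obtain ⟨y, h3, h4, h5⟩ := key x x' hx hx' hzx hzx' hSx (Prod.ext e1.1 e1.2)
          (Prod.ext e2.1 e2.2)
        exact twin y h3 h4 h5
    · rcases e2 with e2 | e2
      · obtain ⟨y, h3, h4, h5⟩ := key x' x hx' hx hzx' hzx hSx' (Prod.ext e2.1 e2.2)
          (Prod.ext e1.1 e1.2)
        exact twin y h3 h5 h4
      · exact hcne (Prod.ext (by omega) (by omega))
  · exact hne (g.h5 x x' hxle hxle' hlx hlx')
  · have hc : ∀ y, z ⋖ y → y ≤ (topOf p : P) := by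
      intro y hy
      rcases uc_pair H hzx hzx' hne hy with e | e
      · rw [e]; exact hxle
      · rw [e]; exact hxle'
    rcases g.dat.full z hl hc with h | h
    · refine mem_unnat.mp hzU (topOf p) ?_
      rw [g.nat]
      exact mem_union_right _ h
    · obtain ⟨b1, hb1, hbit1, e1⟩ := (h.2 x).mp hzx
      obtain ⟨b2, hb2, hbit2, e2⟩ := (h.2 x').mp hzx'
      have key : ∀ b < 30, Nat.testBit 33554432 b = true → b = 25 := by decide +kernel
      rw [key b1 hb1 hbit1] at e1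
      rw [key b2 hb2 hbit2] at e2
      exact hne (e1.symm.trans e2)
  · exact g3 z hl (hzx.1.le.trans hxle)

/-- the label of a boundary element of level `2 m + 1` -/
lemma WL.h2_eqI (W : WL r n0 N b θ) {z x : P} (hz : z ∈ r2 (2 * 7) N) (hl : lev z = 2 * 7 + 1)
    (hzx : z ⋖ x) (hmin : ∀ y, z ⋖ y → θ (topOf x) x ≤ θ (topOf y) y) :
    h2 (2 * 7) N θ z = θ (topOf x) x + 1 := by
  classical
  have H := W.gt.H
  have hlev : ∀ y, z ⋖ y → lev y = 2 * 7 := by
    intro y hy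
    have := (H.covBy_iff.mp hy).2
    omega
  have hnY : ∀ y, z ⋖ y → y ∉ twY (2 * 7) N := by
    intro y hy h
    have h1 := hlev y hy
    have h2 := (mem_twY.mp h).2.1
    omega
  have hnR : ∀ y, z ⋖ y → y ∉ r2 (2 * 7) N := fun y hy h =>
    W.low (hlev y hy).le (mem_sdiff.mp h).1
  have hbd : z ∈ bdR (r2 (2 * 7) N) := mem_filter.mpr ⟨hz, x, hnR x hzx, hzx⟩
  refine le_antisymm ?_ ?_
  · refine (hcan_le (θ := thX (twY (2 * 7) N) (twT N) (fun x => θ (topOf x) x)) (hnR x hzx)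
      hzx).trans ?_
    rw [thX_not (hnY x hzx)]
  · obtain ⟨y, hy, hzy, hh⟩ := hcan_spec
      (θ := thX (twY (2 * 7) N) (twT N) (fun x => θ (topOf x) x)) hbd
    rw [thX_not (hnY y hzy)] at hh
    have h3 := hmin y hzy
    show _ ≤ hcan _ _ z
    omega

lemma WL.mem_bd (W : WL r n0 N b θ) {z : P} (hz : z ∈ r2 (2 * 7) N) (hl : lev z = 2 * 7 + 1) :
    z ∈ bdR (r2 (2 * 7) N) := by
  classical
  have hzt : z < (topOf z : P) := lt_of_le_of_ne (le_topOf z) (by
    intro h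
    have := (topOf z).2
    rw [← h] at this
    omega)
  obtain ⟨x, hzx, -⟩ := Hul.exists_cov hzt
  refine mem_filter.mpr ⟨hz, x, fun h => ?_, hzx⟩
  have h1 := (W.gt.H.covBy_iff.mp hzx).2
  exact W.low (by omega) (mem_sdiff.mp h).1

/-- joins of natural elements of level `2 m` of different tops -/
lemma WL.nab_joinI (W : WL r n0 N b θ) {z x x' : P} (hl : lev z = 2 * 7 + 1) (hzx : z ⋖ x)
    (hzx' : z ⋖ x') (ht : topOf x ≠ topOf x') {l : ℕ} (hl2 : l ≤ 2 * 7) :
    nab l z = nab l x + nab l x' := by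
  have H := W.gt.H
  have HN := W.natSys
  have h1 := (H.covBy_iff.mp hzx).2
  have h2 := (H.covBy_iff.mp hzx').2
  exact nab_join_eq HN H (HN.mem_iff.mpr ⟨W.low (by omega), rfl⟩)
    (HN.mem_iff.mpr ⟨W.low (by omega), rfl⟩) ht hzx hzx' (by omega)

end Pool.Agent.GaussPoset.W7
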