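import Pool.Agent.W_448w7_h94.WiE
import Pool.Agent.W_448dd_h67.DdK

/-!
The table of the elements of level 15 (MP_448cb3_co, S7, `j = 14`, window 7; after `FxF`).
-/

namespace Pool.Agent.GaussPoset.W7

set_option linter.unusedSectionVars false

open Polynomial Finset Fi Cl Dd Wd

universe u

variable {P : Type u} [Fintype P] [PartialOrder P] [DecidableEq P] {r n0 : ℕ}
  {N : Tops P → Finset P} {b : Tops P → ℕ} {θ : Tops P → P → ℕ}

/-- what is known about the elements of level 15: no pendants below fold ends, nothing below both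
ends of a stair, the joins are joins of a fold end and an end `(5;25)` -/
structure JH (P : Type u) [Fintype P] [PartialOrder P] [DecidableEq P] : Prop where
  hP : ∀ z x : P, Fd 7 x → ¬ Pend z x
  hC : ∀ z x x' : P, Fd 7 x → (Win.uc x').card = 1 → topOf x' = topOf x → x ≠ x' →
    z ⋖ x → z ⋖ x' → False
  hJ : ∀ z x x' : P, lev z = 15 → z ⋖ x → z ⋖ x' → topOf x ≠ topOf x' →
    (Fd 7 x ∧ Prof 7 x' (gD p5)) ∨ (Fd 7 x' ∧ Prof 7 x (gD p5))

/-- the table -/
inductive Rw (n0 : ℕ) (N : Tops P → Finset P) (θ : Tops P → P → ℕ) (z : P) : Prop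
  | p0 (t : Tops P) (lo hi : ℕ → ℕ) (e : ℕ → ℕ → P) (A : Finset P)
      (L : LaD n0 N (θ t) t lo hi e A) (hm : Sg.Mk e z 33554432)
  | fb (x x' : P) (hx : Fd 7 x) (hx' : Prof 7 x' (gD p5)) (ht : topOf x ≠ topOf x')
      (hzx : z ⋖ x) (hzx' : z ⋖ x')
  | big (h : 51 ≤ cst 7 (h2 (2 * 7) N θ) z) (h' : ∀ k, 2 ≤ k → k ≤ 2 * 7 → 2 ≤ nab k z)

/-- the table of the elements of level 15 -/
theorem WL.rows (W : WL r n0 N b θ) (J : JH P) {z : P} (hz : z ∈ r2 (2 * 7) N)
    (hl : lev z = 2 * 7 + 1) : Rw n0 N θ z := by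
  classical
  have H := W.gt.H
  have hzU : z ∈ unnat N := (mem_sdiff.mp hz).1
  have hlev : ∀ y, z ⋖ y → lev y = 2 * 7 := by
    intro y hy
    have := (H.covBy_iff.mp hy).2
    omega
  have hzt : z < (topOf z : P) := lt_of_le_of_ne (le_topOf z) (by
    intro h
    have := (topOf z).2
    rw [← h] at this
    omega)
  obtain ⟨x, hzx, hxt⟩ := Hul.exists_cov hzt
  have hlx := hlev x hzx
  have full : (∀ y, z ⋖ y → Fi.Full 7 7 N θ y) → Rw n0 N θ z := by
    intro h
    refine Rw.big ?_ (fun k hk hk2 => (h x hzx).two z hzU hzx.le k hk (by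
      rw [hlev x hzx]; exact hk2))
    have h3 := W.h2_eqI hz hl hzx (fun y hy => by
      rw [(h x hzx).th, (h y hy).th, hlev x hzx, hlev y hy])
    rw [(h x hzx).th, hlev x hzx] at h3
    have h5 := sq_le_cst (i := 7) (h := h2 (2 * 7) N θ) (z := z) (by omega)
      (by rw [h3]; omega) (by
        intro k hk hk2
        exact (h x hzx).two z hzU hzx.le k (by omega) (by rw [hlev x hzx]; omega))
    rw [hl] at h5
    omega
  have ot : ∀ x, Ot N θ x → z ⋖ x → ¬ Pend z x := by
    intro x h hzx hp
    exact mem_unnat.mp hzU (topOf x) (h.oth.h6 z x hl (le_topOf x) (hlev x hzx) hp)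
  have la : ∀ x, Lx n0 N θ x → (∀ y, z ⋖ y → y ≤ (topOf x : P)) → Rw n0 N θ z := by
    intro x h hy
    obtain ⟨lo, hi, e, A, L⟩ := h.ex
    rcases L.dat.full z hl hy with h1 | h1
    · exfalso
      refine mem_unnat.mp hzU (topOf x) ?_
      rw [L.nat]
      exact mem_union_right _ h1
    · exact Rw.p0 _ lo hi e A L h1
  have bare : ∀ x, Bx x → ¬ z ⋖ x := fun x h hzx => h.no z hl (hzx.1.le.trans (le_topOf x))
  by_cases honly : ∀ y, z ⋖ y → y = x
  · rcases W.kind hlx with h | h | h | h | h | h
    · refine full fun y hy => ?_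
      rw [honly y hy]
      exact h
    · exact absurd ⟨hzx, honly⟩ (J.hP z x h)
    · exact absurd ⟨hzx, honly⟩ (ot x h hzx)
    · exact absurd honly (h.2 x z (le_topOf x) hlx h.1 hzx)
    · exact la x h fun y hy => by rw [honly y hy]; exact le_topOf x
    · exact absurd hzx (bare x h)
  · push Not at honly
    obtain ⟨x', hzx', hne'⟩ := honly
    have hne : x ≠ x' := Ne.symm hne'
    have hlx' := hlev x' hzx'
    by_cases ht : topOf x = topOf x'
    · have hgt : Win.GoodTo P r (13 + 1) := W.gt
      rcases (Win.near_level' hgt (by omega)).1 z x x' (by omega) hzx hzx' hne with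
        h7 | ⟨h7, h8, -⟩
      · exact (W.near hz hl hzx hzx' hne h7).elim
      · have hQ : ∀ y, z ⋖ y → ¬ Ot N θ y := by
          intro y hy hQ
          rcases uc_pair H hzx hzx' hne hy with h | h
          · subst h
            exact hne (hQ.oth.h5 y x' (le_topOf y) (by rw [ht]; exact le_topOf x') hlx hlx')
          · subst h
            exact hne (hQ.oth.h5 x y (by rw [← ht]; exact le_topOf x) (le_topOf y) hlx hlx')
        have hle : ∀ y, z ⋖ y → y ≤ (topOf x : P) := by
          intro y hy
          rcases uc_pair H hzx hzx' hne hy with e | e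
          · rw [e]; exact le_topOf x
          · rw [e, ht]; exact le_topOf x'
        rcases W.kind hlx with h | h | h | h | h | h
        · rcases W.kind hlx' with h' | h' | h' | h' | h' | h'
          · refine full fun y hy => ?_
            rcases uc_pair H hzx hzx' hne hy with e | e
            · rw [e]; exact h
            · rw [e]; exact h'
          · exact (J.hC z x' x h' h7 ht hne' hzx' hzx).elim
          · exact (hQ x' hzx' h').elim
          · omega
          · exact la x' h' fun y hy => by rw [← ht]; exact hle y hy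
          · exact absurd hzx' (bare x' h')
        · exact (J.hC z x x' h h8 ht.symm hne hzx hzx').elim
        · exact (hQ x hzx h).elim
        · omega
        · exact la x h hle
        · exact absurd hzx (bare x h)
    · rcases J.hJ z x x' hl hzx hzx' ht with ⟨h1, h2⟩ | ⟨h1, h2⟩
      · exact Rw.fb x x' h1 h2 ht hzx hzx'
      · exact Rw.fb x' x h1 h2 (Ne.symm ht) hzx' hzx

/-- the end `(5;25)` has a positive threshold -/
lemma WL.th_p5 (W : WL r n0 N b θ) {x z : P} (hl : lev x = 2 * 7) (h : Prof 7 x (gD p5))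
    (hzx : z ⋖ x) : 1 ≤ θ (topOf x) x := by
  rcases W.kind hl with h1 | h1 | h1 | h1 | h1 | h1
  · rw [h1.th, hl]
    norm_num
  · rw [W.fold_th h1]
  · rw [(h1.oth.h7 x (le_topOf x) hl).2.1]
    norm_num
  · exfalso
    have h2 := h 1 (by norm_num)
    have h3 : gD p5 1 = 0 := by decide
    have h4 := Wd.uc_card_nab W.gt.H (x := x) (by omega)
    rw [hl] at h4
    rw [h3] at h2
    have h5 := h1.1
    rw [h4] at h5
    omega
  · obtain ⟨lo, hi, e, A, L⟩ := h1.ex
    obtain ⟨a, ha, hax⟩ := Sg.La7_surj L.word L.comp (le_topOf x) hl.le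
    have h25 : 25 ≤ a := Sg.La7_lv14 a ha (by
      rw [← (Sg.La7_le L.word L.comp ha).2, hax]
      exact hl)
    have hT := L.dat.th
    have hx0 : θ (topOf x) x = θ (topOf x) (Sg.ce e a) := by rw [hax]
    rw [hx0]
    obtain rfl | rfl | rfl | rfl | rfl : a = 25 ∨ a = 26 ∨ a = 27 ∨ a = 28 ∨ a = 29 := by omega
    · rw [hT.y0]; norm_num
    · rw [hT.y1]; norm_num
    · rw [hT.y2]; norm_num
    · rw [hT.y3]
    · exfalso
      obtain ⟨g1, g2⟩ := L.word.rows L.comp
      have hcv : ∀ a < 30, La7cv.getD a 0 < 2 ^ a := La7_us.cv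
      have hn := strip_nab La7_strip L.comp W.gt.H W.gt.good (topOf x).2 le_rfl g1 g2 hcv
        Sg.La7_um (a := 29) (by decide +kernel) 8
      have c1 : ((range 30).filter (fun b =>
        (La7um.getD 29 0).testBit b = true ∧ La7lv.getD b 0 = 8)).card = 1 := by decide +kernel
      have h2 := h 6 (by norm_num)
      have h3 : gD p5 6 = 1 := by decide
      rw [h3] at h2
      have h4 : nab 8 x = 1 := by
        rw [← hax]
        exact hn.trans c1
      norm_num at h2
      omega
  · exfalso
    have h2 := (W.gt.H.covBy_iff.mp hzx).2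
    exact h1.no z (by omega) (hzx.1.le.trans (le_topOf x))

end Pool.Agent.GaussPoset.W7
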