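import Pool.Agent.W_448w7_h94.WiF
import Pool.Agent.W_448w7_h22.SpD

/-!
The kinds of the elements of level 16 below an anchor; union costs (MP_448cb3_co, S7, `j = 14`,
window 7).
-/

namespace Pool.Agent.GaussPoset.W7

set_option linter.unusedSectionVars false

open Polynomial Finset Fi Cl Dd Wd

universe u

variable {P : Type u} [Fintype P] [PartialOrder P] [DecidableEq P] {r n0 : ℕ}
  {N : Tops P → Finset P} {b : Tops P → ℕ} {θ : Tops P → P → ℕ}

/-- the thresholds of the system with the twins -/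
noncomputable def th2 (N : Tops P → Finset P) (θ : Tops P → P → ℕ) : P → ℕ :=
  thX (twY (2 * 7) N) (twT N) (fun x => θ (topOf x) x)

lemma h2_eq : h2 (2 * 7) N θ = hcan (r2 (2 * 7) N) (th2 N θ) := rfl

/-- the profiles of the elements of level 15 with all covers in one component -/
inductive E15 (v : P) : Prop
  | str (h : ∀ l, 7 ≤ l → l ≤ 14 → nab l v = 1)
  | one (l : ℕ) (h1 : 8 ≤ l) (h2 : l ≤ 14) (h3 : nab l v = 2)
      (h4 : ∀ l', l' ≤ 14 → l' ≠ l → nab l' v = 1) (h5 : cn 7 (topOf v : P) = 1)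
      (h6 : l = 9 → ∀ x, x ≤ (topOf v : P) → lev x ≤ 14 → ¬ v ≤ x → 9 ≤ lev x)
  | mid (h1 : 19 ≤ ct 7 2 v) (h2 : nab 7 v ≤ nab 9 v)
  | big (h : 21 ≤ ct 7 2 v)

/-- the other elements of level 15 of the component of the anchor `c` -/
noncomputable def Dn (n0 : ℕ) (N : Tops P → Finset P) (c : P) : Finset P :=
  if 31 < n0 then (N (topOf c)).filter (fun d => lev d = 15 ∧ d ≠ c) else ∅

/-- the pendant of the first cell of a strip `La7` -/
def IsP0 (n0 : ℕ) (N : Tops P → Finset P) (θ : Tops P → P → ℕ) (p : P) : Prop :=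
  ∃ t lo hi e A, LaD n0 N (θ t) t lo hi e A ∧ Sg.Mk e p 33554432

/-- the kinds of the elements of level 16 below the anchor `c` -/
inductive C16 (n0 : ℕ) (N : Tops P → Finset P) (θ : Tops P → P → ℕ) (c z : P) : Prop
  | P (h1 : ∀ y, z ⋖ y → y = c) (h2 : ct 7 2 z = 30) (h3 : ct 7 3 z = 42)
  | O (d : P) (h1 : d ∈ N (topOf c)) (h2 : lev d = 15) (h3 : d ≠ c) (h4 : z ⋖ d)
      (h5 : ∀ y, z ⋖ y → y = c ∨ y = d) (h6 : 40 ≤ ct 7 2 z) (h7 : 51 ≤ ct 7 3 z)
      (h8 : 2 ≤ θ (topOf c) d)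
  | C (h0 : n0 ≤ 31) (d : P) (h1 : Ank n0 N θ d) (h2 : topOf d = topOf c) (h3 : d ≠ c)
      (h4 : z ⋖ d) (h5 : ∀ y, z ⋖ y → y = c ∨ y = d) (h6 : ct 7 2 z = 32)
  | Q (p : P) (h1 : IsP0 n0 N θ p) (h2 : p ∈ bdR (r2 (2 * 7) N)) (h3 : lev p = 15) (h4 : z ⋖ p)
      (h5 : 40 ≤ ct 7 2 z)
  | X (v : P) (h1 : z ⋖ v) (h2 : ∀ y, z ⋖ y → y = c ∨ y = v) (h3 : v ∉ r2 (2 * 7) N)
      (h4 : topOf v ≠ topOf c) (h5 : 2 ≤ th2 N θ v) (h6 : ct 7 2 z = 30 + ct 7 2 v)
      (h7 : 51 ≤ ct 7 3 z) (h8 : E15 v)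
  | big (h : 51 ≤ ct 7 2 z)

/-- the cost of a union, with the labels 2 and 3 -/
lemma uni_cost {i : ℕ} {h : P → ℕ} {z y x : P} (hz : h z = 2) (hyx : y < x) (hzy : ¬ z ≤ y) :
    ct i 2 z + min 3 (lev y - i) + ct i 3 x ≤
      ∑ w, max (ez i h z w) (ez i (fun _ => 3) y w) + ct i 2 x := by
  classical
  have h1 : ct i 3 y = min 3 (lev y - i) + ∑ w, (if y < w then min 3 (lev w - i) else 0) := by
    rw [ct_succ]
  have h0 : min 3 (lev y - i) = ∑ w, (if w = y then min 3 (lev y - i) else 0) := by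
    rw [Finset.sum_ite_eq' univ y, if_pos (mem_univ y)]
  rw [h0, ct_eq_sum, ct_eq_sum, ct_eq_sum, ← Finset.sum_add_distrib, ← Finset.sum_add_distrib,
    ← Finset.sum_add_distrib]
  refine Finset.sum_le_sum fun w _ => ?_
  have e1 : ez i h z w = if z ≤ w then min 2 (lev w - i) else 0 := by
    unfold ez
    rw [hz]
  have e2 : ez i (fun _ => 3) y w = if y ≤ w then min 3 (lev w - i) else 0 := by
    unfold ez
    rfl
  rw [e1, e2]
  by_cases hw : w = y
  · subst hw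
    rw [if_neg hzy, if_pos rfl, if_neg (not_le_of_gt hyx), if_neg (not_le_of_gt hyx),
      if_pos le_rfl]
    omega
  · rw [if_neg hw]
    by_cases hx : x ≤ w
    · rw [if_pos hx, if_pos hx, if_pos (hyx.le.trans hx)]
      by_cases hz' : z ≤ w
      · rw [if_pos hz']; omega
      · rw [if_neg hz']; omega
    · rw [if_neg hx, if_neg hx]
      omega

/-- the cost with the label 3 -/
lemma uni_self {i : ℕ} {h : P → ℕ} {z : P} (hz : h z = 2) :
    ct i 3 z = ∑ w, max (ez i h z w) (ez i (fun _ => 3) z w) := by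
  classical
  rw [ct_eq_sum]
  refine Finset.sum_congr rfl fun w _ => ?_
  unfold ez
  rw [hz]
  by_cases hw : z ≤ w
  · rw [if_pos hw, if_pos hw]; omega
  · rw [if_neg hw, if_neg hw]; rfl

/-- the cost of the union with another element which is not above -/
lemma Uu_lt {i : ℕ} {h : P → ℕ} {z z' : P} (hzz : ¬ z' ≤ z) (hl : 2 ≤ lev z - i) (hz : 2 ≤ h z) :
    cst i h z' + 2 ≤ Uu i h z z' := by
  classical
  have h0 : (2 : ℕ) = ∑ w, (if w = z then 2 else 0) := by
    rw [Finset.sum_ite_eq' univ z, if_pos (mem_univ z)]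
  rw [h0]
  unfold cst Uu
  rw [← Finset.sum_add_distrib]
  refine Finset.sum_le_sum fun w _ => ?_
  by_cases hw : w = z
  · subst hw
    rw [if_pos rfl]
    unfold ez
    rw [if_neg hzz, if_pos le_rfl]
    omega
  · rw [if_neg hw]
    exact le_max_right _ _

/-- the cost of the union of disjoint cones -/
lemma Uu_dis {i : ℕ} {h : P → ℕ} {z z' : P} (hd : ∀ w, z ≤ w → ¬ z' ≤ w) :
    Uu i h z z' = cst i h z + cst i h z' := by
  classical
  unfold cst Uu
  rw [← Finset.sum_add_distrib]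
  refine Finset.sum_congr rfl fun w _ => ?_
  unfold ez
  by_cases hw : z ≤ w
  · rw [if_pos hw, if_neg (hd w hw)]; omega
  · rw [if_neg hw]; omega

end Pool.Agent.GaussPoset.W7
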