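import Pool.Agent.W_448w7_h94.WiG

/-!
The ladder at window 7: inputs, the families of the elements of level 16 below the anchors
(MP_448cb3_co, S7, `j = 14`).
-/

namespace Pool.Agent.GaussPoset.W7

set_option linter.unusedSectionVars false

open Polynomial Finset Fi Cl Dd Wd

universe u

variable {P : Type u} [Fintype P] [PartialOrder P] [DecidableEq P] {r n0 : ℕ}
  {N : Tops P → Finset P} {b : Tops P → ℕ} {θ : Tops P → P → ℕ}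

/-- the anchors are natural, of level 15 and threshold 1 -/
lemma Ank.dat (W : WL r n0 N b θ) {c : P} (hc : Ank n0 N θ c) : lev c = 15 ∧
    c ∈ N (topOf c) ∧ c ∉ unnat N ∧ c ∉ r2 (2 * 7) N ∧ θ (topOf c) c = 1 ∧ th2 N θ c = 1 := by
  obtain ⟨lo, hi, e, A, L, hA, hm⟩ := hc
  have h1 : c ∈ N (topOf c) := by
    rw [L.nat]
    exact mem_union_right _ hA
  have h2 : c ∉ unnat N := (W.natSys.mem_iff.mp h1).1
  have h3 : c ∉ r2 (2 * 7) N := fun h => h2 (mem_sdiff.mp h).1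
  have h4 : c ∉ twY (2 * 7) N := fun h => h2 (mem_twY.mp h).1
  have h5 := L.dat.th.c34 c hA hm
  refine ⟨hm.1, h1, h2, h3, h5, ?_⟩
  unfold th2
  rw [thX_not h4]
  exact h5

/-- one anchor per component -/
lemma Ank.uniq (W : WL r n0 N b θ) (hn : 31 < n0) {c c' : P} (hc : Ank n0 N θ c)
    (hc' : Ank n0 N θ c') (ht : topOf c' = topOf c) : c' = c := by
  obtain ⟨hl', hN', -, -, hth', -⟩ := hc'.dat W
  obtain ⟨lo, hi, e, A, L, hA, hm⟩ := hc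
  rw [ht] at hN' hth'
  have hA' : c' ∈ A := (L.mem15 hN' hl'.ge).1
  rcases L.dat.pat with ⟨a, J⟩ | ⟨h, -⟩
  · have hT := L.dat.th
    rcases J.all c' hA' with h | h | h | h
    · have := hT.p1 c' hA' h; omega
    · have := hT.c12 c' hA' h; omega
    · have := hT.c23 c' hA' h; omega
    · exact J.uniq c' hA' c hA _ h hm
  · omega

/-- the inputs of the ladder -/
structure Lad (N : Tops P → Finset P) (θ : Tops P → P → ℕ) : Prop where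
  sp : ∀ c : P, Ank 51 N θ c → Sp 7 51 (r2 (2 * 7) N) (th2 N θ) (topOf c) c (Dn 51 N c)
  c16 : ∀ c z : P, Ank 51 N θ c → z ∈ bdR (r2 (2 * 7) N) → z ⋖ c →
    C16 51 N θ c z ∧ (ct 7 2 z ≤ 50 → nab 7 z ≤ nab 9 z)
  h3 : ∀ c z x y : P, Ank 51 N θ c → h2 (2 * 7) N θ z = 2 → z ⋖ c → lev z = 16 →
    (∀ u, z ⋖ u → u ∉ r2 (2 * 7) N) → y ∈ r2 (2 * 7) N → x ∉ r2 (2 * 7) N → topOf x = topOf c → y ⋖ x → y ≠ z →
    ct 7 2 z + 11 ≤ ∑ w, max (ez 7 (h2 (2 * 7) N θ) z w) (ez 7 (fun _ => 3) y w)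
  nine : ∀ c z v : P, Ank 51 N θ c → z ∈ bdR (r2 (2 * 7) N) → lev z = 16 → z ⋖ c → z ⋖ v →
    v ∉ r2 (2 * 7) N → topOf v ≠ topOf c → nab 9 v = 2 →
    (∀ l, l ≤ 14 → l ≠ 9 → nab l v = 1) → cn 7 (topOf v : P) = 1 →
    (∀ x, x ≤ (topOf v : P) → lev x ≤ 14 → ¬ v ≤ x → 9 ≤ lev x) →
    ∀ n, n ≤ 50 → ∀ g : P → ℕ, (∀ x, x ∉ r2 (2 * 7) N → g x = 0) → 2 ≤ g z →
      (∀ y ∈ r2 (2 * 7) N, ∀ x, x ∉ r2 (2 * 7) N → y ⋖ x → topOf x = topOf c → g y ≤ 2) →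
      (∀ y ∈ r2 (2 * 7) N, ∀ x, x ∉ r2 (2 * 7) N → y ⋖ x → topOf x ≠ topOf c →
        g y ≤ th2 N θ x) →
      (1 + X : ℤ[X]) ^ (lv P 7).card ∣ ZB 7 (r2 (2 * 7) N) g 0 n
  p0 : ∀ z ∈ bdR (r2 (2 * 7) N), lev z = 15 → IsP0 51 N θ z →
    cst 7 (h2 (2 * 7) N θ) z = 40 ∧ nab 7 z = nab (7 + h2 (2 * 7) N θ z) z + 1 ∧
      (-1 : ℤ) ^ (nst 7 (h2 (2 * 7) N θ) z) = 1
  fb : ∀ z ∈ bdR (r2 (2 * 7) N), ∀ x x' : P, lev z = 15 → Fd 7 x → Prof 7 x' (gD p5) →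
    topOf x ≠ topOf x' → z ⋖ x → z ⋖ x' →
    cst 7 (h2 (2 * 7) N θ) z = 50 ∧ nab 7 z = nab (7 + h2 (2 * 7) N θ z) z + 1 ∧
      (-1 : ℤ) ^ (nst 7 (h2 (2 * 7) N θ) z) = 1

open Classical in
/-- the family of the anchor `c` at the energy `n` -/
noncomputable def Am (n : ℕ) (N : Tops P → Finset P) (θ : Tops P → P → ℕ) (c : P) : Finset P :=
  (bdR (r2 (2 * 7) N)).filter (fun z => z ⋖ c ∧ lev z = 16 ∧ cst 7 (h2 (2 * 7) N θ) z < n)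

lemma mem_Am {n : ℕ} {c z : P} : z ∈ Am n N θ c ↔ z ∈ bdR (r2 (2 * 7) N) ∧ z ⋖ c ∧
    lev z = 16 ∧ cst 7 (h2 (2 * 7) N θ) z < n := by
  classical
  unfold Am
  rw [mem_filter]

/-- kind `P` -/
def KP (c z : P) : Prop := (∀ y, z ⋖ y → y = c) ∧ ct 7 2 z = 30 ∧ ct 7 3 z = 42

/-- kind `O` -/
def KO (N : Tops P → Finset P) (θ : Tops P → P → ℕ) (c z : P) : Prop :=
  ∃ d, d ∈ Dn 51 N c ∧ d ∈ N (topOf c) ∧ d ≠ c ∧ z ⋖ d ∧ (∀ y, z ⋖ y → y = c ∨ y = d) ∧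
    40 ≤ ct 7 2 z ∧ 51 ≤ ct 7 3 z ∧ 2 ≤ θ (topOf c) d

/-- kind `X` -/
def KX (N : Tops P → Finset P) (θ : Tops P → P → ℕ) (c z v : P) : Prop :=
  z ⋖ v ∧ (∀ y, z ⋖ y → y = c ∨ y = v) ∧ v ∉ r2 (2 * 7) N ∧ topOf v ≠ topOf c ∧
    2 ≤ th2 N θ v ∧ ct 7 2 z = 30 + ct 7 2 v ∧ 51 ≤ ct 7 3 z ∧ E15 v

/-- the label of the elements of a family -/
lemma Am.lab (W : WL r n0 N b θ) {n : ℕ} (hn : n ≤ 51) {c z : P} (hz : z ∈ Am n N θ c) :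
    h2 (2 * 7) N θ z = 2 ∧ ct 7 2 z < n := by
  obtain ⟨h1, h2, h3, h4⟩ := mem_Am.mp hz
  rcases W.bd h1 with h | h | ⟨-, h, -⟩
  · omega
  · omega
  · refine ⟨h, ?_⟩
    rwa [cst_ct h] at h4

/-- the kinds of the elements of a family -/
lemma Am.kind (W : WL r 51 N b θ) (L : Lad N θ) {n : ℕ} (hn : n ≤ 50)
    (hp0 : 40 < n → ∀ p ∈ bdR (r2 (2 * 7) N), ¬ IsP0 51 N θ p) {c z : P} (hc : Ank 51 N θ c)
    (hz : z ∈ Am n N θ c) : KP c z ∨ KO N θ c z ∨ ∃ v, KX N θ c z v := by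
  obtain ⟨h1, h2, h3, h4⟩ := mem_Am.mp hz
  obtain ⟨-, h5⟩ := Am.lab W (by omega) hz
  rcases (L.c16 c z hc h1 h2).1 with ⟨g1, g2, g3⟩ | ⟨d, g1, g2, g3, g4, g5, g6, g7, g8⟩ |
    ⟨g0, d, g1, g2, g3, g4, g5, g6⟩ | ⟨p, g1, g2, g3, g4, g5⟩ |
    ⟨v, g1, g2, g3, g4, g5, g6, g7, g8⟩ | g
  · exact Or.inl ⟨g1, g2, g3⟩
  · refine Or.inr (Or.inl ⟨d, ?_, g1, g3, g4, g5, g6, g7, g8⟩)
    unfold Dn
    rw [if_pos (by norm_num), mem_filter]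
    exact ⟨g1, g2, g3⟩
  · omega
  · by_cases h40 : 40 < n
    · exact absurd g1 (hp0 h40 p g2)
    · omega
  · exact Or.inr (Or.inr ⟨v, g1, g2, g3, g4, g5, g6, g7, g8⟩)
  · omega

/-- one anchor above an element of a family -/
lemma Am.ank (W : WL r 51 N b θ) (L : Lad N θ) {n : ℕ} (hn : n ≤ 50)
    (hp0 : 40 < n → ∀ p ∈ bdR (r2 (2 * 7) N), ¬ IsP0 51 N θ p) {c z c' : P}
    (hc : Ank 51 N θ c) (hz : z ∈ Am n N θ c) (hc' : Ank 51 N θ c') (hzc' : z ⋖ c') :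
    c' = c := by
  obtain ⟨-, -, -, -, h5, h6⟩ := hc'.dat W
  rcases Am.kind W L hn hp0 hc hz with ⟨h, -, -⟩ | ⟨d, h1, h2, h3, h4, h, h7, h8, h9⟩ |
    ⟨v, h1, h, h2, h3, h4, -, -, -⟩
  · exact h c' hzc'
  · rcases h c' hzc' with e | e
    · exact e
    · exfalso
      rw [e, (W.natSys.mem_iff.mp h2).2] at h5
      omega
  · rcases h c' hzc' with e | e
    · exact e
    · exfalso
      rw [e] at h6
      omega

/-- the cost of the boundary elements outside of the families -/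
lemma out_cost (W : WL r 51 N b θ) (J : JH P) (L : Lad N θ) {n : ℕ} (hn : n ≤ 50)
    (hp0 : 40 < n → ∀ p ∈ bdR (r2 (2 * 7) N), ¬ IsP0 51 N θ p) {z : P}
    (hz : z ∈ bdR (r2 (2 * 7) N)) (h : ∀ c, Ank 51 N θ c → z ∉ Am n N θ c) :
    n ≤ cst 7 (h2 (2 * 7) N θ) z := by
  classical
  rcases W.bd hz with hl | h1 | ⟨hl, -, c, hc, hzc⟩
  · rcases W.rows J (mem_filter.mp hz).1 hl with ⟨t, lo, hi, e, A, L', hm⟩ |
      ⟨x, x', g1, g2, g3, g4, g5⟩ | ⟨g, -⟩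
    · have hp : IsP0 51 N θ z := ⟨t, lo, hi, e, A, L', hm⟩
      have := (L.p0 z hz hl hp).1
      by_cases h40 : 40 < n
      · exact absurd hp (hp0 h40 z hz)
      · omega
    · have := (L.fb z hz x x' hl g1 g2 g3 g4 g5).1
      omega
    · omega
  · omega
  · by_contra hcon
    exact h c hc (mem_Am.mpr ⟨hz, hzc, hl, by omega⟩)

end Pool.Agent.GaussPoset.W7
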