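import Pool.Agent.W_448w7_h94.WiH

/-!
The ladder at window 7: union costs of the families (MP_448cb3_co, S7, `j = 14`).
-/

namespace Pool.Agent.GaussPoset.W7

set_option linter.unusedSectionVars false

open Polynomial Finset Fi Cl Dd Wd

universe u

variable {P : Type u} [Fintype P] [PartialOrder P] [DecidableEq P] {r n0 : ℕ}
  {N : Tops P → Finset P} {b : Tops P → ℕ} {θ : Tops P → P → ℕ}

/-- the cost of the union of two elements below anchors of different components -/
lemma Uu_anc (W : WL r 51 N b θ) {c c' z z' : P} (hc : c ∉ unnat N) (hc' : c' ∉ unnat N)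
    (ht : topOf c' ≠ topOf c) (hzc : z ⋖ c) (hzc' : z' ⋖ c') (hz : h2 (2 * 7) N θ z = 2)
    (hz' : h2 (2 * 7) N θ z' = 2) :
    ct 7 2 c + ct 7 2 c' ≤ Uu 7 (h2 (2 * 7) N θ) z z' := by
  classical
  have HN := W.natSys
  have hd : ∀ w, c ≤ w → ¬ c' ≤ w := by
    intro w h1 h2
    have e1 := HN.cp c w h1 hc
    have e2 := HN.cp c' w h2 hc'
    exact ht (e2.trans e1.symm)
  rw [ct_eq_sum, ct_eq_sum, ← Finset.sum_add_distrib]
  unfold Uu
  refine Finset.sum_le_sum fun w _ => ?_
  unfold ez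
  rw [hz, hz']
  by_cases h1 : c ≤ w
  · rw [if_pos h1, if_neg (hd w h1), if_pos (hzc.1.le.trans h1)]
    omega
  · rw [if_neg h1]
    by_cases h2 : c' ≤ w
    · rw [if_pos h2, if_pos (hzc'.1.le.trans h2)]
      omega
    · rw [if_neg h2]
      omega

/-- **the union costs** -/
theorem Am.pair (W : WL r 51 N b θ) (J : JH P) (L : Lad N θ) {n : ℕ} (hn : n ≤ 50)
    (hp0 : 40 < n → ∀ p ∈ bdR (r2 (2 * 7) N), ¬ IsP0 51 N θ p) {c z z' : P}
    (hc : Ank 51 N θ c) (hz : z ∈ Am n N θ c) (hz' : z' ∈ bdR (r2 (2 * 7) N))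
    (hne : z' ∉ Am n N θ c) : n < Uu 7 (h2 (2 * 7) N θ) z z' := by
  classical
  obtain ⟨h1, h2, h3, h4⟩ := mem_Am.mp hz
  obtain ⟨hl2, -⟩ := Am.lab W (by omega) hz
  have hzz : z' ≠ z := by
    rintro rfl
    exact hne hz
  have hnle : lev z' ≤ 16 → ¬ z' ≤ z := by
    intro hl h
    have := lev_strictAnti (lt_of_le_of_ne h hzz)
    omega
  by_cases hex : ∃ c', Ank 51 N θ c' ∧ z' ∈ Am n N θ c'
  · obtain ⟨c', hc', hzA⟩ := hex
    obtain ⟨h1', h2', h3', h4'⟩ := mem_Am.mp hzA
    obtain ⟨hl2', -⟩ := Am.lab W (by omega) hzA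
    have ht : topOf c' ≠ topOf c := by
      intro ht
      have := Ank.uniq W (by norm_num) hc hc' ht
      rw [this] at hzA
      exact hne hzA
    have h5 := Uu_anc W (hc.dat W).2.2.1 (hc'.dat W).2.2.1 ht h2 h2' hl2 hl2'
    have h6 := (L.sp c hc).cct
    have h7 := (L.sp c' hc').cct
    omega
  · push Not at hex
    have h5 := out_cost W J L hn hp0 hz' hex
    by_cases h51 : 51 ≤ cst 7 (Pool.Agent.GaussPoset.h2 (2 * 7) N θ) z'
    · have := Uu_right 7 (Pool.Agent.GaussPoset.h2 (2 * 7) N θ) z z'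
      omega
    · have hl' : lev z' ≤ 16 := by
        rcases W.bd hz' with h | h | h
        · omega
        · omega
        · omega
      have := Uu_lt (i := 7) (h := Pool.Agent.GaussPoset.h2 (2 * 7) N θ) (hnle hl')
        (by omega) hl2.ge
      omega

/-- an element of level 15 costs at least 15 -/
lemma ct15 {v : P} (hl : lev v = 15) : 15 ≤ ct 7 2 v := by
  rw [ct_topI (m := 7) (i := 7) (k := 2) (q := fun d => nab (2 * 7 - d) v) (by norm_num) hl
    (by norm_num) (fun _ _ => rfl)]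
  unfold vsQ
  simp only [Finset.sum_range_succ, Finset.sum_range_zero]
  have h : ∀ l, l ≤ 14 → 1 ≤ nab l v := fun l hl2 => one_le_nab (by omega)
  have g8 := h 8 (by norm_num)
  have g9 := h 9 (by norm_num)
  have g10 := h 10 (by norm_num)
  have g11 := h 11 (by norm_num)
  have g12 := h 12 (by norm_num)
  have g13 := h 13 (by norm_num)
  have g14 := h 14 (by norm_num)
  norm_num
  omega

/-- the poles of the straight elements and the elements with one extra element -/
lemma E15.val {v : P} (hl : lev v = 15) (h : E15 v) :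
    (ct 7 2 v = 15 ∧ nab 9 v = nab 7 v ∧ nst 7 (fun _ => 2) v = 2) ∨
    (ct 7 2 v = 16 ∧ nab 9 v = nab 7 v ∧ nst 7 (fun _ => 2) v = 3) ∨
    (ct 7 2 v = 17 ∧ nab 9 v = nab 7 v ∧ nst 7 (fun _ => 2) v = 2) ∨
    (ct 7 2 v = 17 ∧ nab 9 v = 2 ∧ (∀ l, l ≤ 14 → l ≠ 9 → nab l v = 1) ∧
      cn 7 (topOf v : P) = 1 ∧ ∀ x, x ≤ (topOf v : P) → lev x ≤ 14 → ¬ v ≤ x → 9 ≤ lev x) ∨
    19 ≤ ct 7 2 v := by
  have hct : ct 7 2 v = nab 8 v + 2 * (nab 9 v + nab 10 v + nab 11 v + nab 12 v + nab 13 v +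
      nab 14 v) + 2 := by
    rw [ct_topI (m := 7) (i := 7) (k := 2) (q := fun d => nab (2 * 7 - d) v) (by norm_num) hl
      (by norm_num) (fun _ _ => rfl)]
    unfold vsQ
    simp only [Finset.sum_range_succ, Finset.sum_range_zero]
    norm_num
    omega
  have hns : nst 7 (fun _ => 2) v = nab 7 v + nab 8 v := by
    rw [nst_eq]
    simp only [Finset.sum_range_succ, Finset.sum_range_zero]
    norm_num
  rcases h with h | ⟨l, h1, h2, h3, h4, h5, h6⟩ | ⟨h1, -⟩ | h
  · left
    rw [hct, hns, h 7 (by norm_num) (by norm_num), h 8 (by norm_num) (by norm_num),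
      h 9 (by norm_num) (by norm_num), h 10 (by norm_num) (by norm_num),
      h 11 (by norm_num) (by norm_num), h 12 (by norm_num) (by norm_num),
      h 13 (by norm_num) (by norm_num), h 14 (by norm_num) (by norm_num)]
    norm_num
  · have g : ∀ l', 7 ≤ l' → l' ≤ 14 → nab l' v = if l' = l then 2 else 1 := by
      intro l' _ hl2
      by_cases e : l' = l
      · rw [if_pos e, e, h3]
      · rw [if_neg e, h4 l' hl2 e]
    by_cases e9 : l = 9
    · right; right; right; left
      subst e9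
      refine ⟨?_, h3, h4, h5, h6 rfl⟩
      rw [hct, g 8 (by norm_num) (by norm_num), g 9 (by norm_num) (by norm_num),
        g 10 (by norm_num) (by norm_num), g 11 (by norm_num) (by norm_num),
        g 12 (by norm_num) (by norm_num), g 13 (by norm_num) (by norm_num),
        g 14 (by norm_num) (by norm_num)]
      norm_num
    · rw [hct, hns, g 7 (by norm_num) (by norm_num), g 8 (by norm_num) (by norm_num),
        g 9 (by norm_num) (by norm_num), g 10 (by norm_num) (by norm_num),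
        g 11 (by norm_num) (by norm_num), g 12 (by norm_num) (by norm_num),
        g 13 (by norm_num) (by norm_num), g 14 (by norm_num) (by norm_num)]
      obtain rfl | rfl | rfl | rfl | rfl | rfl : l = 8 ∨ l = 10 ∨ l = 11 ∨ l = 12 ∨ l = 13 ∨
        l = 14 := by omega
      all_goals norm_num
  · exact Or.inr (Or.inr (Or.inr (Or.inr h1)))
  · exact Or.inr (Or.inr (Or.inr (Or.inr (by omega))))

end Pool.Agent.GaussPoset.W7
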