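import Pool.Agent.W_448w7_h94.WiI

/-!
The ladder at window 7: the kinds of the elements of the families, the family theorem for one
anchor (MP_448cb3_co, S7, `j = 14`).
-/

namespace Pool.Agent.GaussPoset.W7

set_option linter.unusedSectionVars false

open Polynomial Finset Fi Cl Dd Wd

universe u

variable {P : Type u} [Fintype P] [PartialOrder P] [DecidableEq P] {r n0 : ℕ}
  {N : Tops P → Finset P} {b : Tops P → ℕ} {θ : Tops P → P → ℕ}

/-- the elements with a pole at the energy `n` -/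
def Pol (n : ℕ) (N : Tops P → Finset P) (θ : Tops P → P → ℕ) (z : P) : Prop :=
  ∃ c, Ank 51 N θ c ∧ z ⋖ c ∧ ((n = 32 ∧ KP c z) ∨
    ∃ v, KX N θ c z v ∧ n = 32 + ct 7 2 v ∧ nab 9 v = nab 7 v)

/-- the sign of the poles of the families at the energy `n` -/
noncomputable def sgP (P : Type u) [Fintype P] [PartialOrder P] [DecidableEq P] (n : ℕ) : ℤ :=
  if n = 48 then (-1 : ℤ) ^ (below P 7 + 8) else (-1 : ℤ) ^ (below P 7 + 7)

lemma sgP_ne (n : ℕ) : sgP P n ≠ 0 := by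
  unfold sgP
  split_ifs
  · exact pow_ne_zero _ (by norm_num)
  · exact pow_ne_zero _ (by norm_num)

lemma KX.ne {c z v : P} (h : KX N θ c z v) : v ≠ c := by
  rintro rfl
  exact h.2.2.2.1 rfl

lemma KX.uniq {c z v v' : P} (h : KX N θ c z v) (h' : KX N θ c z v') : v' = v :=
  (h.2.1 v' h'.1).resolve_left h'.ne

/-- what is known at the energy `n` -/
structure St (n : ℕ) (N : Tops P → Finset P) (θ : Tops P → P → ℕ) : Prop where
  le : n ≤ 50
  p0 : 40 < n → ∀ p ∈ bdR (r2 (2 * 7) N), ¬ IsP0 51 N θ p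
  kp : 32 < n → ∀ c z : P, Ank 51 N θ c → z ∈ bdR (r2 (2 * 7) N) → z ⋖ c → ¬ KP c z
  kx : ∀ c z v : P, Ank 51 N θ c → z ∈ bdR (r2 (2 * 7) N) → z ⋖ c → lev z = 16 →
    KX N θ c z v → n ≤ 32 + ct 7 2 v ∨ nab 9 v ≠ nab 7 v

/-- **the kinds with the poles** -/
theorem Am.kd (W : WL r 51 N b θ) (L : Lad N θ) {n : ℕ} (S : St n N θ) (z : P) :
    ∃ k : ℕ, ∀ c, Ank 51 N θ c → z ∈ Am n N θ c →
      Kd 7 (r2 (2 * 7) N) (th2 N θ) (topOf c) c (Dn 51 N c) n z (Pol n N θ z) k ∧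
        (Pol n N θ z → (-1 : ℤ) ^ k = sgP P n) := by
  classical
  by_cases hex : ∃ c, Ank 51 N θ c ∧ z ∈ Am n N θ c
  swap
  · exact ⟨0, fun c hc hz => absurd ⟨c, hc, hz⟩ hex⟩
  obtain ⟨c, hc, hz⟩ := hex
  obtain ⟨hzb, hzc, hlz, -⟩ := mem_Am.mp hz
  have hu : ∀ c', Ank 51 N θ c' → z ⋖ c' → c' = c := fun c' h1 h2 =>
    Am.ank W L S.le S.p0 hc hz h1 h2
  have key : ∀ k, (Kd 7 (r2 (2 * 7) N) (th2 N θ) (topOf c) c (Dn 51 N c) n z (Pol n N θ z) k ∧
      (Pol n N θ z → (-1 : ℤ) ^ k = sgP P n)) → ∃ k : ℕ, ∀ c, Ank 51 N θ c → z ∈ Am n N θ c →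
      Kd 7 (r2 (2 * 7) N) (th2 N θ) (topOf c) c (Dn 51 N c) n z (Pol n N θ z) k ∧
        (Pol n N θ z → (-1 : ℤ) ^ k = sgP P n) := by
    intro k h
    refine ⟨k, fun c' hc' hz' => ?_⟩
    rw [hu c' hc' (mem_Am.mp hz').2.1]
    exact h
  rcases Am.kind W L S.le S.p0 hc hz with hK | ⟨d, h1, h2, h3, h4, h5, h6, h7, h8⟩ | ⟨v, hK⟩
  · -- kind P
    have h32 : n ≤ 32 := by
      by_contra hcon
      exact S.kp (by omega) c z hc hzb hzc hK
    have hp : Pol n N θ z ↔ n = 32 := by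
      constructor
      · rintro ⟨c', hc', hzc', h | ⟨v, hv, -, -⟩⟩
        · exact h.1
        · rw [hu c' hc' hzc'] at hv
          exact absurd (hK.1 v hv.1) hv.ne
      · intro h
        exact ⟨c, hc, hzc, Or.inl ⟨h, hK⟩⟩
    refine key (below P 7 + 7) ⟨Kd.P hK.1 h32 hp (fun _ => rfl), fun h => ?_⟩
    unfold sgP
    rw [if_neg (by have := hp.mp h; omega)]
  · -- kind O
    have hd : topOf d = topOf c := (W.natSys.mem_iff.mp h2).2
    have hp : ¬ Pol n N θ z := by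
      rintro ⟨c', hc', hzc', h | ⟨v, hv, -, -⟩⟩
      · rw [hu c' hc' hzc'] at h
        exact h3 (h.2.1 d h4)
      · rw [hu c' hc' hzc'] at hv
        rcases h5 v hv.1 with e | e
        · exact hv.ne e
        · exact hv.2.2.2.1 (by rw [e, hd])
    exact key 0 ⟨Kd.O d h1 h4 h6 (by have := S.le; omega) hp h5, fun h => absurd h hp⟩
  · -- kind X
    have hK' := hK
    obtain ⟨g1, g2, g3, g4, g5, g6, g7, g8⟩ := hK'
    have hlv : lev v = 15 := by
      have := (W.gt.H.covBy_iff.mp g1).2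
      omega
    have hp : Pol n N θ z ↔ n = 32 + ct 7 2 v ∧ nab 9 v = nab 7 v := by
      constructor
      · rintro ⟨c', hc', hzc', h | ⟨v', hv, h1, h2⟩⟩
        · rw [hu c' hc' hzc'] at h
          exact absurd (h.2.1 v g1) hK.ne
        · rw [hu c' hc' hzc'] at hv
          rw [hK.uniq hv] at h1 h2
          exact ⟨h1, h2⟩
      · intro h
        exact ⟨c, hc, hzc, Or.inr ⟨v, hK, h⟩⟩
    have hle := S.le
    have hx : n ≤ 32 + ct 7 2 v → (n = 32 + ct 7 2 v → nab 9 v = nab 7 v) →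
        (n = 32 + ct 7 2 v → (-1 : ℤ) ^ (below P 7 + 7 + nst 7 (fun _ => 2) v) = sgP P n) →
        ∃ k : ℕ, ∀ c, Ank 51 N θ c → z ∈ Am n N θ c →
          Kd 7 (r2 (2 * 7) N) (th2 N θ) (topOf c) c (Dn 51 N c) n z (Pol n N θ z) k ∧
            (Pol n N θ z → (-1 : ℤ) ^ k = sgP P n) := by
      intro e1 e2 e3
      refine key (below P 7 + 7 + nst 7 (fun _ => 2) v) ⟨Kd.X v g1 g2 g3 g4 g5 e1 ?_ ?_, ?_⟩
      · rw [hp]
        exact ⟨fun h => h.1, fun h => ⟨h, e2 h⟩⟩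
      · intro h
        exact ⟨(hp.mp h).2, rfl⟩
      · intro h
        exact e3 (hp.mp h).1
    have hkx := S.kx c z v hc hzb hzc hlz hK
    rcases g8.val hlv with ⟨e1, e2, e3⟩ | ⟨e1, e2, e3⟩ | ⟨e1, e2, e3⟩ | ⟨e1, e2, e3, e4, e5⟩ | e
    · refine hx (hkx.resolve_right (fun h => h e2)) (fun _ => e2) (fun h => ?_)
      unfold sgP
      rw [if_neg (by omega), e3]
      ring
    · refine hx (hkx.resolve_right (fun h => h e2)) (fun _ => e2) (fun h => ?_)
      unfold sgP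
      rw [if_pos (by omega), e3]
      ring
    · refine hx (hkx.resolve_right (fun h => h e2)) (fun _ => e2) (fun h => ?_)
      unfold sgP
      rw [if_neg (by omega), e3]
      ring
    · have hnp : ¬ Pol n N θ z := by
        rw [hp]
        rintro ⟨-, h⟩
        rw [e2, e3 7 (by norm_num) (by norm_num)] at h
        omega
      refine key 0 ⟨Kd.Y ?_ hnp, fun h => absurd h hnp⟩
      intro g h1 h2 h3 h4
      exact L.nine c z v hc hzb hlz hzc g1 g3 g4 e2 e3 e4 e5 n hle g h1 h2 h3 h4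
    · exact hx (by omega) (fun h => by omega) (fun h => by omega)

/-- **the family theorem for an anchor** -/
theorem Am.zf (W : WL r 51 N b θ) (J : JH P) (L : Lad N θ) {n : ℕ} (S : St n N θ) {k : P → ℕ}
    (hk : ∀ z c, Ank 51 N θ c → z ∈ Am n N θ c →
      Kd 7 (r2 (2 * 7) N) (th2 N θ) (topOf c) c (Dn 51 N c) n z (Pol n N θ z) (k z) ∧
        (Pol n N θ z → (-1 : ℤ) ^ (k z) = sgP P n)) [DecidablePred (Pol n N θ)] {c : P}
    (hc : Ank 51 N θ c) : (1 + X : ℤ[X]) ^ (lv P 7).card ∣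
      ZF 7 (h2 (2 * 7) N θ) (Am n N θ c) n - ∑ z ∈ (Am n N θ c).filter (Pol n N θ),
        X ^ (k z) * (1 + X) ^ ((lv P 7).card - 1) := by
  have hle := S.le
  have hnat : ∀ d, d ∈ N (topOf c) → d ∉ unnat N ∧ topOf d = topOf c := fun d hd =>
    W.natSys.mem_iff.mp hd
  obtain ⟨hc1, hc2, hc3, hc4, hc5, hc6⟩ := hc.dat W
  have hcov : ∀ z ∈ Am n N θ c, ∀ x, z ⋖ x → x ∉ r2 (2 * 7) N ∧ 1 ≤ th2 N θ x ∧
      (topOf x ≠ topOf c → 2 ≤ th2 N θ x) := by
    intro z hz x hzx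
    rcases Am.kind W L S.le S.p0 hc hz with ⟨h, -, -⟩ | ⟨d, h1, h2, h3, h4, h, h7, h8, h9⟩ |
      ⟨v, h1, h, h3, h4, h5, -⟩
    · rw [h x hzx]
      exact ⟨hc4, by omega, fun h => absurd rfl h⟩
    · rcases h x hzx with e | e
      · rw [e]
        exact ⟨hc4, by omega, fun h => absurd rfl h⟩
      · rw [e]
        obtain ⟨g1, g2⟩ := hnat d h2
        have g3 : d ∉ twY (2 * 7) N := fun h => g1 (mem_twY.mp h).1
        have g4 : th2 N θ d = θ (topOf c) d := by
          unfold th2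
          rw [thX_not g3, g2]
        exact ⟨fun h => g1 (mem_sdiff.mp h).1, by omega, fun h => absurd g2 h⟩
    · rcases h x hzx with e | e
      · rw [e]
        exact ⟨hc4, by omega, fun h => absurd rfl h⟩
      · rw [e]
        exact ⟨h3, by omega, fun _ => h5⟩
  refine (L.sp c hc).fam (A := Am n N θ c) (n := n) ?_ (by omega) ?_ hcov ?_ ?_ ?_
  · intro d hd
    unfold Dn at hd
    rw [if_pos (by norm_num), mem_filter] at hd
    exact (hnat d hd.1).2
  · intro z hz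
    obtain ⟨h1, h2, h3, h4⟩ := mem_Am.mp hz
    exact ⟨h1, h2, h3⟩
  · intro z hz y hy x hx hxt hyx
    obtain ⟨h1, h2, h3, h4⟩ := mem_Am.mp hz
    obtain ⟨hl2, -⟩ := Am.lab W (by omega) hz
    have hK := Am.kind W L S.le S.p0 hc hz
    have hlab : Pool.Agent.GaussPoset.h2 (2 * 7) N θ = hcan (r2 (2 * 7) N) (th2 N θ) := rfl
    rw [← hlab]
    by_cases hyz : y = z
    · subst hyz
      rw [← uni_self hl2]
      rcases hK with h | ⟨d, -, -, -, -, -, -, h, -⟩ | ⟨v, -, -, -, -, -, -, h, -⟩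
      · have h32 : n ≤ 32 := by
          by_contra hcon
          exact S.kp (by omega) c y hc h1 h2 h
        have := h.2.2
        omega
      · omega
      · omega
    · have h5 := L.h3 c z x y hc hl2 h2 h3 (fun u hu => (hcov z hz u hu).1) hy hx hxt hyx hyz
      rcases hK with h | ⟨d, -, -, -, -, -, h, -, -⟩ | ⟨v, g, -, -, -, -, h, -, -⟩
      · have h32 : n ≤ 32 := by
          by_contra hcon
          exact S.kp (by omega) c z hc h1 h2 h
        have := h.2.1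
        omega
      · omega
      · have hlv : lev v = 15 := by
          have := (W.gt.H.covBy_iff.mp g).2
          omega
        have := ct15 hlv
        omega
  · intro z hz y hy hyA
    exact Am.pair W J L S.le S.p0 hc hz hy hyA
  · intro z hz
    exact (hk z c hc hz).1

end Pool.Agent.GaussPoset.W7
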