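import Pool.Agent.W_448w7_h94.WiJ

/-!
The ladder at window 7: **no join of a fold end and an end `(5;25)`** (MP_448cb3_co, S7,
`j = 14`).
-/

namespace Pool.Agent.GaussPoset.W7

set_option linter.unusedSectionVars false

open Polynomial Finset Fi Cl Dd Wd

universe u

variable {P : Type u} [Fintype P] [PartialOrder P] [DecidableEq P] {r n0 : ℕ}
  {N : Tops P → Finset P} {b : Tops P → ℕ} {θ : Tops P → P → ℕ}

open Classical in
/-- the families at the energy `n` -/
noncomputable def FamN (n : ℕ) (N : Tops P → Finset P) (θ : Tops P → P → ℕ) :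
    Finset (Finset P) :=
  (univ.filter (fun c : P => Ank 51 N θ c)).image (Am n N θ)

lemma mem_FamN {n : ℕ} {A : Finset P} :
    A ∈ FamN n N θ ↔ ∃ c, Ank 51 N θ c ∧ Am n N θ c = A := by
  classical
  unfold FamN
  rw [mem_image]
  constructor
  · rintro ⟨c, h1, h2⟩
    exact ⟨c, (mem_filter.mp h1).2, h2⟩
  · rintro ⟨c, h1, h2⟩
    exact ⟨c, mem_filter.mpr ⟨mem_univ _, h1⟩, h2⟩

open Classical in
/-- **one step of the ladder** -/
theorem Lad.step (W : WL r 51 N b θ) (J : JH P) (L : Lad N θ) {n : ℕ} (S : St n N θ) :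
    ∃ k : P → ℕ, (∀ z c, Ank 51 N θ c → z ∈ Am n N θ c → Pol n N θ z →
      (-1 : ℤ) ^ (k z) = sgP P n) ∧ (1 + X : ℤ[X]) ^ (lv P 7).card ∣
        ∑ A ∈ FamN n N θ, ∑ z ∈ A.filter (Pol n N θ),
          X ^ (k z) * (1 + X) ^ ((lv P 7).card - 1) +
        ∑ z ∈ (bdR (r2 (2 * 7) N)).filter (fun z => (∀ A ∈ FamN n N θ, z ∉ A) ∧
          cst 7 (h2 (2 * 7) N θ) z = n), Lt 7 (h2 (2 * 7) N θ) z := by
  choose k hk using Am.kd W L S
  have hle := S.le
  refine ⟨k, fun z c hc hz => (hk z c hc hz).2, ?_⟩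
  have key := W.farT.plusF (n := n) (by omega) (FamN n N θ) ?_ ?_ ?_ ?_
  · have hZ := dvd_Z W.gt.H.gauss 7 n
    have h1 := dvd_sub hZ key
    rw [sub_sub_cancel] at h1
    have h2 : (1 + X : ℤ[X]) ^ (lv P 7).card ∣ ∑ A ∈ FamN n N θ, (ZF 7 (h2 (2 * 7) N θ) A n -
        ∑ z ∈ A.filter (Pol n N θ), X ^ (k z) * (1 + X) ^ ((lv P 7).card - 1)) := by
      refine Finset.dvd_sum fun A hA => ?_
      obtain ⟨c, hc, rfl⟩ := mem_FamN.mp hA
      exact Am.zf W J L S hk hc
    rw [Finset.sum_sub_distrib] at h2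
    have h3 := dvd_sub h1 h2
    rwa [show ∀ a b c : ℤ[X], a + b - (a - c) = c + b by intros; ring] at h3
  · intro A hA z hz
    obtain ⟨c, hc, rfl⟩ := mem_FamN.mp hA
    exact (mem_Am.mp hz).1
  · intro z hz h
    exact out_cost W J L S.le S.p0 hz fun c hc => h _ (mem_FamN.mpr ⟨c, hc, rfl⟩)
  · intro A hA z hz z' hz' hne
    obtain ⟨c, hc, rfl⟩ := mem_FamN.mp hA
    exact Am.pair W J L S.le S.p0 hc hz hz' hne
  · intro A hA A' hA' hne z hz hz'
    obtain ⟨c, hc, rfl⟩ := mem_FamN.mp hA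
    obtain ⟨c', hc', rfl⟩ := mem_FamN.mp hA'
    rw [Am.ank W L S.le S.p0 hc hz hc' (mem_Am.mp hz').2.1] at hne
    exact hne rfl

/-- the single elements -/
lemma single_cases (W : WL r 51 N b θ) (J : JH P) (L : Lad N θ) {n : ℕ} (hn : n ≤ 50) {z : P}
    (hz : z ∈ bdR (r2 (2 * 7) N)) (hc : cst 7 (h2 (2 * 7) N θ) z = n) :
    (n = 40 ∧ lev z = 15 ∧ IsP0 51 N θ z) ∨ (n = 50 ∧ ∃ x x', lev z = 15 ∧ Fd 7 x ∧
      Prof 7 x' (gD p5) ∧ topOf x ≠ topOf x' ∧ z ⋖ x ∧ z ⋖ x') ∨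
      nab 7 z ≤ nab (7 + h2 (2 * 7) N θ z) z := by
  classical
  rcases W.bd hz with hl | h1 | ⟨hl, h2, c, hcA, hzc⟩
  · rcases W.rows J (mem_filter.mp hz).1 hl with ⟨t, lo, hi, e, A, L', hm⟩ |
      ⟨x, x', g1, g2, g3, g4, g5⟩ | ⟨g, -⟩
    · have hp : IsP0 51 N θ z := ⟨t, lo, hi, e, A, L', hm⟩
      have := (L.p0 z hz hl hp).1
      exact Or.inl ⟨by omega, hl, hp⟩
    · have := (L.fb z hz x x' hl g1 g2 g3 g4 g5).1
      exact Or.inr (Or.inl ⟨by omega, x, x', hl, g1, g2, g3, g4, g5⟩)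
    · omega
  · omega
  · right; right
    rw [h2]
    rw [cst_ct h2] at hc
    exact (L.c16 c z hcA hz hzc).2 (by omega)

/-- **no poles of the families**, energies without single poles -/
theorem no_pol (W : WL r 51 N b θ) (J : JH P) (L : Lad N θ) {n : ℕ} (S : St n N θ)
    (h40 : n ≠ 40) (h50 : n ≠ 50) {c z : P} (hc : Ank 51 N θ c) (hz : z ∈ Am n N θ c) :
    ¬ Pol n N θ z := by
  classical
  intro hp
  obtain ⟨k, hk, hd⟩ := L.step W J S
  have hle := S.le
  have h1 : (1 + X : ℤ[X]) ^ (lv P 7).card ∣ ∑ z ∈ (bdR (r2 (2 * 7) N)).filter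
      (fun z => (∀ A ∈ FamN n N θ, z ∉ A) ∧ cst 7 (h2 (2 * 7) N θ) z = n),
        Lt 7 (h2 (2 * 7) N θ) z := by
    refine Finset.dvd_sum fun y hy => ?_
    rw [mem_filter] at hy
    rcases single_cases W J L hle hy.1 hy.2.2 with h | h | h
    · omega
    · omega
    · unfold Lt
      exact dvd_mul_of_dvd_right (pow_dvd_pow _ (by omega)) _
  have h2 := dvd_sub hd h1
  rw [add_sub_cancel_right, Finset.sum_sigma'] at h2
  have hB : 1 ≤ (lv P 7).card := by
    have h7 : 1 ≤ nab 7 z := one_le_nab (by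
      have := (mem_Am.mp hz).2.2.1
      omega)
    have := nab_le z 7
    omega
  have h4 := sum_empty hB _ (fun y : (_ : Finset P) × P => k y.2) (sgP_ne (P := P) n) (by
    rintro ⟨A, y⟩ hy
    rw [mem_sigma, mem_filter] at hy
    obtain ⟨c', hc', hA⟩ := mem_FamN.mp hy.1
    exact hk y c' hc' (by rw [hA]; exact hy.2.1) hy.2.2) h2
  have h5 : (⟨Am n N θ c, z⟩ : (_ : Finset P) × P) ∈
      (FamN n N θ).sigma (fun A => A.filter (Pol n N θ)) := by
    rw [mem_sigma, mem_filter]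
    exact ⟨mem_FamN.mpr ⟨c, hc, rfl⟩, hz, hp⟩
  rw [h4] at h5
  exact absurd h5 (Finset.notMem_empty _)

/-- **no single poles**, energies without poles of the families -/
theorem no_single (W : WL r 51 N b θ) (J : JH P) (L : Lad N θ) {n : ℕ} (S : St n N θ)
    (hpol : ∀ c z, Ank 51 N θ c → z ∈ Am n N θ c → ¬ Pol n N θ z) {z : P}
    (hz : z ∈ bdR (r2 (2 * 7) N)) (hl : lev z = 15) (hc : cst 7 (h2 (2 * 7) N θ) z = n)
    (hd : nab 7 z = nab (7 + h2 (2 * 7) N θ z) z + 1) : False := by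
  classical
  obtain ⟨k, -, hdv⟩ := L.step W J S
  have hle := S.le
  rw [Finset.sum_eq_zero, zero_add] at hdv
  swap
  · intro A hA
    obtain ⟨c, hc, rfl⟩ := mem_FamN.mp hA
    rw [Finset.filter_eq_empty_iff.mpr (fun y hy => hpol c y hc hy), Finset.sum_empty]
  have hZ := dvd_Z W.gt.H.gauss 7 n
  set T := (bdR (r2 (2 * 7) N)).filter (fun z => (∀ A ∈ FamN n N θ, z ∉ A) ∧
    cst 7 (h2 (2 * 7) N θ) z = n) with hT
  have h7 : 1 ≤ nab 7 z := one_le_nab (by omega)
  have h7' := nab_le z 7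
  have hs := sign_sum_of_dvd T hZ (dvd_sub hZ hdv) (c0 := (lv P 7).card - 1) (by omega) (by
    intro y hy
    rw [hT, mem_filter] at hy
    rcases single_cases W J L hle hy.1 hy.2.2 with h | ⟨-, x, x', h, h2, h3, h4, h5, h6⟩ | h
    · have := (L.p0 y hy.1 h.2.1 h.2.2).2.1
      omega
    · have := (L.fb y hy.1 x x' h h2 h3 h4 h5 h6).2.1
      omega
    · omega)
  set T' := T.filter (fun y => (lv P 7).card - 1 + nab 7 y =
    (lv P 7).card + nab (7 + h2 (2 * 7) N θ y) y) with hT'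
  have hzT : z ∈ T' := by
    rw [hT', mem_filter, hT, mem_filter]
    refine ⟨⟨hz, fun A hA hzA => ?_, hc⟩, by omega⟩
    obtain ⟨c, -, rfl⟩ := mem_FamN.mp hA
    have := (mem_Am.mp hzA).2.2.1
    omega
  rw [Finset.sum_congr rfl (g := fun _ => (1 : ℤ))] at hs
  · rw [Finset.sum_const, nsmul_eq_mul, mul_one] at hs
    have h5 : T'.card = 0 := by exact_mod_cast hs
    rw [Finset.card_eq_zero] at h5
    rw [h5] at hzT
    exact absurd hzT (Finset.notMem_empty _)
  · intro y hy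
    rw [hT', mem_filter, hT, mem_filter] at hy
    rcases single_cases W J L hle hy.1.1 hy.1.2.2 with h | ⟨-, x, x', h, h2, h3, h4, h5, h6⟩ | h
    · exact (L.p0 y hy.1.1 h.2.1 h.2.2).2.2
    · exact (L.fb y hy.1.1 x x' h h2 h3 h4 h5 h6).2.2
    · exfalso
      have := hy.2
      omega

/-- members of the families -/
lemma Am.of (W : WL r 51 N b θ) {n : ℕ} (hn : n ≤ 51) {c z : P} (hc : Ank 51 N θ c)
    (hz : z ∈ bdR (r2 (2 * 7) N)) (hzc : z ⋖ c) (h : ct 7 2 z < n) : z ∈ Am n N θ c := by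
  classical
  obtain ⟨h1, -, -, h4, -, h6⟩ := hc.dat W
  have hlz : lev z = 16 := by
    have := (W.gt.H.covBy_iff.mp hzc).2
    omega
  have hle : h2 (2 * 7) N θ z ≤ 2 := by
    have := hcan_le (θ := th2 N θ) h4 hzc
    rw [h6] at this
    exact this
  have hcst : cst 7 (h2 (2 * 7) N θ) z ≤ ct 7 2 z := by
    unfold ct cst
    refine Finset.sum_le_sum fun w _ => ?_
    unfold ez
    split_ifs
    · exact min_le_min_right _ hle
    · exact le_rfl
  exact mem_Am.mpr ⟨hz, hzc, hlz, by omega⟩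

/-- **No join of a fold end and an end `(5;25)`.** -/
theorem Lad.no_fb (W : WL r 51 N b θ) (J : JH P) (L : Lad N θ) {z x x' : P} (hl : lev z = 15)
    (hx : Fd 7 x) (hx' : Prof 7 x' (gD p5)) (ht : topOf x ≠ topOf x') (hzx : z ⋖ x)
    (hzx' : z ⋖ x') : False := by
  classical
  have hlv : ∀ c z v : P, Ank 51 N θ c → z ⋖ c → KX N θ c z v → lev v = 15 := by
    intro c z v hc hzc hK
    have h1 := (W.gt.H.covBy_iff.mp hzc).2
    have h2 := (W.gt.H.covBy_iff.mp hK.1).2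
    have h3 := (hc.dat W).1
    omega
  -- energy 32
  have S32 : St 32 N θ := ⟨by norm_num, fun h => absurd h (by norm_num),
    fun h => absurd h (by norm_num), fun c z v hc _ hzc _ hK => Or.inl (by omega)⟩
  have hkp : ∀ c z : P, Ank 51 N θ c → z ∈ bdR (r2 (2 * 7) N) → z ⋖ c → ¬ KP c z := by
    intro c z hc hz hzc hK
    exact no_pol W J L S32 (by norm_num) (by norm_num) hc
      (Am.of W (by norm_num) hc hz hzc (by rw [hK.2.1]; norm_num))
      ⟨c, hc, hzc, Or.inl ⟨rfl, hK⟩⟩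
  -- energy 40
  have S40 : St 40 N θ := ⟨by norm_num, fun h => absurd h (by norm_num), fun _ => hkp,
    fun c z v hc _ hzc _ hK => Or.inl (by
      have := ct15 (hlv c z v hc hzc hK)
      omega)⟩
  have hp0 : ∀ p ∈ bdR (r2 (2 * 7) N), ¬ IsP0 51 N θ p := by
    intro p hp hP
    have hlp : lev p = 15 := by
      obtain ⟨t, lo, hi, e, A, L', hm⟩ := hP
      exact hm.1
    obtain ⟨h1, h2, h3⟩ := L.p0 p hp hlp hP
    refine no_single W J L S40 ?_ hp hlp h1 h2
    rintro c z hc hz ⟨c', hc', hzc', h | ⟨v, hv, h, -⟩⟩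
    · omega
    · have := ct15 (hlv c' z v hc' hzc' hv)
      omega
  have kill : ∀ n, n ≤ 49 → n ≠ 40 → St n N θ → ∀ c z v : P, Ank 51 N θ c →
      z ∈ bdR (r2 (2 * 7) N) → z ⋖ c → KX N θ c z v → n = 32 + ct 7 2 v → nab 9 v = nab 7 v →
      False := by
    intro n hn h40 S c z v hc hz hzc hK h1 h2
    refine no_pol W J L S h40 (by omega) hc (Am.of W (by omega) hc hz hzc ?_)
      ⟨c, hc, hzc, Or.inr ⟨v, hK, h1, h2⟩⟩
    have := hK.2.2.2.2.2.1
    omega
  -- energy 47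
  have S47 : St 47 N θ := ⟨by norm_num, fun _ => hp0, fun _ => hkp,
    fun c z v hc _ hzc _ hK => Or.inl (by
      have := ct15 (hlv c z v hc hzc hK)
      omega)⟩
  have k47 := kill 47 (by norm_num) (by norm_num) S47
  -- energy 48
  have hval : ∀ c z v : P, Ank 51 N θ c → z ∈ bdR (r2 (2 * 7) N) → z ⋖ c → KX N θ c z v →
      16 ≤ ct 7 2 v := by
    intro c z v hc hz hzc hK
    rcases hK.2.2.2.2.2.2.2.val (hlv c z v hc hzc hK) with h | h | h | h | h
    · exact (k47 c z v hc hz hzc hK (by omega) h.2.1).elim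
    · omega
    · omega
    · omega
    · omega
  have S48 : St 48 N θ := ⟨by norm_num, fun _ => hp0, fun _ => hkp,
    fun c z v hc hz hzc _ hK => Or.inl (by
      have := hval c z v hc hz hzc hK
      omega)⟩
  have k48 := kill 48 (by norm_num) (by norm_num) S48
  -- energy 49
  have hval : ∀ c z v : P, Ank 51 N θ c → z ∈ bdR (r2 (2 * 7) N) → z ⋖ c → KX N θ c z v →
      17 ≤ ct 7 2 v := by
    intro c z v hc hz hzc hK
    rcases hK.2.2.2.2.2.2.2.val (hlv c z v hc hzc hK) with h | h | h | h | h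
    · exact (k47 c z v hc hz hzc hK (by omega) h.2.1).elim
    · exact (k48 c z v hc hz hzc hK (by omega) h.2.1).elim
    · omega
    · omega
    · omega
  have S49 : St 49 N θ := ⟨by norm_num, fun _ => hp0, fun _ => hkp,
    fun c z v hc hz hzc _ hK => Or.inl (by
      have := hval c z v hc hz hzc hK
      omega)⟩
  have k49 := kill 49 (by norm_num) (by norm_num) S49
  -- energy 50
  have S50 : St 50 N θ := by
    refine ⟨le_rfl, fun _ => hp0, fun _ => hkp, fun c z v hc hz hzc _ hK => ?_⟩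
    rcases hK.2.2.2.2.2.2.2.val (hlv c z v hc hzc hK) with h | h | h | h | h
    · exact (k47 c z v hc hz hzc hK (by omega) h.2.1).elim
    · exact (k48 c z v hc hz hzc hK (by omega) h.2.1).elim
    · exact (k49 c z v hc hz hzc hK (by omega) h.2.1).elim
    · right
      rw [h.2.1, h.2.2.1 7 (by norm_num) (by norm_num)]
      norm_num
    · left
      omega
  have hz2 := W.join_r2 ht hzx hzx'
  have hz := W.mem_bd hz2 hl
  obtain ⟨h1, h2, h3⟩ := L.fb z hz x x' hl hx hx' ht hzx hzx'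
  refine no_single W J L S50 ?_ hz hl h1 h2
  rintro c y hc hy ⟨c', hc', hyc', h | ⟨v, hv, h, h'⟩⟩
  · omega
  · rcases hv.2.2.2.2.2.2.2.val (hlv c' y v hc' hyc' hv) with g | g | g | g | g
    · omega
    · omega
    · omega
    · omega
    · omega

end Pool.Agent.GaussPoset.W7
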