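import Pool.Agent.W_448w7_h94.WiK
import Pool.Agent.W_448s14_h94.SgL

/-!
The energy of the first pole, with families of blockers (MP_448cb3_co, S7, `j = 14`, window 7,
energy 31).
-/

namespace Pool.Agent.GaussPoset.W7

set_option linter.unusedSectionVars false

open Polynomial Finset Fi Cl Dd Wd

universe u

variable {P : Type u} [Fintype P] [PartialOrder P] [DecidableEq P]

/-- the dangerous configurations are the ones of the families -/
theorem DG_fam {i n : ℕ} {R : Finset P} {h : P → ℕ} (hlev : ∀ x ∈ R, i < lev x)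
    (Fam : Finset (Finset P)) (hFam : ∀ A ∈ Fam, ∀ z ∈ A, z ∈ bdR R)
    (hn : ∀ z ∈ bdR R, (∀ A ∈ Fam, z ∉ A) → n < cst i h z)
    (hpair : ∀ A ∈ Fam, ∀ z ∈ A, ∀ z' ∈ bdR R, z' ∉ A → n < Uu i h z z')
    (hdis : ∀ A ∈ Fam, ∀ A' ∈ Fam, A ≠ A' → ∀ z ∈ A, z ∉ A') :
    DG i R h n = ∑ A ∈ Fam, ZF i h A n := by
  classical
  have hle : ∀ (e : P → ℕ) (F : Finset P) (z : P), Vd i e F → z ∈ bdR R → Dgz h e F z →
      ∀ x, ez i h z x ≤ e x := fun e F z hV hz hd =>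
    ez_le hV (hlev z (mem_filter.mp hz).1) hd
  unfold DG ZF
  rw [Finset.sum_comm (s := Fam)]
  refine Finset.sum_congr rfl fun F _ => ?_
  rw [← Finset.sum_biUnion]
  · refine Finset.sum_congr ?_ (fun _ _ => rfl)
    ext e
    simp only [mem_biUnion, mem_filter]
    constructor
    · rintro ⟨h5, h6, z, hz, h7⟩
      have hs : ∑ x, e x = n := (mem_piAntidiag.mp h5).1
      by_contra hcon
      have h8 : ∀ A ∈ Fam, z ∉ A := by
        intro A hA hzA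
        exact hcon ⟨A, hA, h5, h6, z, hzA, h7⟩
      have h9 := hn z hz h8
      have h10 : cst i h z ≤ ∑ x, e x := Finset.sum_le_sum fun x _ => hle e F z h6 hz h7 x
      omega
    · rintro ⟨A, hA, h5, h6, z, hz, h7⟩
      exact ⟨h5, h6, z, hFam A hA z hz, h7⟩
  · intro A hA A' hA' hne
    simp only [Function.onFun]
    rw [Finset.disjoint_left]
    intro e he he'
    rw [mem_filter] at he he'
    obtain ⟨hs, hV, z, hz, hd⟩ := he
    obtain ⟨-, -, z', hz', hd'⟩ := he'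
    have hs' : ∑ x, e x = n := (mem_piAntidiag.mp hs).1
    have h8 := hpair A hA z hz z' (hFam A' hA' z' hz') (hdis A' hA' A hA (Ne.symm hne) z' hz')
    have h9 : Uu i h z z' ≤ ∑ x, e x := Finset.sum_le_sum fun x _ =>
      max_le (hle e F z hV (hFam A hA z hz) hd x) (hle e F z' hV (hFam A' hA' z' hz') hd' x)
    omega

/-- **The energy of the first pole**, with families. -/
theorem sub_fam {ι : Type*} [Fintype ι] [DecidableEq ι] {i n0 : ℕ} {R : Finset P}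
    (hR : ∀ x y, x ≤ y → y ∈ R → x ∈ R) (hRlev : ∀ x ∈ R, i < lev x)
    (cp : P → ι) (hcp : ∀ x y, x ≤ y → x ∉ R → cp x = cp y) (b : ι → ℕ) (θ : P → ℕ)
    (B : P → Prop) (hBR : ∀ x ∈ R, ¬ B x)
    (H : ∀ k, CompDataL R cp k i (b k) n0 θ B)
    (Fam : Finset (Finset P)) (hFam : ∀ A ∈ Fam, ∀ z ∈ A, z ∈ bdR R)
    (hn : ∀ z ∈ bdR R, (∀ A ∈ Fam, z ∉ A) → n0 < cst i (hcan R θ) z)
    (hpair : ∀ A ∈ Fam, ∀ z ∈ A, ∀ z' ∈ bdR R, z' ∉ A → n0 < Uu i (hcan R θ) z z')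
    (hdis : ∀ A ∈ Fam, ∀ A' ∈ Fam, A ≠ A' → ∀ z ∈ A, z ∉ A')
    (hF : ∀ A ∈ Fam, (1 + X : ℤ[X]) ^ (∑ k, b k) ∣ ZF i (hcan R θ) A n0) :
    (1 + X : ℤ[X]) ^ (∑ k, b k) ∣ Z P i n0 - Z {x : P // x ∉ R} i n0 := by
  classical
  rw [Z_split i R (hcan R θ) n0, DG_fam hRlev Fam hFam hn hpair hdis, ← ZB_off hR hRlev,
    add_sub_right_comm]
  refine dvd_add (ND_sub hRlev ?_ _ n0 ?_) (Finset.dvd_sum fun A hA => hF A hA)
  · intro z hz
    obtain ⟨x, -, -, hx⟩ := hcan_spec (θ := θ) hz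
    omega
  · intro g hg0 hg hs
    refine labelsL hR hRlev cp hcp b θ B hBR H g hg0 ?_ n0 (by omega)
    intro y hy x hx hyx
    have h1 : y ∈ bdR R := mem_filter.mpr ⟨hy, x, hx, hyx⟩
    have h2 := hg y h1
    have h3 := hcan_le (θ := θ) hx hyx
    omega

/-- exact order up to the energy `n0`: no pole -/
lemma pl_of_dvd {n0 b : ℕ} {f : Polynomial (PowerSeries ℤ)} (hb : 1 ≤ b) {m : ℕ}
    (h : ∀ n, n ≤ n0 → (1 + X : ℤ[X]) ^ b ∣ exq n f) (h0 : exq 0 f = X ^ m * (1 + X) ^ b) :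
    Pl n0 b 0 f := by
  refine ⟨fun n hn => h n hn.le, hb, X ^ m, 0, by rw [h0, mul_comm], ?_, ?_, ?_⟩
  · rw [eval_pow, eval_X]
    exact pow_ne_zero _ (by norm_num)
  · rw [mul_zero, sub_zero]
    exact h n0 le_rfl
  · rw [eval_zero, zero_mul]

/-- **No first pole**, the sum of the values is not zero, with families. -/
theorem no_first_pole_fam {ι : Type*} [Fintype ι] [DecidableEq ι] {i n0 : ℕ} (h0 : 1 ≤ n0)
    (hG : IsGaussian P) {R : Finset P}
    (hR : ∀ x y, x ≤ y → y ∈ R → x ∈ R) (hRlev : ∀ x ∈ R, i < lev x)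
    (cp : P → ι) (hcp : ∀ x y, x ≤ y → x ∉ R → cp x = cp y) (b : ι → ℕ) (θ : P → ℕ)
    (B : P → Prop) (hBR : ∀ x ∈ R, ¬ B x)
    (H : ∀ k, CompDataL R cp k i (b k) n0 θ B) (hb : ∀ k, 1 ≤ b k)
    (hsum : ∑ k, b k = (lv P i).card)
    (Fam : Finset (Finset P)) (hFam : ∀ A ∈ Fam, ∀ z ∈ A, z ∈ bdR R)
    (hn : ∀ z ∈ bdR R, (∀ A ∈ Fam, z ∉ A) → n0 < cst i (hcan R θ) z)
    (hpair : ∀ A ∈ Fam, ∀ z ∈ A, ∀ z' ∈ bdR R, z' ∉ A → n0 < Uu i (hcan R θ) z z')
    (hdis : ∀ A ∈ Fam, ∀ A' ∈ Fam, A ≠ A' → ∀ z ∈ A, z ∉ A')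
    (hF : ∀ A ∈ Fam, (1 + X : ℤ[X]) ^ (∑ k, b k) ∣ ZF i (hcan R θ) A n0) (ρ : ι → ℤ)
    (hpl : ∀ k, (ρ k = 0 ∧ ∀ n, n ≤ n0 → (1 + X : ℤ[X]) ^ b k ∣
        Z {x : {x : P // x ∉ R} // cp (x : P) = k} i n) ∨
      ∀ f, (∀ n, exq n f = Z {x : {x : P // x ∉ R} // cp (x : P) = k} i n) →
        Pl n0 (b k) (ρ k) f)
    (hρ : ∑ k, ρ k ≠ 0) : False := by
  classical
  have hne : (univ : Finset ι).Nonempty := by
    by_contra hcon
    rw [Finset.not_nonempty_iff_eq_empty] at hcon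
    rw [hcon, Finset.sum_empty] at hρ
    exact hρ rfl
  have h1 := sub_fam hR hRlev cp hcp b θ B hBR H Fam hFam hn hpair hdis hF
  rw [hsum] at h1
  have h2 := dvd_Z hG i n0
  have h3 : (1 + X : ℤ[X]) ^ (lv P i).card ∣ Z {x : P // x ∉ R} i n0 := by
    have := dvd_sub h2 h1
    rwa [sub_sub_cancel] at this
  have hc : ∀ x y : {x : P // x ∉ R}, x ≤ y → cp (x : P) = cp (y : P) := fun x y hxy =>
    hcp x y hxy x.2
  choose f hf hf' using fun k => exists_norm {x : {x : P // x ∉ R} // cp (x : P) = k} i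
  have hprod := Z_prod (fun x : {x : P // x ∉ R} => cp (x : P)) hc i f hf
  have hR' : ∀ x : {x : P // x ∉ R}, lev x = lev (x : P) :=
    lev_subtype (p := fun x => x ∉ R) (fun x y hxy hx => fun h => hx (hR x y hxy h))
  have hlv : (lv P i).card = (lv {x : P // x ∉ R} i).card := by
    refine (Finset.card_bij (fun (x : {x : P // x ∉ R}) _ => (x : P)) ?_ ?_ ?_).symm
    · intro x hx
      rw [mem_lv] at hx ⊢
      rw [← hR', hx]
    · intro x _ y _ h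
      exact Subtype.ext h
    · intro x hx
      rw [mem_lv] at hx
      have hxR : x ∉ R := fun h => by have := hRlev x h; omega
      exact ⟨⟨x, hxR⟩, by rw [mem_lv, hR']; exact hx, rfl⟩
  have hlv2 := card_lv_prod (fun x : {x : P // x ∉ R} => cp (x : P)) hc i
  have hz0 : ∀ k, exq 0 (f k) =
      X ^ (below {x : {x : P // x ∉ R} // cp (x : P) = k} i) *
        (1 + X) ^ (lv {x : {x : P // x ∉ R} // cp (x : P) = k} i).card := fun k => by
    rw [hf', Z_zero]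
  have hgood : GaussPoset.Good i R B R := ⟨hR, Subset.refl R, hRlev, hBR⟩
  have hle : ∀ k ∈ (univ : Finset ι), b k ≤
      (lv {x : {x : P // x ∉ R} // cp (x : P) = k} i).card := by
    intro k _
    have h4 := (H k).clean R hgood inferInstance 0 (by omega)
    rw [Z_zero] at h4
    exact le_of_pow_dvd h4
  have heq := (Finset.sum_eq_sum_iff_of_le hle).mp (by rw [hsum, hlv, hlv2])
  have hP : Pl n0 (∑ k, b k) (∑ k, ρ k) (∏ k, f k) := by
    refine Pl.prod h0 univ hne fun k hk => ?_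
    rcases hpl k with ⟨h4, h5⟩ | h4
    · rw [h4]
      exact pl_of_dvd (hb k) (fun n hn => by rw [hf']; exact h5 n hn) (m := below
        {x : {x : P // x ∉ R} // cp (x : P) = k} i) (by rw [hz0, heq k hk])
    · exact h4 (f k) (hf' k)
  refine hP.not_dvd hρ ?_
  rw [hsum, ← hprod]
  exact h3

end Pool.Agent.GaussPoset.W7
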