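import Pool.Agent.W_448w7_h94.WiL

/-!
Energy 31: the boundary of the system without the twins costs at least 32, except the pendants
of the anchors (MP_448cb3_co, S7, `j = 14`, window 7).
-/

namespace Pool.Agent.GaussPoset.W7

set_option linter.unusedSectionVars false

open Polynomial Finset Fi Cl Dd Wd

universe u

variable {P : Type u} [Fintype P] [PartialOrder P] [DecidableEq P] {r n0 : ℕ}
  {N : Tops P → Finset P} {b : Tops P → ℕ} {θ : Tops P → P → ℕ}

/-- cells of level 15 of rectangles, labels from the cells of level 14 -/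
lemma rect15 : ∀ s ≤ 15, (1 ≤ s → 32 ≤ ∑ a ∈ range (s + 1),
      rowW false (fun l => min ((s - 1 - 7) + (15 - s - 7) + 1) (l - 7)) (15 - s) 15 a) ∧
    (s ≤ 14 → 32 ≤ ∑ a ∈ range (s + 1),
      rowW false (fun l => min ((s - 7) + (14 - s - 7) + 1) (l - 7)) (15 - s) 15 a) := by
  decide +kernel

/-- cells of level 15 of stairs, labels from the cells of level 14 -/
lemma stair15 : ∀ s ≤ 7, (1 ≤ s → 32 ≤ ∑ a ∈ range (s + 1),
      rowW true (fun l => min ((s - 1 - 6) + (15 - s - 7) + 1) (l - 7)) (15 - s) 15 a) ∧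
    32 ≤ ∑ a ∈ range (s + 1),
      rowW true (fun l => min ((s - 6) + (14 - s - 7) + 1) (l - 7)) (15 - s) 15 a := by
  decide +kernel

/-- full labels -/
lemma ct8 {z : P} (hl : lev z = 15) : 36 ≤ ct 7 8 z := by
  rw [ct_topI (m := 7) (i := 7) (k := 8) (q := fun d => nab (2 * 7 - d) z) (by norm_num) hl
    (by norm_num) (fun _ _ => rfl)]
  unfold vsQ
  simp only [Finset.sum_range_succ, Finset.sum_range_zero]
  have h : ∀ l, l ≤ 14 → 1 ≤ nab l z := fun l hl2 => one_le_nab (by omega)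
  have g8 := h 8 (by norm_num)
  have g9 := h 9 (by norm_num)
  have g10 := h 10 (by norm_num)
  have g11 := h 11 (by norm_num)
  have g12 := h 12 (by norm_num)
  have g13 := h 13 (by norm_num)
  have g14 := h 14 (by norm_num)
  norm_num
  omega

/-- **the cost of a twin** -/
theorem WL.tw32 (W : WL r n0 N b θ) {z x : P} (hz : z ∈ twY (2 * 7) N) (hzx : z ⋖ x) :
    32 ≤ ct 7 (θ (topOf x) x + 1) z := by
  classical
  have H := W.gt.H
  have h1 := mem_twY.mp hz
  have h3 := twT_spec h1.2.2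
  have hcov := W.twSys.cov (y := x) hz
  obtain ⟨y, hy⟩ : ∃ y, twT N z = y := ⟨_, rfl⟩
  rw [hy] at h3 hcov
  have hyx := hcov.mpr hzx
  have hlz : lev z = 15 := h1.2.1
  have hly : lev y = 15 := by rw [lev_eq_of_up h3.2]; exact hlz
  have hlx : lev x = 14 := by
    have := (H.covBy_iff.mp hzx).2
    omega
  have htx : topOf y = topOf x := W.natSys.cp y x hyx.1.le h3.1
  have hyN : y ∈ N (topOf x) := W.natSys.mem_iff.mpr ⟨h3.1, htx⟩
  have hct : ∀ k, ct 7 k z = ct 7 k y := fun k => (ct_congr_up fun w => h3.2 w).symm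
  have hfull : Fi.Full 7 7 N θ y → False := fun h => h.tw z h1.1 h3.2
  have hxl : x ∈ lowPart (2 * 7) (topOf x : P) := mem_lowPart.mpr ⟨le_topOf x, hlx.le⟩
  rcases W.tc (topOf x) with ⟨g1, g2, g3, g5, g6, g8, g9⟩ | ⟨Nc, co, g0, g1, g2, g3⟩ |
    ⟨Nc, co, g0, g1, g2, g3, g4⟩ | ⟨g, hb⟩ | ⟨lo, hi, e, A, g, hb⟩ | ⟨g1, g2, g3, g4⟩
  · rw [← htx] at g1 g2
    exact (hfull (W.light_case h3.1 g1 g2)).elim
  · have hxN := g0.strip hxl
    have hyc : y ∈ Nc := by
      rw [g1, mem_natR] at hyN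
      rcases hyN with h | h | h
      · exact h
      · exfalso
        refine mem_unnat.mp h1.1 (topOf x) ?_
        rw [g1, mem_natR]
        exact Or.inr (Or.inl (junk_twin h h3.2))
      · exfalso
        refine mem_unnat.mp h1.1 (topOf x) ?_
        rw [g1, mem_natR]
        exact Or.inr (Or.inr (junk_twin h h3.2))
    have hcl := g0.chart.lev y hyc
    have hxc := g0.chart.lev x hxN
    have hb := g0.b_le
    have hth : ((co x).1 - 7) + ((co x).2 - 7) ≤ θ (topOf x) x := by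
      rw [g2]
      unfold thR
      split_ifs
      · omega
      · omega
    have hc := (chart_cov g0.chart H hyc hxN).mp hyx
    have h6 := fun k => ct_chart g0.chart (shift := false) (by simp) hyc 7 k
    have h7 := rect15 (co y).1 (by omega)
    rw [hct]
    rcases hc with ⟨e1, e2⟩ | ⟨e1, e2⟩
    · refine le_trans ?_ (ct_mono (i := 7) le_rfl (show ((co y).1 - 1 - 7) +
        (15 - (co y).1 - 7) + 1 ≤ θ (topOf x) x + 1 by omega))
      rw [h6, hly, show (co y).2 = 15 - (co y).1 by omega]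
      exact h7.1 (by omega)
    · refine le_trans ?_ (ct_mono (i := 7) le_rfl (show ((co y).1 - 7) +
        (14 - (co y).1 - 7) + 1 ≤ θ (topOf x) x + 1 by omega))
      rw [h6, hly, show (co y).2 = 15 - (co y).1 by omega]
      exact h7.2 (by omega)
  · have hxN := g0.strip hxl
    have hyc : y ∈ Nc := by
      rw [g1, mem_natS] at hyN
      rcases hyN with h | h
      · exact h
      · exfalso
        refine mem_unnat.mp h1.1 (topOf x) ?_
        rw [g1, mem_natS]
        exact Or.inr (junk_twin h h3.2)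
    have hcl := g0.chart.lev y hyc
    have hxc := g0.chart.lev x hxN
    have hS : (co y).1 ≤ (co y).2 := g0.chart.mem y hyc
    have hSx : (co x).1 ≤ (co x).2 := g0.chart.mem x hxN
    have hth : ((co x).1 - 6) + ((co x).2 - 7) ≤ θ (topOf x) x := by
      rw [g2]
      unfold thS
      split_ifs
      · omega
      · omega
    have hc := (chart_cov g0.chart H hyc hxN).mp hyx
    have h6 := fun k => ct_chart g0.chart (shift := true) (by simp) hyc 7 k
    have h7 := stair15 (co y).1 (by omega)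
    rw [hct]
    rcases hc with ⟨e1, e2⟩ | ⟨e1, e2⟩
    · refine le_trans ?_ (ct_mono (i := 7) le_rfl (show ((co y).1 - 1 - 6) +
        (15 - (co y).1 - 7) + 1 ≤ θ (topOf x) x + 1 by omega))
      rw [h6, hly, show (co y).2 = 15 - (co y).1 by omega]
      exact h7.1 (by omega)
    · refine le_trans ?_ (ct_mono (i := 7) le_rfl (show ((co y).1 - 6) +
        (14 - (co y).1 - 7) + 1 ≤ θ (topOf x) x + 1 by omega))
      rw [h6, hly, show (co y).2 = 15 - (co y).1 by omega]
      exact h7.2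
  · exact absurd h3.2 (g.h10 z h1.1 y hyN hly)
  · have hL : Lx n0 N θ y := by
      refine ⟨by rw [htx]; exact hyN, lo, hi, e, A, ?_⟩
      rw [htx]
      exact g
    exact absurd h3.2 (hL.tw W hly h1.1)
  · rw [g1] at hyN
    have := (mem_lowPart.mp hyN).2
    omega

/-- the natural thresholds -/
noncomputable def th1 (θ : Tops P → P → ℕ) : P → ℕ := fun x => θ (topOf x) x

lemma th2_le {x : P} (h : x ∉ unnat N) : th2 N θ x = th1 θ x := by
  unfold th2 th1
  rw [thX_not (fun h' => h (mem_twY.mp h').1)]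

/-- more twins, smaller labels -/
lemma h2_le {z : P} (hz : z ∈ bdR (unnat N)) :
    h2 (2 * 7) N θ z ≤ hcan (unnat N) (th1 θ) z := by
  classical
  obtain ⟨x, hx, hzx, hh⟩ := hcan_spec (θ := th1 θ) hz
  have hx2 : x ∉ r2 (2 * 7) N := fun h => hx (mem_sdiff.mp h).1
  have h3 := hcan_le (θ := th2 N θ) hx2 hzx
  rw [th2_le hx] at h3
  rw [hh]
  exact h3

lemma cst_mono {i : ℕ} {h h' : P → ℕ} {z : P} (hh : h z ≤ h' z) : cst i h z ≤ cst i h' z := by
  unfold cst
  refine Finset.sum_le_sum fun w _ => ?_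
  unfold ez
  split_ifs
  · exact min_le_min_right _ hh
  · exact le_rfl

/-- **the boundary of the system without the twins** -/
theorem WL.bd31 (W : WL r n0 N b θ) (J : JH P)
    (hp0 : ∀ z ∈ r2 (2 * 7) N, IsP0 n0 N θ z → cst 7 (h2 (2 * 7) N θ) z = 40)
    (hfb : ∀ z x x' : P, Fd 7 x → Prof 7 x' (gD p5) → topOf x ≠ topOf x' → z ⋖ x → z ⋖ x' →
      cst 7 (h2 (2 * 7) N θ) z = 50) {z : P} (hz : z ∈ bdR (unnat N)) :
    32 ≤ cst 7 (hcan (unnat N) (th1 θ)) z ∨
      (lev z = 16 ∧ z ∈ bdR (r2 (2 * 7) N) ∧ h2 (2 * 7) N θ z = 2 ∧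
        hcan (unnat N) (th1 θ) z = 2 ∧ ∃ c, Ank n0 N θ c ∧ z ⋖ c) := by
  classical
  have hz' := hz
  obtain ⟨hzR, x, hxR, hzx⟩ := mem_filter.mp hz'
  have hmono := cst_mono (i := 7) (h2_le (θ := θ) hz)
  by_cases hY : z ∈ twY (2 * 7) N
  · left
    obtain ⟨y, hy, hzy, hh⟩ := hcan_spec (θ := th1 θ) hz
    rw [cst_ct (k := θ (topOf y) y + 1) hh]
    exact W.tw32 hY hzy
  · have hz2 : z ∈ r2 (2 * 7) N := mem_sdiff.mpr ⟨hzR, hY⟩
    have hzb : z ∈ bdR (r2 (2 * 7) N) :=
      mem_filter.mpr ⟨hz2, x, fun h => hxR (mem_sdiff.mp h).1, hzx⟩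
    rcases W.bd hzb with hl | h1 | ⟨hl, h2, c, hc, hzc⟩
    · left
      rcases W.rows J hz2 hl with ⟨t, lo, hi, e, A, L', hm⟩ | ⟨x, x', g1, g2, g3, g4, g5⟩ |
        ⟨g, -⟩
      · have := hp0 z hz2 ⟨t, lo, hi, e, A, L', hm⟩
        omega
      · have := hfb z x x' g1 g2 g3 g4 g5
        omega
      · omega
    · left
      omega
    · right
      refine ⟨hl, hzb, h2, ?_, c, hc, hzc⟩
      have e1 := h2_le (θ := θ) hz
      obtain ⟨-, -, h3, -, h5, -⟩ := hc.dat W
      have e2 := hcan_le (θ := th1 θ) h3 hzc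
      have e3 : th1 θ c = 1 := h5
      omega

end Pool.Agent.GaussPoset.W7
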