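import Pool.Agent.W_448w7_h94.WiM
import Pool.Agent.W_448s7s_h5.TvH

/-!
Energy 31: the pendants of the anchors are clean (MP_448cb3_co, S7, `j = 14`, window 7).
-/

namespace Pool.Agent.GaussPoset.W7

set_option linter.unusedSectionVars false

open Polynomial Finset Fi Cl Dd Wd

universe u

variable {P : Type u} [Fintype P] [PartialOrder P] [DecidableEq P] {r n0 : ℕ}
  {N : Tops P → Finset P} {b : Tops P → ℕ} {θ : Tops P → P → ℕ}

/-- the inputs at the energy 31 -/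
structure L31 (N : Tops P → Finset P) (θ : Tops P → P → ℕ) : Prop where
  sp : ∀ c : P, Ank 31 N θ c → Sp 7 31 (r2 (2 * 7) N) (th2 N θ) (topOf c) c (Dn 31 N c)
  c16 : ∀ c z : P, Ank 31 N θ c → z ∈ bdR (r2 (2 * 7) N) → z ⋖ c →
    C16 31 N θ c z ∧ (ct 7 2 z ≤ 50 → nab 7 z ≤ nab 9 z)
  h3 : ∀ c z x y : P, Ank 31 N θ c → h2 (2 * 7) N θ z = 2 → z ⋖ c → lev z = 16 →
    (∀ u, z ⋖ u → u ∉ r2 (2 * 7) N) → y ∈ r2 (2 * 7) N → x ∉ r2 (2 * 7) N →
    topOf x = topOf c → y ⋖ x → y ≠ z →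
    ct 7 2 z + 11 ≤ ∑ w, max (ez 7 (h2 (2 * 7) N θ) z w) (ez 7 (fun _ => 3) y w)
  p0 : ∀ z ∈ r2 (2 * 7) N, IsP0 31 N θ z → cst 7 (h2 (2 * 7) N θ) z = 40
  fb : ∀ z x x' : P, Fd 7 x → Prof 7 x' (gD p5) → topOf x ≠ topOf x' → z ⋖ x → z ⋖ x' →
    cst 7 (h2 (2 * 7) N θ) z = 50
  vA : ∀ (t : Tops P) (lo hi : ℕ → ℕ) (e : ℕ → ℕ → P) (A : Finset P),
    LaD 31 N (θ t) t lo hi e A → (∃ c, JA e A c) → ∀ n, n ≤ 31 →
      (1 + X : ℤ[X]) ^ 2 ∣ Z {x // x ∈ lowPart (2 * 7) (t : P) ∪ A} 7 n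
  vB : ∀ (t : Tops P) (lo hi : ℕ → ℕ) (e : ℕ → ℕ → P) (A : Finset P),
    LaD 31 N (θ t) t lo hi e A → (∃ c c', JB e A c c') → ∀ f,
      (∀ n, exq n f = Z {x // x ∈ lowPart (2 * 7) (t : P) ∪ A} 7 n) → Pl 31 2 (-1) f

/-- the pendants of the anchors -/
lemma Ank.pend (W : WL r n0 N b θ) {c z : P} (hc : Ank n0 N θ c) (hz : Pend z c) :
    lev z = 16 ∧ ct 7 2 z = 30 ∧ ct 7 3 z = 42 := by
  obtain ⟨lo, hi, e, A, L, hA, hm⟩ := hc
  have h1 := (W.gt.H.covBy_iff.mp hz.1).2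
  have h2 := Tv.pend_c34 L.word L.comp W.gt (topOf c).2 hm hz
  have h3 := (Tv.c34_facts L.word L.comp W.gt (topOf c).2 hm).2.1
  have h4 := Tv.ct_of_pend (i := 7) (k := 3) hz
  rw [h3] at h4
  have h5 := hm.1
  omega

open Classical in
/-- the pendants of `c` -/
noncomputable def Pm (N : Tops P → Finset P) (c : P) : Finset P :=
  (bdR (unnat N)).filter (fun z => Pend z c)

lemma mem_Pm {c z : P} : z ∈ Pm N c ↔ z ∈ bdR (unnat N) ∧ Pend z c := by
  classical
  unfold Pm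
  rw [mem_filter]

lemma ZF_congr {i n : ℕ} {h h' : P → ℕ} {A : Finset P} (hA : ∀ z ∈ A, h z = h' z) :
    ZF i h A n = ZF i h' A n := by
  classical
  unfold ZF
  refine Finset.sum_congr rfl fun F _ => Finset.sum_congr ?_ (fun _ _ => rfl)
  refine Finset.filter_congr fun e _ => ?_
  refine and_congr_right fun _ => ?_
  constructor
  · rintro ⟨z, hz, hd⟩
    refine ⟨z, hz, ?_⟩
    unfold Dgz at hd ⊢
    rw [← hA z hz]
    exact hd
  · rintro ⟨z, hz, hd⟩
    refine ⟨z, hz, ?_⟩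
    unfold Dgz at hd ⊢
    rw [hA z hz]
    exact hd

/-- two pendants of different anchors -/
lemma Uu_pend (H : Gr P r) {h : P → ℕ} {c c' z z' : P} (hc : lev c = 15) (hc' : lev c' = 15)
    (hne : c' ≠ c) (hz : Pend z c) (hz' : Pend z' c') (h1 : h z = 2) (h2 : h z' = 2)
    (h3 : ct 7 2 z = 30) : 34 ≤ Uu 7 h z z' := by
  classical
  have hlz := (H.covBy_iff.mp hz.1).2
  have hlz' := (H.covBy_iff.mp hz'.1).2
  have hzz : ¬ z ≤ z' := by
    intro hle
    rcases eq_or_lt_of_le hle with e | e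
    · rw [e] at hz
      exact hne (hz.2 c' hz'.1)
    · have := lev_strictAnti e
      omega
  have hzc : ¬ z ≤ c' := by
    intro hle
    have hlt : z < c' := lt_of_le_of_ne hle (by rintro rfl; omega)
    obtain ⟨v, hv, hvc⟩ := Hul.exists_cov hlt
    rw [hz.2 v hv] at hvc
    rcases eq_or_lt_of_le hvc with e | e
    · exact hne e.symm
    · have := lev_strictAnti e
      omega
  have hcz : c' ≠ z' := by
    intro e
    have : lev c' = lev z' := by rw [e]
    omega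
  have e0 : (4 : ℕ) = ∑ w, ((if w = z' then 2 else 0) + (if w = c' then 2 else 0)) := by
    rw [Finset.sum_add_distrib, Finset.sum_ite_eq' univ z', Finset.sum_ite_eq' univ c',
      if_pos (mem_univ _), if_pos (mem_univ _)]
  have e1 : cst 7 h z = 30 := by
    rw [cst_ct h1, h3]
  have e2 : cst 7 h z + 4 ≤ Uu 7 h z z' := by
    rw [e0]
    unfold cst Uu
    rw [← Finset.sum_add_distrib]
    refine Finset.sum_le_sum fun w _ => ?_
    unfold ez
    rw [h1, h2]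
    by_cases hw : w = z'
    · have a1 : ¬ z ≤ w := by rw [hw]; exact hzz
      have a2 : ¬ w = c' := by rw [hw]; exact Ne.symm hcz
      have a3 : z' ≤ w := by rw [hw]
      have a4 : lev w = 16 := by rw [hw]; omega
      rw [if_neg a1, if_pos hw, if_neg a2, if_pos a3, a4]
      norm_num
    · rw [if_neg hw]
      by_cases hw' : w = c'
      · have a1 : ¬ z ≤ w := by rw [hw']; exact hzc
        have a3 : z' ≤ w := by rw [hw']; exact hz'.1.le
        have a4 : lev w = 15 := by rw [hw']; exact hc'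
        rw [if_neg a1, if_pos hw', if_pos a3, a4]
        norm_num
      · rw [if_neg hw']
        exact le_max_left _ _
  omega

/-- the members of the families -/
lemma Pm.dat (W : WL r 31 N b θ) (J : JH P) (L : L31 N θ) {c z : P} (hc : Ank 31 N θ c)
    (hz : z ∈ Pm N c) : lev z = 16 ∧ z ∈ bdR (r2 (2 * 7) N) ∧ h2 (2 * 7) N θ z = 2 ∧
      hcan (unnat N) (th1 θ) z = 2 ∧ ct 7 2 z = 30 ∧ ct 7 3 z = 42 := by
  obtain ⟨h1, h2⟩ := mem_Pm.mp hz
  obtain ⟨g1, g2, g3⟩ := hc.pend W h2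
  rcases W.bd31 J L.p0 L.fb h1 with h | ⟨e1, e2, e3, e4, -⟩
  · exfalso
    have e3 := (hc.dat W).2.2.1
    have e4 := hcan_le (θ := th1 θ) e3 h2.1
    have e5 : th1 θ c = 1 := (hc.dat W).2.2.2.2.1
    have e6 : cst 7 (hcan (unnat N) (th1 θ)) z ≤ ct 7 2 z := by
      unfold ct cst
      refine Finset.sum_le_sum fun w _ => ?_
      unfold ez
      split_ifs
      · refine min_le_min_right _ ?_
        show hcan (unnat N) (th1 θ) z ≤ 2
        omega
      · exact le_rfl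
    omega
  · exact ⟨g1, e2, e3, e4, g2, g3⟩

/-- **the costs at the energy 31** -/
theorem Pm.out (W : WL r 31 N b θ) (J : JH P) (L : L31 N θ) {z : P} (hz : z ∈ bdR (unnat N))
    (h : ∀ c, Ank 31 N θ c → z ∉ Pm N c) : 31 < cst 7 (hcan (unnat N) (th1 θ)) z := by
  rcases W.bd31 J L.p0 L.fb hz with h1 | ⟨e1, e2, e3, e4, c, hc, hzc⟩
  · omega
  · rw [cst_ct e4]
    rcases (L.c16 c z hc e2 hzc).1 with ⟨g1, g2, g3⟩ | ⟨d, g1, g2, g3, g4, g5, g6, g7, g8⟩ |
      ⟨g0, d, g1, g2, g3, g4, g5, g6⟩ | ⟨p, g1, g2, g3, g4, g5⟩ |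
      ⟨v, g1, g2, g3, g4, g5, g6, g7, g8⟩ | g
    · exact absurd (mem_Pm.mpr ⟨hz, hzc, g1⟩) (h c hc)
    · omega
    · omega
    · omega
    · have hlv : lev v = 15 := by
        have := (W.gt.H.covBy_iff.mp g1).2
        omega
      have := ct15 hlv
      omega
    · omega

/-- **the pendants of an anchor are clean at the energy 31** -/
theorem Pm.clean (W : WL r 31 N b θ) (J : JH P) (L : L31 N θ) {c : P} (hc : Ank 31 N θ c) :
    (1 + X : ℤ[X]) ^ (lv P 7).card ∣ ZF 7 (hcan (unnat N) (th1 θ)) (Pm N c) 31 := by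
  classical
  obtain ⟨hc1, hc2, hc3, hc4, hc5, hc6⟩ := hc.dat W
  have hlab : h2 (2 * 7) N θ = hcan (r2 (2 * 7) N) (th2 N θ) := rfl
  have hcongr : ZF 7 (hcan (unnat N) (th1 θ)) (Pm N c) 31 =
      ZF 7 (hcan (r2 (2 * 7) N) (th2 N θ)) (Pm N c) 31 := by
    refine ZF_congr fun z hz => ?_
    obtain ⟨-, -, e1, e2, -, -⟩ := Pm.dat W J L hc hz
    rw [e2, ← hlab, e1]
  rw [hcongr]
  have key := (L.sp c hc).fam (A := Pm N c) (n := 31) (p := fun _ => False)
    (k := fun _ => below P 7 + 7) ?_ le_rfl ?_ ?_ ?_ ?_ ?_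
  · rw [Finset.filter_false_of_mem (fun _ _ h => h), Finset.sum_empty, sub_zero] at key
    exact key
  · intro d hd
    unfold Dn at hd
    rw [if_neg (by norm_num)] at hd
    exact absurd hd (Finset.notMem_empty d)
  · intro z hz
    obtain ⟨e1, e2, -⟩ := Pm.dat W J L hc hz
    exact ⟨e2, (mem_Pm.mp hz).2.1, e1⟩
  · intro z hz x hzx
    rw [(mem_Pm.mp hz).2.2 x hzx]
    exact ⟨hc4, by omega, fun h => absurd rfl h⟩
  · intro z hz y hy x hx hxt hyx
    obtain ⟨e1, e2, e3, -, e5, e6⟩ := Pm.dat W J L hc hz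
    rw [← hlab]
    by_cases hyz : y = z
    · subst hyz
      rw [← uni_self e3]
      omega
    · have h5 := L.h3 c z x y hc e3 (mem_Pm.mp hz).2.1 e1 (fun u hu => by
        rw [(mem_Pm.mp hz).2.2 u hu]
        exact hc4) hy hx hxt hyx hyz
      omega
  · intro z hz y hy hyA
    obtain ⟨e1, e2, e3, -, e5, e6⟩ := Pm.dat W J L hc hz
    rw [← hlab]
    have hr := Uu_right 7 (h2 (2 * 7) N θ) z y
    rcases W.bd hy with hl | h1 | ⟨hl, h2', c', hc', hyc⟩
    · rcases W.rows J (mem_filter.mp hy).1 hl with ⟨t, lo, hi, e, A, L', hm⟩ |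
        ⟨x, x', g1, g2, g3, g4, g5⟩ | ⟨g, -⟩
      · have := L.p0 y (mem_filter.mp hy).1 ⟨t, lo, hi, e, A, L', hm⟩
        omega
      · have := L.fb y x x' g1 g2 g3 g4 g5
        omega
      · omega
    · omega
    · have hcy := cst_ct (i := 7) h2'
      rcases (L.c16 c' y hc' hy hyc).1 with ⟨g1, g2, g3⟩ |
        ⟨d, g1, g2, g3, g4, g5, g6, g7, g8⟩ | ⟨g0, d, g1, g2, g3, g4, g5, g6⟩ |
        ⟨p, g1, g2, g3, g4, g5⟩ | ⟨v, g1, g2, g3, g4, g5, g6, g7, g8⟩ | g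
      · have hyR : y ∈ unnat N := (mem_sdiff.mp (mem_filter.mp hy).1).1
        have hyb : y ∈ bdR (unnat N) :=
          mem_filter.mpr ⟨hyR, c', (hc'.dat W).2.2.1, hyc⟩
        have hne : c' ≠ c := by
          intro e
          rw [e] at hyc g1
          exact hyA (mem_Pm.mpr ⟨hyb, hyc, g1⟩)
        have := Uu_pend W.gt.H hc1 (hc'.dat W).1 hne (mem_Pm.mp hz).2 ⟨hyc, g1⟩ e3 h2' e5
        omega
      · omega
      · omega
      · omega
      · have hlv : lev v = 15 := by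
          have := (W.gt.H.covBy_iff.mp g1).2
          omega
        have := ct15 hlv
        omega
      · omega
  · intro z hz
    exact Kd.P (mem_Pm.mp hz).2.2 (by norm_num) (by norm_num) (fun h => absurd h (by simp))

end Pool.Agent.GaussPoset.W7
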