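import Pool.Agent.W_448w7_h94.WiN

/-!
Energy 31: **no component with the second pattern** (MP_448cb3_co, S7, `j = 14`, window 7).
-/

namespace Pool.Agent.GaussPoset.W7

set_option linter.unusedSectionVars false

open Polynomial Finset Fi Cl Dd Wd

universe u

variable {P : Type u} [Fintype P] [PartialOrder P] [DecidableEq P] {r n0 : ℕ}
  {N : Tops P → Finset P} {b : Tops P → ℕ} {θ : Tops P → P → ℕ}

open Classical in
/-- the families of the pendants -/
noncomputable def FamP (N : Tops P → Finset P) (θ : Tops P → P → ℕ) : Finset (Finset P) :=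
  (univ.filter (fun c : P => Ank 31 N θ c)).image (Pm N)

lemma mem_FamP {A : Finset P} : A ∈ FamP N θ ↔ ∃ c, Ank 31 N θ c ∧ Pm N c = A := by
  classical
  unfold FamP
  rw [mem_image]
  constructor
  · rintro ⟨c, h1, h2⟩
    exact ⟨c, (mem_filter.mp h1).2, h2⟩
  · rintro ⟨c, h1, h2⟩
    exact ⟨c, mem_filter.mpr ⟨mem_univ _, h1⟩, h2⟩

/-- the components with the second pattern -/
def IsJB (N : Tops P → Finset P) (b : Tops P → ℕ) (θ : Tops P → P → ℕ) (t : Tops P) : Prop :=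
  b t = 2 ∧ ∃ lo hi e A, LaD 31 N (θ t) t lo hi e A ∧ ∃ c c', JB e A c c'

lemma part_iff {t : Tops P} {lo hi : ℕ → ℕ} {e : ℕ → ℕ → P} {A : Finset P} {θ : P → ℕ}
    (h : LaD n0 N θ t lo hi e A) (x : P) :
    x ∈ lowPart (2 * 7) (t : P) ∪ A ↔ x ∈ N t ∧ x ∉ unnat N := by
  rw [← h.nat]
  exact ⟨fun h => ⟨h, fun h' => mem_unnat.mp h' t h⟩, fun h => h.1⟩

/-- the instance does not matter -/
lemma Z_fin {Q : Type u} [PartialOrder Q] [DecidableEq Q] (i1 i2 : Fintype Q) (i n : ℕ) :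
    @Z Q i1 _ _ i n = @Z Q i2 _ _ i n := by
  have h : i1 = i2 := Subsingleton.elim _ _
  subst h
  rfl

/-- the part of a strip -/
lemma Z_part (W : WL r n0 N b θ) {t : Tops P} {lo hi : ℕ → ℕ} {e : ℕ → ℕ → P} {A : Finset P}
    (h : LaD n0 N (θ t) t lo hi e A) (n : ℕ) :
    Z {x : {x : P // x ∉ unnat N} // topOf (x : P) = t} 7 n =
      Z {x // x ∈ lowPart (2 * 7) (t : P) ∪ A} 7 n := by
  rw [← Z_iso (Sg.isoPart W.natSys t (Subset.refl _) (lowPart (2 * 7) (t : P) ∪ A)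
    (part_iff h)) 7 n]
  exact Z_fin _ _ 7 n

/-- the other components are clean -/
lemma clean31 (W : WL r 31 N b θ) (L : L31 N θ) {t : Tops P} (ht : ¬ IsJB N b θ t) :
    ∀ n, n ≤ 31 → (1 + X : ℤ[X]) ^ b t ∣
      Z {x : {x : P // x ∉ unnat N} // topOf (x : P) = t} 7 n := by
  classical
  have HN := W.natSys
  intro n hn
  have hNT : ∀ B, NatTop 7 t (b t) (N t) (θ t) B → (1 + X : ℤ[X]) ^ b t ∣
      Z {x : {x : P // x ∉ unnat N} // topOf (x : P) = t} 7 n := by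
    intro B hB
    have h1 := F6.compL_of_natTop (B := fun _ => B) hB HN 51 (fun _ _ => Iff.rfl)
    refine h1.clean (unnat N) ⟨HN.lower, Subset.refl _, fun x hx => ?_, fun x hx h => h.1 hx⟩
      inferInstance n (by omega)
    have := W.lt_lev hx
    omega
  rcases W.tc t with ⟨h1, h2, h3, h5, h6, h8, h9⟩ | ⟨Nc, co, h0, h1, h2, h3⟩ |
    ⟨Nc, co, h0, h1, h2, h3, h4⟩ | ⟨h, hb⟩ | ⟨lo, hi, e, A, h, hb⟩ | ⟨h1, h2, h3, h4⟩
  · rcases W.natTop t with ⟨B, h⟩ | ⟨⟨B, h⟩, -, -⟩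
    · exact hNT B h
    · refine hNT _ (by
        rw [h1, h2, h3]
        exact natTop_light W.gt.H.gradedBelow (fun x hx hxi => h5 x hx (by omega)) h6)
  · exact hNT _ (by
      rw [h1, h2]
      exact h0.natTop W.gt.H.gradedBelow (by omega))
  · exact hNT _ (by
      rw [h1, h2, h3]
      exact h0.natTop W.gt.H.gradedBelow (by omega) (by omega))
  · obtain ⟨B, hB⟩ := h.h1
    rw [← hb] at hB
    have h1 := F6.compL_of_locL (B := fun _ => B) hB HN (fun _ _ => Iff.rfl)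
    refine h1.clean (unnat N) ⟨HN.lower, Subset.refl _, fun x hx => ?_, fun x hx h => h.1 hx⟩
      inferInstance n (by omega)
    have := W.lt_lev hx
    omega
  · rcases h.dat.pat with ⟨c, hJ⟩ | ⟨-, c, c', hJ⟩
    · rw [hb, Z_part W h]
      exact L.vA t lo hi e A h ⟨c, hJ⟩ n hn
    · exact absurd ⟨hb, lo, hi, e, A, h, c, c', hJ⟩ ht
  · obtain ⟨B, hB⟩ := h2
    exact hNT B hB

/-- **No component with the second pattern.** -/
theorem WL.no_JB (W : WL r 31 N b θ) (J : JH P) (L : L31 N θ) (hb1 : ∀ t, 1 ≤ b t)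
    (t0 : Tops P) : ¬ IsJB N b θ t0 := by
  classical
  intro h0
  have HN := W.natSys
  obtain ⟨B, hB⟩ := W.compL
  let ρ : Tops P → ℤ := fun t => if IsJB N b θ t then -1 else 0
  have hρ : ∀ t, ρ t ≤ 0 := by
    intro t
    simp only [ρ]
    split_ifs <;> norm_num
  refine no_first_pole_fam (n0 := 31) (i := 7) (by omega) W.gt.H.gauss HN.lower
    (fun x hx => by have := W.lt_lev hx; omega) topOf HN.cp b (th1 θ)
    (fun x => x ∉ unnat N ∧ B (topOf x) x) (fun x hx h => h.1 hx) hB hb1 W.sum_b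
    (FamP N θ) ?_ ?_ ?_ ?_ ?_ ρ ?_ ?_
  · intro A hA z hz
    obtain ⟨c, hc, rfl⟩ := mem_FamP.mp hA
    exact (mem_Pm.mp hz).1
  · intro z hz h
    exact Pm.out W J L hz fun c hc => h _ (mem_FamP.mpr ⟨c, hc, rfl⟩)
  · intro A hA z hz z' hz' hne
    obtain ⟨c, hc, rfl⟩ := mem_FamP.mp hA
    by_cases hex : ∃ c', Ank 31 N θ c' ∧ z' ∈ Pm N c'
    · obtain ⟨c', hc', hz2⟩ := hex
      have hcc : c' ≠ c := by
        rintro rfl
        exact hne hz2
      obtain ⟨-, -, -, e1, e2, -⟩ := Pm.dat W J L hc hz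
      obtain ⟨-, -, -, e3, -, -⟩ := Pm.dat W J L hc' hz2
      have := Uu_pend W.gt.H (hc.dat W).1 (hc'.dat W).1 hcc (mem_Pm.mp hz).2 (mem_Pm.mp hz2).2
        e1 e3 e2
      omega
    · push Not at hex
      have h1 := Pm.out W J L hz' hex
      have h2 := Uu_right 7 (hcan (unnat N) (th1 θ)) z z'
      omega
  · intro A hA A' hA' hne z hz hz'
    obtain ⟨c, hc, rfl⟩ := mem_FamP.mp hA
    obtain ⟨c', hc', rfl⟩ := mem_FamP.mp hA'
    rw [(mem_Pm.mp hz).2.2 c' (mem_Pm.mp hz').2.1] at hne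
    exact hne rfl
  · intro A hA
    obtain ⟨c, hc, rfl⟩ := mem_FamP.mp hA
    rw [W.sum_b]
    exact Pm.clean W J L hc
  · intro t
    by_cases ht : IsJB N b θ t
    · right
      intro f hf
      have hr : ρ t = -1 := by
        simp only [ρ]
        rw [if_pos ht]
      obtain ⟨hb2, lo, hi, e, A, h, hJ⟩ := ht
      rw [hb2, hr]
      refine L.vB t lo hi e A h hJ f fun n => ?_
      rw [hf, Z_part W h]
    · left
      refine ⟨?_, clean31 W L ht⟩
      simp only [ρ]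
      rw [if_neg ht]
  · have h1 : ∑ t, ρ t < 0 := by
      refine Finset.sum_neg' (fun t _ => hρ t) ⟨t0, mem_univ _, ?_⟩
      simp only [ρ]
      rw [if_pos h0]
      norm_num
    exact h1.ne

end Pool.Agent.GaussPoset.W7
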