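import Pool.Agent.W_448w7_h94.WiK
import Pool.Agent.W_448w7_h94.WiO
import Pool.Agent.W_448w7_h67.CxB
import Pool.Agent.W_448w7_h76.VaA
import Pool.Agent.W_448w7_h83.CyC
import Pool.Agent.W_448w7_h15.WnA
import Pool.Agent.W_448w7_h36.LaC

/-!
The inputs of the ladder and of the energy 31 (MP_448cb3_co, S7, `j = 14`, window 7).
-/

namespace Pool.Agent.GaussPoset.W7

set_option linter.unusedSectionVars false

open Polynomial Finset Fi Cl Dd Wd

universe u

variable {P : Type u} [Fintype P] [PartialOrder P] [DecidableEq P] {r n0 : ℕ}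
  {N : Tops P → Finset P} {b : Tops P → ℕ} {θ : Tops P → P → ℕ}

/-- the inputs at the energy 31 -/
theorem WL.l31 (W : WL r 31 N b θ) (J : JH P)
    (hE : ∀ v : P, lev v = 15 → (∀ y, v ⋖ y → y ≤ (topOf v : P)) → E15 v)
    (hsp : ∀ c : P, Ank 31 N θ c →
      Sp 7 31 (r2 (2 * 7) N) (th2 N θ) (topOf c) c (Dn 31 N c)) : L31 N θ where
  sp := hsp
  c16 := fun c z hc hz hzc => W.c16 J hE hc hz hzc
  h3 := fun c z x y hc hz hzc hl hR hy hx ht hyx hne =>
    W.h3 J hc hz hzc hl hR hy hx ht hyx hne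
  p0 := by
    rintro z hz ⟨t, lo, hi, e, A, L, hm⟩
    exact (W.p0_num L hm hz).2.1
  fb := fun z x x' hx hx' ht hzx hzx' => (W.fb_num hx hx' ht hzx hzx').2.2.1
  vA := by
    rintro t lo hi e A L ⟨c, hJ⟩ n hn
    obtain ⟨θ', hl, -⟩ := hJ.loc L.word L.comp W.gt t.2
    have h1 := hl.clean (lowPart 14 (t : P) ∪ A) (Subset.refl _) (by
      intro x hx y hxy
      have h2 := L.up W x (by rw [L.nat]; exact hx) y hxy
      rw [L.nat] at h2
      exact h2) (fun x hx _ => hx) (fun x hx _ => hx) n (by omega)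
    rw [Z_fin _ _ 7 n] at h1
    exact h1
  vB := by
    rintro t lo hi e A L ⟨c, c', hJ⟩ f hf
    obtain ⟨θ', -, -, hl⟩ := hJ.loc L.word L.comp W.gt t.2
    refine hl f fun n => ?_
    rw [hf n]
    exact Z_fin _ _ 7 n

/-- the inputs of the ladder -/
theorem WL.lad (W : WL r 51 N b θ) (J : JH P)
    (hE : ∀ v : P, lev v = 15 → (∀ y, v ⋖ y → y ≤ (topOf v : P)) → E15 v)
    (hsp : ∀ c : P, Ank 51 N θ c →
      Sp 7 51 (r2 (2 * 7) N) (th2 N θ) (topOf c) c (Dn 51 N c)) : Lad N θ where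
  sp := hsp
  c16 := fun c z hc hz hzc => W.c16 J hE hc hz hzc
  h3 := fun c z x y hc hz hzc hl hR hy hx ht hyx hne =>
    W.h3 J hc hz hzc hl hR hy hx ht hyx hne
  nine := W.nine J hsp
  p0 := by
    classical
    rintro z hz hl ⟨t, lo, hi, e, A, L, hm⟩
    obtain ⟨h1, h2, h3, h4⟩ := W.p0_num L hm (mem_filter.mp hz).1
    rw [h4, h1]
    exact ⟨h2, h3, by norm_num⟩
  fb := by
    intro z hz x x' hl hx hx' ht hzx hzx'
    obtain ⟨-, h1, h2, h3, h4⟩ := W.fb_num (θ := θ) hx hx' ht hzx hzx'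
    rw [h4, h1]
    exact ⟨h2, h3, by norm_num⟩

end Pool.Agent.GaussPoset.W7
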