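import Pool.Agent.W_448w7_h94.WiP
import Pool.Agent.W_448w7_h15.WnC
import Pool.Agent.W_448jb_h67.NpH
import Pool.Agent.W_448s7s_h5.TyC

/-!
No join of a fold end and an end `(5, 25, 0)` at level 15 (MP_448cb3_co, S7, `j = 14`): the
assembly.
-/

namespace Pool.Agent.GaussPoset.W7

set_option linter.unusedSectionVars false

open Polynomial Finset Fi Cl Dd Wd

universe u

variable {P : Type u} [Fintype P] [PartialOrder P] [DecidableEq P] {r : ℕ}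
  {lo hi : Tops P → ℕ → ℕ} {e : Tops P → ℕ → ℕ → P}

/-- the assembly -/
theorem noFB_of (K : Sm.Ctx P r 14 lo hi e)
    (hE : 15 ≤ r → Tv.JFB P → ∀ v : P, lev v = 15 → (∀ y, v ⋖ y → y ≤ (topOf v : P)) → E15 v)
    (hsp : ∀ (n0 : ℕ) (N : Tops P → Finset P) (b : Tops P → ℕ) (θ : Tops P → P → ℕ),
      WL r n0 N b θ → ∀ c : P, Ank n0 N θ c →
        Sp 7 n0 (r2 (2 * 7) N) (th2 N θ) (topOf c) c (Dn n0 N c)) :
    Sm.NoFB P 14 := by
  classical
  rintro z x x' ⟨hc, hl, hf⟩ -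
  have hr : 15 ≤ r := by
    have := K.gt.H.hr z
    omega
  have hJF := jfb K hr
  have J := jh K hr ⟨z, hc.jn⟩
  have hE := hE hr hJF
  have hpat : ∀ t : Tops P, ∃ A : Finset P, WordD 14 7 wa7 (lo t) (hi t) →
      ((∃ c, JA (e t) A c) ∨ ∃ c c', JB (e t) A c c') ∧
        ∀ z, lev z = 15 → (∀ y, z ⋖ y → y ≤ (t : P)) → z ∈ A ∨ Sg.Mk (e t) z 33554432 := by
    intro t
    by_cases D : WordD 14 7 wa7 (lo t) (hi t)
    · obtain ⟨A, h1, -, h3⟩ := Np.hpat14 K hr D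
      exact ⟨A, fun _ => ⟨h1, h3⟩⟩
    · exact ⟨∅, fun h => absurd h D⟩
  choose A hA using hpat
  obtain ⟨N, θ, W, hW⟩ := exists_WL_of K hr hJF (n0 := 31) (by norm_num) A (by
    intro t D
    obtain ⟨h1, h3⟩ := hA t D
    rcases h1 with ⟨c, J⟩ | ⟨c, c', J⟩
    · exact lh_JA K.gt t.2 (K.comp t) D (by norm_num) J h3
    · obtain ⟨θ, g1, g2, -⟩ := J.loc D (K.comp t) K.gt t.2
      exact ⟨Or.inr ⟨le_rfl, c, c', J⟩, h3, θ, g1, g2⟩)
  have hno : ∀ t : Tops P, WordD 14 7 wa7 (lo t) (hi t) → ∃ c, JA (e t) (A t) c := by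
    intro t D
    rcases (hA t D).1 with h | h
    · exact h
    · exfalso
      refine W.no_JB J (W.l31 J hE (hsp 31 N _ θ W)) (fun t => by omega) t
        ⟨?_, lo t, hi t, e t, A t, hW t D, h⟩
      obtain ⟨h1, h2⟩ := D.rows (K.comp t)
      show hi t 7 - lo t 7 + 1 = 2
      rw [h1 7 (by omega), h2 7 (by omega)]
      decide +kernel
  obtain ⟨N', θ', W', -⟩ := exists_WL51 K hr hJF (n0 := 51) le_rfl A
    (fun t D => ⟨hno t D, (hA t D).2⟩)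
  have L := W'.lad J hE (hsp 51 N' _ θ' W')
  rcases J.hJ z x x' hl hc.cov hc.cov' hc.ne with ⟨h1, h2⟩ | ⟨h1, h2⟩
  · exact L.no_fb W' J hl h1 h2 hc.ne hc.cov hc.cov'
  · exact L.no_fb W' J hl h1 h2 hc.ne.symm hc.cov' hc.cov

end Pool.Agent.GaussPoset.W7
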