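import Pool.Agent.W_448w7_h94.WiG
import Pool.Agent.W_448w7_h27.WhA
import Pool.Agent.W_448w7_h44.WhB
import Pool.Agent.W_448s7s_h5.TyA

/-!
The profiles of the elements of level 15 with all covers in one component (MP_448cb3_co, S7,
`j = 14`): the assembly of `ep_light` and of the cases of `sd_wide`.
-/

namespace Pool.Agent.GaussPoset.W7

set_option linter.unusedSectionVars false

open Finset Wd Sm Cl Win

universe u

variable {P : Type u} [Fintype P] [PartialOrder P] [DecidableEq P] {r : ℕ}

section

variable {t : Tops P} {lo hi : ℕ → ℕ} {e : ℕ → ℕ → P}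

/-- the components with at least two elements on level 7 -/
theorem sd_wide' (h : GoodTo P r 14) (C : Cp.Comp 14 (t : P) lo hi e) (hS : Wd.Shape 14 lo hi)
    (h7 : lo 7 ≠ hi 7) {v : P} (hv : lev v = 15) (hvt : ∀ y, v ⋖ y → y ≤ (t : P))
    (hQ : ¬ QRows 14 7 lo hi) (hLa : WordD 14 7 wa7 lo hi → ¬ Pend v (e 14 7)) : Sd v := by
  classical
  rcases hS with g | ⟨-, g2⟩ | ⟨-, g2⟩ | ⟨g1, -, -⟩ | ⟨g1, -⟩ | ⟨a, g0, g1, g2, g3, hN, g4⟩
  · have := g 7 (by omega)
    omega
  · exact sd_rect h C g2 hv hvt
  · exact sd_stair h C g2 hv hvt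
  · omega
  · omega
  · have ha : a ≤ 7 := by
      by_contra hcon
      have := g2 7 (by omega)
      omega
    have hpos : ∀ s', s' ∈ posA 14 lo hi e v → lo 14 ≤ s' ∧ s' ≤ hi 14 := fun s' hs' =>
      (mem_posA.mp hs').1
    have D : LateD 14 a lo hi := ⟨g0, g1, g2, g3, g4⟩
    rcases g4 with ⟨⟨b1, b2⟩, b3⟩ | b3
    · exfalso
      have hq := D.quad C b3
      obtain rfl : a = 7 := by omega
      exact hQ ⟨D.h2, D.h3, by
        intro k hk hk2
        have := hq (k - 7) (by omega) (by omega)
        rwa [show 7 + (k - 7) = k by omega] at this⟩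
    · obtain ⟨s, hs⟩ := posA_ne h C hv hvt
      rcases lateW_len a (by
        simp only [List.mem_cons, List.not_mem_nil, or_false]
        omega) _ b3 word_length with ⟨rfl, hw⟩ | ⟨rfl, hw⟩
      · have D : WordD 14 4 w7 lo hi := ⟨g2, g3, by rw [hw]⟩
        obtain ⟨r1, r2⟩ := D.rows C
        right
        have h3 := ct_pos h C hv hvt hs
        have h4 := hpos s hs
        rw [r1 14 le_rfl, r2 14 le_rfl] at h4
        have h5 := e7_ct s (mem_Icc.mpr h4)
        rw [nb_word D C (by omega), nb_word D C (by omega), nb_word D C (by omega),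
          nb_word D C (by omega), nb_word D C (by omega), nb_word D C (by omega),
          nb_word D C (by omega)] at h3
        omega
      · have D : WordD 14 7 wa7 lo hi := ⟨g2, g3, by rw [hw]; decide⟩
        obtain ⟨r1, r2⟩ := D.rows C
        obtain ⟨⟨q1, q2⟩, q3, q4⟩ := la7_nb
        by_cases hex : ∃ s ∈ posA 14 lo hi e v, s ≠ 7
        · obtain ⟨s, hs, hne⟩ := hex
          right
          have h3 := ct_pos h C hv hvt hs
          have h4 := hpos s hs
          rw [r1 14 le_rfl, r2 14 le_rfl] at h4
          have h5 := la7_ct s (mem_Icc.mpr h4) hne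
          rw [nb_word D C (by omega), nb_word D C (by omega), nb_word D C (by omega),
            nb_word D C (by omega), nb_word D C (by omega), nb_word D C (by omega),
            nb_word D C (by omega)] at h3
          omega
        · push Not at hex
          have hone : posA 14 lo hi e v = {7} := by
            ext s'
            rw [mem_singleton]
            refine ⟨hex s', fun hs' => ?_⟩
            rw [hs', ← hex s hs]
            exact hs
          obtain ⟨b1, b2⟩ := pend_thin h C hv hvt hone
            (fun k hk hk' => by rw [nb_word D C hk']; exact q3 k (mem_Icc.mpr ⟨hk, hk'⟩))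
            (by rw [nb_word D C (by omega)]; exact q4)
          exact absurd b2 (hLa D)

end

variable {lo hi : Tops P → ℕ → ℕ} {e : Tops P → ℕ → ℕ → P}

/-- **the elements of level 15 with all covers in one component** -/
theorem e15 (K : Sm.Ctx P r 14 lo hi e) (hJ : Tv.JFB P) :
    ∀ v : P, lev v = 15 → (∀ y, v ⋖ y → y ≤ (topOf v : P)) → E15 v := by
  classical
  intro v hv hvt
  by_cases h7 : lo (topOf v) 7 = hi (topOf v) 7
  · obtain ⟨h1, h2, h3⟩ := W7h.ep_light K.gt (K.comp _) (K.shape _) h7.symm hv hvt
    have hcn : cn 7 (topOf v : P) = 1 := by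
      rw [cn_comp (K.comp _) (by norm_num)]
      omega
    rcases h1 with h | ⟨l, g1, g2, g3, g4⟩ | ⟨g1, g2⟩ | g
    · exact E15.str h
    · refine E15.one l g1 g2 g3 (fun l' hl' hne => ?_) hcn ?_
      · rcases Nat.lt_or_ge l' 7 with hl7 | hl7
        · exact h2 l' hl7.le
        · exact g4 l' hl7 hl' hne
      · rintro rfl x hx hlx hvx
        exact h3 g3 (fun l a b c => g4 l a b c) x hx hvx
    · exact E15.mid g1 g2
    · exact E15.big g
  · have hS := sd_wide' K.gt (K.comp _) (K.shape _) h7 hv hvt
      (fun Q => quad_bare K.gt K.comp K.shape hJ Q hv (le_topOf v))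
      (fun D hp => Tv.no_pen_last K.gt K.comp K.shape _ D hp)
    rcases hS with h | h
    · exact E15.str h
    · exact E15.big h

end Pool.Agent.GaussPoset.W7
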