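import Pool.Agent.W_448w7_h94.WiG
import Pool.Agent.W_448w7_h94.WiO
import Pool.Agent.W_448w7_h22.SpE
import Pool.Agent.W_448w7_h36.LaC
import Pool.Agent.W_448w7_h36.LaD

/-!
The anchors of the strips `La7` (MP_448cb3_co, S7, `j = 14`, window 7): the structure `Sp`.
-/

namespace Pool.Agent.GaussPoset.W7

set_option linter.unusedSectionVars false

open Polynomial Finset Fi Cl Dd Wd

universe u

variable {P : Type u} [Fintype P] [PartialOrder P] [DecidableEq P] {r n0 : ℕ}
  {N : Tops P → Finset P} {b : Tops P → ℕ} {θ : Tops P → P → ℕ}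

/-- the window 9 -/
theorem WL.f2D (W : WL r n0 N b θ) {c : P} {lo hi : ℕ → ℕ} {e : ℕ → ℕ → P} {A : Finset P}
    (L : LaD n0 N (θ (topOf c)) (topOf c) lo hi e A) (hcA : c ∈ A)
    (hmk : Sg.Mk e c 805306368) : F2D (topOf c : P) A c (Dn n0 N c) := by
  classical
  have hld : ∀ U : Finset P, (∀ x, x ∈ U ↔ c ≤ x) →
      (1 + X : ℤ[X]) ^ 2 ∣ Z {x // x ∈ U} 9 2 + X ^ 13 * (1 + X) := by
    intro U hU
    have h := ld_of_mk L.word L.comp W.gt (topOf c).2 hmk U hU
    rw [Z_fin _ _ 9 2] at h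
    exact h
  rcases W.anc_pat L hcA hmk with J | ⟨hn, c', J⟩
  · obtain ⟨h1, -⟩ := J.cls L.word L.comp W.gt (topOf c).2
    refine ⟨fun U hU hup hc n hn => ?_, fun U hU hup hc hd n hn => ?_, hld⟩
    · have h := (h1 U hU hup hc).1 n hn
      rw [Z_fin _ _ 9 n] at h
      exact h
    · obtain ⟨d, hd, hdU⟩ := hd
      have hdA : ∃ d ∈ A, d ≠ c ∧ d ∈ U := by
        unfold Dn at hd
        split_ifs at hd with hn
        · obtain ⟨h3, h4, h5⟩ := mem_filter.mp hd
          exact ⟨d, (L.mem15 h3 h4.ge).1, h5, hdU⟩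
        · exact absurd hd (notMem_empty d)
      have h := (h1 U hU hup hc).2 hdA n hn
      rw [Z_fin _ _ 9 n] at h
      exact h
  · refine ⟨fun U hU hup hc n hn => ?_, fun U hU hup hc hd n hn => ?_, hld⟩
    · have h : (1 + X : ℤ[X]) ^ 2 ∣ Z {x // x ∈ U} 9 n := by
        rcases J with J | J
        · exact J.cls L.word L.comp W.gt (topOf c).2 U hU hup (Or.inl hc) n hn
        · exact J.cls L.word L.comp W.gt (topOf c).2 U hU hup (Or.inr hc) n hn
      exact h
    · obtain ⟨d, hd, hdU⟩ := hd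
      unfold Dn at hd
      rw [if_neg (by omega)] at hd
      exact absurd hd (notMem_empty d)

/-- **the structure of an anchor** -/
theorem WL.spA (W : WL r n0 N b θ) {c : P} (hc : Ank n0 N θ c) :
    Sp 7 n0 (r2 (2 * 7) N) (th2 N θ) (topOf c) c (Dn n0 N c) := by
  obtain ⟨lo, hi, e, A, L, hA, hm⟩ := hc
  exact W.sp_of L hA hm (W.f2D L hA hm)

end Pool.Agent.GaussPoset.W7
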