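import Pool.Agent.W_448w7_h94.WiQ
import Pool.Agent.W_448w7_h94.WiR
import Pool.Agent.W_448w7_h94.WiS
import Pool.Agent.W_448s7s_h5.TuR

/-!
**Step A for `j = 14`** (MP_448cb3_co, S7): no join of a fold end and an end `(5, 25, 0)` at
level 15.
-/

namespace Pool.Agent.GaussPoset.W7

set_option linter.unusedSectionVars false

open Finset Fi Wd

universe u

variable {P : Type u} [Fintype P] [PartialOrder P] [DecidableEq P] {r : ℕ}
  {lo hi : Tops P → ℕ → ℕ} {e : Tops P → ℕ → ℕ → P}

/-- **No join of a fold end and an end `(5, 25, 0)`.** -/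
theorem noFB14 (K : Sm.Ctx P r 14 lo hi e) : Sm.NoFB P 14 :=
  noFB_of K (fun _ hJ => e15 K hJ) fun _ _ _ _ W _ hc => W.spA hc

/-- **the input for `j = 14`** -/
theorem hfb14 (P : Type u) [Fintype P] [PartialOrder P] [DecidableEq P] : Win.HFB14 P :=
  fun _ _ _ _ K => noFB14 K

end Pool.Agent.GaussPoset.W7
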